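import Mathlib
import Pool.Prelude.Def_F_c31e40fa
import Pool.Agent.H749R2.Hyp2
import Pool.Agent.H713R2.AR.HB

/-!
# Unicritical polynomials at a fixed parameter and varying degree: dynamics
-/

set_option autoImplicit false
open Complex Metric Set Filter Topology
open N62a1eb23

namespace Pool.Agent.H462R2.AD

open Pool.Agent.H712R2 Pool.Agent.H713R2 Pool.Agent.H713R2.AR

/-- The parameters `c` for which `z ^ n + c` has an attracting cycle. -/
def hyp (n : ℕ) : Set ℂ := {c | ∃ m z, IsAttractingCycle (fun z => z ^ n + c) m z}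

theorem esc {n : ℕ} {c : ℂ} (hc : ‖c‖ = 1) (hb : ∀ k, ‖P n k c‖ ≤ 2) (k : ℕ)
    (h : 3 < ‖P n k c‖ ^ n) : False := by
  have h1 := hb (k + 1)
  rw [P_succ] at h1
  have h2 : ‖P n k c‖ ^ n - 1 ≤ ‖P n k c ^ n + c‖ := by
    have := norm_sub_le (P n k c ^ n + c) c
    rw [add_sub_cancel_right, norm_pow, hc] at this
    linarith
  linarith

theorem esc2 {n : ℕ} (hn : 2 ≤ n) {c : ℂ} (hc : ‖c‖ = 1) (hb : ∀ k, ‖P n k c‖ ≤ 2) (k : ℕ)
    (h : P n k c = c * 2) : False := by
  apply esc hc hb k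
  rw [h, norm_mul, hc, one_mul]
  have : ‖(2:ℂ)‖ = 2 := by simp
  rw [this]
  calc (3:ℝ) < 2 ^ 2 := by norm_num
    _ ≤ 2 ^ n := pow_le_pow_right₀ (by norm_num) hn

theorem esc3 {n : ℕ} (hn : 3 ≤ n) {c u : ℂ} (hc : ‖c‖ = 1) (hb : ∀ k, ‖P n k c‖ ≤ 2) (k : ℕ)
    (h : P n k c = c * u) (hu : ‖u ^ 2‖ = 3) : False := by
  apply esc hc hb k
  rw [h, norm_mul, hc, one_mul]
  rw [norm_pow] at hu
  have h1 : 1 ≤ ‖u‖ := by
    by_contra hcon
    push Not at hcon
    have := norm_nonneg u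
    nlinarith
  have h2 : 1 < ‖u‖ := by
    rcases h1.lt_or_eq with h2 | h2
    · exact h2
    · rw [← h2] at hu; norm_num at hu
  calc (3:ℝ) = ‖u‖ ^ 2 := hu.symm
    _ < ‖u‖ ^ 3 := by gcongr <;> norm_num
    _ ≤ ‖u‖ ^ n := pow_le_pow_right₀ h1 hn

/-- If the critical orbit of `c`, `|c| = 1`, stays on the unit circle then `c` is a limit of
parameters with an attracting cycle. -/
theorem misiurewicz {n : ℕ} (hn : 3 ≤ n) {c : ℂ} (h : ∀ k, 1 ≤ k → ‖P n k c‖ = 1) :
    c ∈ closure (hyp n) := by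
  have hn2 : 2 ≤ n := by omega
  by_contra hcl
  rw [Metric.mem_closure_iff] at hcl
  push Not at hcl
  obtain ⟨r, hr, hr2⟩ := hcl
  have hcM : c ∈ multibrotSet n := by
    rw [mem_multibrot_iff hn2]
    intro k
    rcases Nat.eq_zero_or_pos k with h0 | h0
    · subst h0; rw [P_zero, norm_zero]; norm_num
    · rw [h k h0]; norm_num
  have hsub := ball_subset hn2 hr hcM (by
    intro c' hc' hh
    have := hr2 c' hh
    rw [mem_ball, dist_comm] at hc'
    linarith)
  have hder : ∀ k, ‖deriv (P n k) c‖ ≤ 2 / (r / 2) := by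
    intro k
    apply Complex.norm_deriv_le_of_forall_mem_sphere_norm_le (by positivity)
    · exact (differentiable_P n k).diffContOnCl
    · intro z hz
      have hz' : z ∈ ball c r := by
        rw [mem_sphere] at hz
        rw [mem_ball, hz]; linarith
      exact (mem_multibrot_iff hn2 z).mp (hsub hz') k
  have hgrow : ∀ k : ℕ, ((k + 1 : ℕ) : ℝ) ≤ ‖deriv (P n (k + 1)) c‖ := by
    intro k
    induction k with
    | zero =>
      have : P n (0 + 1) = fun c => c := by
        funext x; exact P_one hn2 x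
      rw [this]
      simp
    | succ k ih =>
      have h1 : P n (k + 1 + 1) = fun c => (P n (k + 1) c) ^ n + c := by
        funext x; exact P_succ n (k + 1) x
      have h2 : HasDerivAt (P n (k + 1 + 1))
          (n * (P n (k + 1) c) ^ (n - 1) * deriv (P n (k + 1)) c + 1) c := by
        rw [h1]
        exact (((differentiable_P n (k + 1)) c).hasDerivAt.fun_pow n).add (hasDerivAt_id c)
      rw [h2.deriv]
      have h3 := norm_sub_le (n * (P n (k + 1) c) ^ (n - 1) * deriv (P n (k + 1)) c + 1) 1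
      rw [add_sub_cancel_right, norm_mul, norm_mul, norm_pow, h (k + 1) (by omega), one_pow,
        mul_one, norm_one, Complex.norm_natCast] at h3
      have hn' : (3:ℝ) ≤ n := by exact_mod_cast hn
      have hk : (0:ℝ) ≤ k := by positivity
      push_cast at ih ⊢
      nlinarith
  obtain ⟨k, hk⟩ := exists_nat_gt (2 / (r / 2))
  have h1 := hder (k + 1)
  have h2 := hgrow k
  push_cast at h2
  linarith

/-- If `c ^ (n - 1)` is a cube root of unity then density of hyperbolicity holds at `c`. -/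
theorem cube {n : ℕ} (hn : 2 ≤ n) {c : ℂ} (h3 : c ^ (3 * (n - 1)) = 1)
    (hcM : c ∈ multibrotSet n) : c ∈ closure (hyp n) := by
  have hc1 : ‖c‖ = 1 := by
    have h1 : ‖c‖ ^ (3 * (n - 1)) = 1 := by rw [← norm_pow, h3, norm_one]
    exact (pow_eq_one_iff_of_nonneg (norm_nonneg c) (by omega)).mp h1
  have hc0 : c ≠ 0 := by
    intro h0; rw [h0, norm_zero] at hc1; norm_num at hc1
  have hb := (mem_multibrot_iff hn c).mp hcM
  set ζ := c ^ (n - 1) with hζ
  have hζ3 : ζ ^ 3 = 1 := by rw [hζ, ← pow_mul, mul_comm]; exact h3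
  have hcn : c ^ n = c * ζ := by
    rw [hζ]
    conv_lhs => rw [show n = (n - 1) + 1 by omega]
    rw [pow_succ]; ring
  have hP1 : P n 1 c = c := P_one hn c
  have hP2 : P n 2 c = c * (ζ + 1) := by
    rw [P_succ, hP1, hcn]; ring
  by_cases hζ1 : ζ = 1
  · exfalso
    apply esc2 hn hc1 hb 2
    rw [hP2, hζ1]; norm_num
  have hq : ζ ^ 2 + ζ + 1 = 0 := by
    have h1 : (ζ - 1) * (ζ ^ 2 + ζ + 1) = 0 := by linear_combination hζ3
    exact (mul_eq_zero.mp h1).resolve_left (sub_ne_zero.mpr hζ1)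
  have hζn : ‖ζ‖ = 1 := by rw [hζ, norm_pow, hc1, one_pow]
  set κ := ζ + 1 with hκ
  have hκ2 : κ ^ 2 = ζ := by rw [hκ]; linear_combination hq
  have hκ6 : κ ^ 6 = 1 := by
    calc κ ^ 6 = (κ ^ 2) ^ 3 := by ring
      _ = 1 := by rw [hκ2, hζ3]
  have hP3 : P n 3 c = c * (ζ * κ ^ n + 1) := by
    rw [P_succ, hP2, mul_pow, hcn]; ring
  have hκn : κ ^ n = κ ^ (n % 6) := by
    conv_lhs => rw [← Nat.div_add_mod n 6, pow_add, pow_mul, hκ6, one_pow, one_mul]
  have hmod : n % 6 = 0 ∨ n % 6 = 1 ∨ n % 6 = 2 ∨ n % 6 = 3 ∨ n % 6 = 4 ∨ n % 6 = 5 := by omega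
  rcases hmod with h | h | h | h | h | h
  · -- Misiurewicz
    have hfix : P n 3 c = P n 2 c := by
      rw [hP3, hκn, h, hP2]; ring
    have hall : ∀ k, P n (k + 2) c = P n 2 c := by
      intro k
      induction k with
      | zero => rfl
      | succ k ih =>
        rw [show k + 1 + 2 = (k + 2) + 1 by ring, P_succ, ih, ← P_succ]
        exact hfix
    have hκnorm : ‖κ‖ = 1 := by
      have h1 : ‖κ‖ ^ 6 = 1 := by rw [← norm_pow, hκ6, norm_one]
      exact (pow_eq_one_iff_of_nonneg (norm_nonneg κ) (by omega)).mp h1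
    apply misiurewicz (by omega)
    intro k hk
    rcases Nat.lt_or_ge k 2 with h2 | h2
    · have : k = 1 := by omega
      rw [this, hP1, hc1]
    · obtain ⟨j, rfl⟩ := Nat.exists_eq_add_of_le h2
      rw [add_comm 2 j, hall j, hP2, norm_mul, hc1, hκnorm, one_mul]
  · -- superattracting
    have hP30 : P n 3 c = 0 := by
      rw [hP3, hκn, h, hκ]
      have : ζ * (ζ + 1) ^ 1 + 1 = 0 := by linear_combination hq
      rw [this, mul_zero]
    by_contra hcl
    have hno : ¬ ∃ m z, IsAttractingCycle (fun z => z ^ n + c) m z := fun hh =>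
      hcl (subset_closure hh)
    exact P_ne_zero hn hno (n := 3) (by norm_num) hP30
  · exfalso
    have hP3' : P n 3 c = c * (-ζ) := by
      rw [hP3, hκn, h, hκ2]
      congr 1
      linear_combination hq
    have hP4 : P n 4 c = c * (ζ * (-ζ) ^ n + 1) := by
      rw [P_succ, hP3', mul_pow, hcn]; ring
    have h6 : (-ζ) ^ 6 = 1 := by
      calc (-ζ) ^ 6 = (ζ ^ 3) ^ 2 := by ring
        _ = 1 := by rw [hζ3, one_pow]
    have h7 : (-ζ) ^ n = ζ ^ 2 := by
      conv_lhs => rw [← Nat.div_add_mod n 6, pow_add, pow_mul, h6, one_pow, one_mul, h]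
      ring
    apply esc2 hn hc1 hb 4
    rw [hP4, h7]
    have : ζ * ζ ^ 2 + 1 = 2 := by linear_combination hζ3
    rw [this]
  · exfalso
    have hκ3 : κ ^ 3 = -1 := by
      calc κ ^ 3 = κ ^ 2 * κ := by ring
        _ = -1 := by rw [hκ2, hκ]; linear_combination hq
    apply esc3 (by omega) hc1 hb 3 (u := 1 - ζ)
    · rw [hP3, hκn, h, hκ3]; ring
    · have : (1 - ζ) ^ 2 = -3 * ζ := by linear_combination hq
      rw [this, norm_mul, hζn]
      simp
  · exfalso
    apply esc2 hn hc1 hb 3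
    rw [hP3, hκn, h]
    have : ζ * κ ^ 4 + 1 = 2 := by
      calc ζ * κ ^ 4 + 1 = ζ * (κ ^ 2) ^ 2 + 1 := by ring
        _ = 2 := by rw [hκ2]; linear_combination hζ3
    rw [this]
  · exfalso
    have hκ5 : κ ^ 5 = -ζ := by
      calc κ ^ 5 = (κ ^ 2) ^ 2 * κ := by ring
        _ = -ζ := by rw [hκ2, hκ]; linear_combination ζ * hq
    apply esc3 (by omega) hc1 hb 3 (u := 1 - ζ ^ 2)
    · rw [hP3, hκn, h, hκ5]; ring
    · have : (1 - ζ ^ 2) ^ 2 = -3 * ζ ^ 2 := by
        linear_combination (ζ ^ 2 - ζ) * hq + hq - hζ3 * 0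
      rw [this, norm_mul, norm_pow, hζn]
      simp

end Pool.Agent.H462R2.AD
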