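import Pool.Agent.H462R2.AD1

/-!
# Unicritical polynomials at a fixed parameter and varying degree: the exceptional degrees
-/

set_option autoImplicit false
open Complex Metric Set Filter Topology
open N62a1eb23

namespace Pool.Agent.H462R2.AD

open Pool.Agent.H749R2.Hyp

/-- The degrees `n ≥ 2` in which density of hyperbolicity fails at the parameter `c`. -/
def bad (c : ℂ) : Set ℕ := {n | 2 ≤ n ∧ c ∈ multibrotSet n ∧ c ∉ closure (hyp n)}

theorem not_att {n : ℕ} {c : ℂ} (h : c ∉ closure (hyp n)) : ¬ Att2 n c := by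
  rintro ⟨m, z, -, hz⟩
  exact h (subset_closure ⟨m, z, hz⟩)

theorem ne_zero_of_bad {n : ℕ} {c : ℂ} (h : n ∈ bad c) : c ≠ 0 := by
  rintro rfl
  exact not_att h.2.2 (att_zero h.1)

theorem log_two_le {n : ℕ} (hn : 2 ≤ n) : Real.log 2 ≤ Real.log n :=
  Real.log_le_log (by norm_num) (by exact_mod_cast hn)

theorem log_norm_le {n : ℕ} {c : ℂ} (h : n ∈ bad c) :
    |Real.log ‖c‖| ≤ 200 * Real.log n / n := by
  obtain ⟨hn, hM, hcl⟩ := h
  have hn' : (2:ℝ) ≤ n := by exact_mod_cast hn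
  have hno := not_att hcl
  have h1 := low1 hn hno
  have h2 := t_le_two hn hM
  have hl2 : 0.6931471803 < Real.log 2 := Real.log_two_gt_d9
  have hln := log_two_le hn
  have hx0 : 0 < ‖c‖ := by
    rcases (norm_nonneg c).lt_or_eq with h0 | h0
    · exact h0
    · exfalso
      rw [← h0, zero_pow (by omega)] at h1
      norm_num at h1
  set x := ‖c‖ with hx
  have hp : 0 < x ^ (n - 1) := by positivity
  have h3 : Real.log (x ^ (n - 1)) = ((n:ℝ) - 1) * Real.log x := by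
    rw [Real.log_pow, Nat.cast_sub (by omega), Nat.cast_one]
  have h4 : Real.log (x ^ (n - 1)) ≤ Real.log 2 := Real.log_le_log hp h2
  have h5 : 0 < Real.log (Real.exp 1 * (n * x ^ (n - 1))) := Real.log_pos h1
  rw [Real.log_mul (Real.exp_pos 1).ne' (by positivity), Real.log_exp,
    Real.log_mul (by positivity) hp.ne'] at h5
  rw [h3] at h4 h5
  have hn1 : (0:ℝ) < n := by linarith
  have hkey : ((n:ℝ) - 1) * |Real.log x| ≤ 3 * Real.log n := by
    rcases abs_cases (Real.log x) with ⟨h6, -⟩ | ⟨h6, -⟩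
    · rw [h6]; linarith
    · rw [h6]; linarith
  rw [le_div_iff₀ hn1]
  have h7 : 0 ≤ |Real.log x| := abs_nonneg _
  nlinarith

theorem norm_sq_add {ζ : ℂ} (h : ‖ζ‖ = 1) : ‖ζ ^ 2 + ζ + 1‖ = |‖1 + ζ‖ ^ 2 - 1| := by
  have h1 : normSq ζ = 1 := by rw [normSq_eq_norm_sq, h]; norm_num
  have h2 : ζ ^ 2 + ζ + 1 = ζ * ((1 + 2 * ζ.re : ℝ) : ℂ) := by
    have h3 : ζ * (starRingEnd ℂ) ζ = 1 := by rw [mul_conj, h1]; simp
    have h4 : ζ + (starRingEnd ℂ) ζ = ((2 * ζ.re : ℝ) : ℂ) := add_conj ζ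
    push_cast at h4 ⊢
    rw [← h4]
    linear_combination -h3
  rw [h2, norm_mul, h, one_mul, Complex.norm_real, Real.norm_eq_abs]
  congr 1
  rw [← normSq_eq_norm_sq]
  rw [normSq_apply] at h1 ⊢
  simp
  nlinarith

theorem norm_cube_le {n : ℕ} {c : ℂ} (hc : ‖c‖ = 1) (h : n ∈ bad c) :
    ‖c ^ (3 * (n - 1)) - 1‖ ≤ 200 * Real.log n / n := by
  obtain ⟨hn, hM, hcl⟩ := h
  have hn' : (2:ℝ) ≤ n := by exact_mod_cast hn
  have hn1 : (0:ℝ) < n := by linarith
  have hl2 : 0.6931471803 < Real.log 2 := Real.log_two_gt_d9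
  have hln := log_two_le hn
  have htwo : ∀ z : ℂ, ‖z‖ = 1 → ‖z - 1‖ ≤ 2 := by
    intro z hz
    have := norm_sub_le z 1
    rw [hz, norm_one] at this
    linarith
  rcases lt_or_ge n 64 with h64 | h64
  · have h1 := htwo (c ^ (3 * (n - 1))) (by rw [norm_pow, hc, one_pow])
    rw [le_div_iff₀ hn1]
    have h2 : (n:ℝ) ≤ 63 := by exact_mod_cast (by omega : n ≤ 63)
    nlinarith [norm_nonneg (c ^ (3 * (n - 1)) - 1)]
  have h64' : (64:ℝ) ≤ n := by exact_mod_cast h64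
  have hno := not_att hcl
  have h1 := low2 h64 hno
  have h2 := z2_le hn hM
  rw [hc, one_pow] at h1 h2
  rw [mul_one] at h1
  rw [one_mul] at h2
  rw [mul_comm 3, pow_mul]
  set ζ := c ^ (n - 1) with hζ
  have hζn : ‖ζ‖ = 1 := by rw [hζ, norm_pow, hc, one_pow]
  set y := ‖1 + ζ‖ with hy
  have hy0 : 0 < y := by
    rcases (norm_nonneg (1 + ζ)).lt_or_eq with h0 | h0
    · exact h0
    · exfalso
      rw [hy, ← h0, zero_pow (by omega)] at h1
      norm_num at h1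
  have hp : 0 < y ^ (n - 1) := by positivity
  have h3 : Real.log (y ^ (n - 1)) = ((n:ℝ) - 1) * Real.log y := by
    rw [Real.log_pow, Nat.cast_sub (by omega), Nat.cast_one]
  have h4 : Real.log (y ^ (n - 1)) ≤ Real.log 2 := Real.log_le_log hp h2
  have h5 : Real.log (1 / 440) ≤ Real.log ((n:ℝ) ^ 2 * y ^ (n - 1)) :=
    Real.log_le_log (by norm_num) h1
  rw [Real.log_mul (by positivity) hp.ne', Real.log_pow, h3] at h5
  rw [h3] at h4
  have h440 : -(9 * Real.log 2) ≤ Real.log (1 / 440) := by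
    have h6 : Real.log (1 / 440) = - Real.log 440 := by rw [one_div, Real.log_inv]
    have h7 : Real.log 440 ≤ Real.log (2 ^ 9) := Real.log_le_log (by norm_num) (by norm_num)
    rw [Real.log_pow] at h7
    rw [h6]
    push_cast at h7
    linarith
  push_cast at h5
  set L := Real.log y with hL
  have hkey : ((n:ℝ) - 1) * |L| ≤ 11 * Real.log n := by
    rcases abs_cases L with ⟨h6, -⟩ | ⟨h6, -⟩
    · rw [h6]; linarith
    · rw [h6]; linarith
  have hkey2 : |2 * L| ≤ 44 * Real.log n / n := by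
    rw [abs_mul, abs_two, le_div_iff₀ hn1]
    nlinarith [abs_nonneg L]
  have hfac : ‖ζ ^ 3 - 1‖ = ‖ζ - 1‖ * |y ^ 2 - 1| := by
    rw [hy, ← norm_sq_add hζn, ← norm_mul]
    congr 1
    ring
  have hmain : ‖ζ ^ 3 - 1‖ ≤ 4 * |2 * L| := by
    rcases le_or_gt |2 * L| 1 with h6 | h6
    · have h7 := Real.abs_exp_sub_one_le h6
      have h8 : Real.exp (2 * L) = y ^ 2 := by
        rw [hL, mul_comm, Real.exp_mul, Real.exp_log hy0]
        norm_num
      rw [h8] at h7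
      have h9 := htwo ζ hζn
      rw [hfac]
      calc ‖ζ - 1‖ * |y ^ 2 - 1| ≤ 2 * (2 * |2 * L|) := by gcongr
        _ = 4 * |2 * L| := by ring
    · have := htwo (ζ ^ 3) (by rw [norm_pow, hζn, one_pow])
      linarith
  calc ‖ζ ^ 3 - 1‖ ≤ 4 * |2 * L| := hmain
    _ ≤ 4 * (44 * Real.log n / n) := by gcongr
    _ = 176 * (Real.log n / n) := by ring
    _ ≤ 200 * (Real.log n / n) := by
        gcongr
        norm_num
    _ = _ := by ring

theorem norm_cube_pos {n : ℕ} {c : ℂ} (h : n ∈ bad c) : 0 < ‖c ^ (3 * (n - 1)) - 1‖ := by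
  rw [norm_pos_iff, sub_ne_zero]
  intro h3
  exact h.2.2 (cube h.1 h3 h.2.1)

theorem eventually_small {δ : ℝ} (hδ : 0 < δ) :
    ∃ n₀ : ℕ, ∀ n : ℕ, n₀ ≤ n → 200 * Real.log n / n < δ := by
  have h1 : Tendsto (fun x : ℝ => Real.log x / x) atTop (𝓝 0) := by
    simpa using Real.isLittleO_log_id_atTop.tendsto_div_nhds_zero
  have h2 : Tendsto (fun n : ℕ => 200 * (Real.log n / n)) atTop (𝓝 (200 * 0)) :=
    (h1.comp tendsto_natCast_atTop_atTop).const_mul 200
  rw [mul_zero] at h2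
  obtain ⟨n₀, hn₀⟩ := eventually_atTop.mp (h2.eventually_lt_const hδ)
  exact ⟨n₀, fun n hn => by rw [mul_div_assoc]; exact hn₀ n hn⟩

theorem exists_lower (s : Finset ℕ) (f : ℕ → ℝ) (hf : ∀ i ∈ s, 0 < f i) :
    ∃ δ : ℝ, 0 < δ ∧ ∀ i ∈ s, δ ≤ f i := by
  rcases s.eq_empty_or_nonempty with h | h
  · subst h; exact ⟨1, one_pos, by simp⟩
  · obtain ⟨i, hi, hmin⟩ := s.exists_min_image f h
    exact ⟨f i, hf i hi, hmin⟩

/-- Off the unit circle and at roots of unity only finitely many degrees are exceptional. -/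
theorem bad_finite {c : ℂ} (h : ‖c‖ ≠ 1 ∨ ∃ k, 0 < k ∧ c ^ k = 1) : (bad c).Finite := by
  have key : ∀ δ : ℝ, 0 < δ → (∀ n ∈ bad c, δ ≤ 200 * Real.log n / n) → (bad c).Finite := by
    intro δ hδ hh
    obtain ⟨n₀, hn₀⟩ := eventually_small hδ
    apply (Set.finite_Iio n₀).subset
    intro n hn
    by_contra hcon
    rw [mem_Iio, not_lt] at hcon
    exact absurd (hn₀ n hcon) (not_lt.mpr (hh n hn))
  rcases h with h | ⟨k, hk, hck⟩
  · by_cases h0 : c = 0
    · apply Set.Finite.subset Set.finite_empty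
      intro n hn
      exact absurd h0 (ne_zero_of_bad hn)
    · apply key |Real.log ‖c‖|
      · rw [abs_pos]
        have h1 : 0 < ‖c‖ := norm_pos_iff.mpr h0
        intro h2
        rcases Real.log_eq_zero.mp h2 with h3 | h3 | h3 <;> [linarith; exact h h3; linarith]
      · exact fun n hn => log_norm_le hn
  · have hc1 : ‖c‖ = 1 := by
      have h1 : ‖c‖ ^ k = 1 := by rw [← norm_pow, hck, norm_one]
      exact (pow_eq_one_iff_of_nonneg (norm_nonneg c) (by omega)).mp h1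
    obtain ⟨δ, hδ, hδ2⟩ := exists_lower ((Finset.range k).filter (fun i => c ^ i ≠ 1))
      (fun i => ‖c ^ i - 1‖) (by
        intro i hi
        rw [Finset.mem_filter] at hi
        exact norm_pos_iff.mpr (sub_ne_zero.mpr hi.2))
    apply key δ hδ
    intro n hn
    refine le_trans ?_ (norm_cube_le hc1 hn)
    have h1 := norm_cube_pos hn
    rw [norm_pos_iff, sub_ne_zero] at h1
    rw [pow_eq_pow_mod _ hck] at h1 ⊢
    exact hδ2 _ (Finset.mem_filter.mpr ⟨Finset.mem_range.mpr (Nat.mod_lt _ hk), h1⟩)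

/-- The gaps between exceptional degrees tend to infinity. -/
theorem gaps (c : ℂ) (Q : ℕ) : {n | n ∈ bad c ∧ ∃ m ∈ bad c, n < m ∧ m ≤ n + Q}.Finite := by
  by_cases h : ‖c‖ ≠ 1 ∨ ∃ k, 0 < k ∧ c ^ k = 1
  · exact (bad_finite h).subset fun n hn => hn.1
  push Not at h
  obtain ⟨hc1, hroot⟩ := h
  obtain ⟨δ, hδ, hδ2⟩ := exists_lower (Finset.Icc 1 Q) (fun q => ‖c ^ (3 * q) - 1‖) (by
    intro q hq
    rw [Finset.mem_Icc] at hq
    exact norm_pos_iff.mpr (sub_ne_zero.mpr (hroot (3 * q) (by omega))))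
  obtain ⟨n₀, hn₀⟩ := eventually_small (half_pos hδ)
  apply (Set.finite_Iio n₀).subset
  rintro n ⟨hn, m, hm, hnm, hmQ⟩
  by_contra hcon
  rw [mem_Iio, not_lt] at hcon
  have h1 := norm_cube_le hc1 hn
  have h2 := norm_cube_le hc1 hm
  have h3 := hn₀ n hcon
  have h4 := hn₀ m (by omega)
  have h5 := hδ2 (m - n) (Finset.mem_Icc.mpr ⟨by omega, by omega⟩)
  have h6 : ‖c ^ (3 * (m - n)) - 1‖ = ‖(c ^ (3 * (m - 1)) - 1) - (c ^ (3 * (n - 1)) - 1)‖ := by
    have hn2 := hn.1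
    have h7 : (c ^ (3 * (m - 1)) - 1) - (c ^ (3 * (n - 1)) - 1)
        = c ^ (3 * (n - 1)) * (c ^ (3 * (m - n)) - 1) := by
      have : 3 * (m - 1) = 3 * (n - 1) + 3 * (m - n) := by omega
      rw [this, pow_add]; ring
    rw [h7, norm_mul, norm_pow, hc1, one_pow, one_mul]
  have h8 := norm_sub_le (c ^ (3 * (m - 1)) - 1) (c ^ (3 * (n - 1)) - 1)
  rw [← h6] at h8
  linarith

/-- The exceptional degrees have density zero. -/
theorem density (c : ℂ) :
    Tendsto (fun N : ℕ => ((bad c ∩ Iio N).ncard : ℝ) / N) atTop (𝓝 0) := by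
  have key : ∀ Q : ℕ, ∃ n₀ : ℕ, ∀ N : ℕ, (bad c ∩ Iio N).ncard ≤ n₀ + (N / (Q + 1) + 1) := by
    intro Q
    obtain ⟨n₀, hn₀⟩ := (gaps c Q).bddAbove
    refine ⟨n₀ + 1, fun N => ?_⟩
    have hsub : bad c ∩ Iio N ⊆ Iio (n₀ + 1) ∪ (bad c ∩ Ico (n₀ + 1) N) := by
      rintro n ⟨hn1, hn2⟩
      rcases lt_or_ge n (n₀ + 1) with h | h
      · exact Or.inl h
      · exact Or.inr ⟨hn1, h, hn2⟩
    have hfin : (bad c ∩ Ico (n₀ + 1) N).Finite := (finite_Ico _ _).subset inter_subset_right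
    have h1 : (bad c ∩ Iio N).ncard ≤ (Iio (n₀ + 1)).ncard + (bad c ∩ Ico (n₀ + 1) N).ncard :=
      (Set.ncard_le_ncard hsub ((finite_Iio _).union hfin)).trans (Set.ncard_union_le _ _)
    have h2 : (Iio (n₀ + 1) : Set ℕ).ncard = n₀ + 1 := by
      rw [← Finset.coe_Iio, Set.ncard_coe_finset, Nat.card_Iio]
    have h3 : (bad c ∩ Ico (n₀ + 1) N).ncard ≤ N / (Q + 1) + 1 := by
      have h4 : (Iio (N / (Q + 1) + 1) : Set ℕ).ncard = N / (Q + 1) + 1 := by
        rw [← Finset.coe_Iio, Set.ncard_coe_finset, Nat.card_Iio]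
      rw [← h4]
      apply Set.ncard_le_ncard_of_injOn (fun n => n / (Q + 1))
      · rintro n ⟨-, -, hn⟩
        rw [mem_Iio, Nat.lt_succ_iff]
        exact Nat.div_le_div_right (le_of_lt hn)
      · have hlt : ∀ n ∈ bad c ∩ Ico (n₀ + 1) N, ∀ m ∈ bad c ∩ Ico (n₀ + 1) N, n < m →
            n / (Q + 1) < m / (Q + 1) := by
          rintro n ⟨hn1, hn2, -⟩ m ⟨hm1, -, -⟩ hnm
          have h5 : n + (Q + 1) ≤ m := by
            by_contra hcon
            push Not at hcon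
            have := hn₀ (show n ∈ {n | n ∈ bad c ∧ ∃ m ∈ bad c, n < m ∧ m ≤ n + Q} from
              ⟨hn1, m, hm1, hnm, by omega⟩)
            omega
          calc n / (Q + 1) < n / (Q + 1) + 1 := Nat.lt_succ_self _
            _ = (n + (Q + 1)) / (Q + 1) := (Nat.add_div_right n (Nat.succ_pos Q)).symm
            _ ≤ m / (Q + 1) := Nat.div_le_div_right h5
        intro n hn m hm hnm
        simp only at hnm
        rcases lt_trichotomy n m with h | h | h
        · exact absurd hnm (hlt n hn m hm h).ne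
        · exact h
        · exact absurd hnm (hlt m hm n hn h).ne'
    omega
  rw [Metric.tendsto_atTop]
  intro ε hε
  obtain ⟨Q, hQ⟩ := exists_nat_one_div_lt (half_pos hε)
  obtain ⟨n₀, hn₀⟩ := key Q
  obtain ⟨N₀, hN₀⟩ := exists_nat_gt ((n₀ + 1 : ℝ) / (ε / 2))
  refine ⟨N₀ + 1, fun N hN => ?_⟩
  have hN0 : (0:ℝ) < N := by exact_mod_cast (by omega : 0 < N)
  rw [Real.dist_eq, sub_zero, abs_of_nonneg (by positivity), div_lt_iff₀ hN0]
  have h1 : ((bad c ∩ Iio N).ncard : ℝ) ≤ n₀ + ((N / (Q + 1) : ℕ) + 1) := by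
    exact_mod_cast hn₀ N
  have h2 : ((N / (Q + 1) : ℕ) : ℝ) ≤ N * (1 / ((Q:ℝ) + 1)) := by
    have := Nat.cast_div_le (α := ℝ) (m := N) (n := Q + 1)
    push_cast at this
    rw [mul_one_div]
    exact this
  have h3 : (N:ℝ) * (1 / ((Q:ℝ) + 1)) ≤ N * (ε / 2) := by gcongr
  have h4 : (N₀:ℝ) < N := by exact_mod_cast (by omega : N₀ < N)
  have h5 : (n₀ + 1 : ℝ) < N * (ε / 2) := by
    rw [div_lt_iff₀ (half_pos hε)] at hN₀
    exact hN₀.trans (by gcongr)
  linarith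

end Pool.Agent.H462R2.AD
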