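import Pool.Agent.H462R2.AD2

/-!
# Unicritical polynomials at almost every parameter of the unit circle
-/

set_option autoImplicit false
open Complex Metric Set Filter Topology MeasureTheory
open N62a1eb23

namespace Pool.Agent.H462R2.AD

/-- The angles `θ` with `exp (i m θ)` close to `1`. -/
def near (m : ℕ) (δ : ℝ) : Set ℝ := {θ | ‖exp (θ * I) ^ m - 1‖ ≤ δ}

theorem measurableSet_near (m : ℕ) (δ : ℝ) : MeasurableSet (near m δ) := by
  apply IsClosed.measurableSet
  apply isClosed_le _ continuous_const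
  fun_prop

theorem near_cover {m : ℕ} (hm : 0 < m) {δ θ : ℝ} (h : θ ∈ near m δ) {L : ℕ}
    (hL : θ ∈ Icc (-(L:ℝ)) L) :
    ∃ j ∈ Finset.Icc (-((m * L + 1 : ℕ) : ℤ)) ((m * L + 1 : ℕ) : ℤ),
      θ ∈ closedBall (2 * Real.pi * j / m) (Real.pi * δ / (2 * m)) := by
  have hm' : (0:ℝ) < m := by exact_mod_cast hm
  have hm1 : (1:ℝ) ≤ m := by exact_mod_cast hm
  have hpi := Real.pi_pos
  have hpi3 := Real.pi_gt_three
  set x : ℝ := m * θ / 2 with hx
  set j : ℤ := round (x / Real.pi) with hj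
  have h1 : |x / Real.pi - j| ≤ 1 / 2 := abs_sub_round _
  have h2 : |x - j * Real.pi| ≤ Real.pi / 2 := by
    have h3 : x - j * Real.pi = (x / Real.pi - j) * Real.pi := by field_simp
    rw [h3, abs_mul, abs_of_pos hpi]
    nlinarith
  have h4 : ‖exp (θ * I) ^ m - 1‖ = 2 * |Real.sin (x - j * Real.pi)| := by
    have h5 : exp (θ * I) ^ m = exp (I * ((m * θ : ℝ) : ℂ)) := by
      rw [← Complex.exp_nat_mul]
      congr 1
      push_cast
      ring
    rw [h5, Complex.norm_exp_I_mul_ofReal_sub_one, Real.sin_sub_int_mul_pi, abs_mul, abs_zpow]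
    simp only [norm_mul, Real.norm_eq_abs, abs_two, abs_neg, abs_one, one_zpow, one_mul]
    rw [hx]
  have h5 : 2 / Real.pi * |x - j * Real.pi| ≤ |Real.sin (x - j * Real.pi)| :=
    Real.mul_abs_le_abs_sin h2
  have h6 : |x - j * Real.pi| ≤ Real.pi * δ / 4 := by
    have h7 : 2 * |Real.sin (x - j * Real.pi)| ≤ δ := by rw [← h4]; exact h
    have h8 : 2 / Real.pi * |x - j * Real.pi| ≤ δ / 2 := by linarith
    calc |x - j * Real.pi| = (2 / Real.pi * |x - j * Real.pi|) * (Real.pi / 2) := by field_simp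
      _ ≤ δ / 2 * (Real.pi / 2) := by gcongr
      _ = _ := by ring
  refine ⟨j, ?_, ?_⟩
  · rw [Finset.mem_Icc, ← abs_le]
    have h7 : |(j:ℝ)| < ((m * L + 1 : ℕ) : ℝ) + 1 := by
      have h8 : |(j:ℝ)| ≤ |x / Real.pi| + 1 / 2 := by
        have h9 : (j:ℝ) = x / Real.pi - (x / Real.pi - j) := by ring
        calc |(j:ℝ)| = |x / Real.pi - (x / Real.pi - j)| := by rw [← h9]
          _ ≤ |x / Real.pi| + |x / Real.pi - j| := abs_sub _ _
          _ ≤ _ := by linarith
      have h9 : |x / Real.pi| ≤ m * L := by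
        rw [abs_div, abs_of_pos hpi, div_le_iff₀ hpi, hx, abs_div, abs_mul, abs_of_pos hm',
          abs_two]
        have h10 : |θ| ≤ L := abs_le.mpr hL
        have h11 : (m:ℝ) * |θ| ≤ m * L := by gcongr
        have h12 : 0 ≤ (m:ℝ) * L := by positivity
        nlinarith
      push_cast
      linarith
    have h8 : |j| < ((m * L + 1 : ℕ) : ℤ) + 1 := by exact_mod_cast h7
    omega
  · rw [mem_closedBall, Real.dist_eq]
    have h7 : θ - 2 * Real.pi * j / m = 2 / m * (x - j * Real.pi) := by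
      rw [hx]; field_simp
    rw [h7, abs_mul, abs_of_pos (by positivity)]
    calc 2 / (m:ℝ) * |x - j * Real.pi| ≤ 2 / m * (Real.pi * δ / 4) := by gcongr
      _ = _ := by field_simp; ring

theorem volume_near {m : ℕ} (hm : 0 < m) {δ : ℝ} (hδ : 0 ≤ δ) (L : ℕ) :
    volume (near m δ ∩ Icc (-(L:ℝ)) L) ≤ ENNReal.ofReal ((2 * L + 3) * Real.pi * δ) := by
  have hm' : (0:ℝ) < m := by exact_mod_cast hm
  have hm1 : (1:ℝ) ≤ m := by exact_mod_cast hm
  set s := Finset.Icc (-((m * L + 1 : ℕ) : ℤ)) ((m * L + 1 : ℕ) : ℤ) with hs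
  have h1 : near m δ ∩ Icc (-(L:ℝ)) L ⊆
      ⋃ j ∈ s, closedBall (2 * Real.pi * j / m) (Real.pi * δ / (2 * m)) := by
    rintro θ ⟨h2, h3⟩
    obtain ⟨j, hj, h4⟩ := near_cover hm h2 h3
    exact mem_biUnion hj h4
  have hcard : (s.card : ℝ) = 2 * (m * L) + 3 := by
    rw [hs, Int.card_Icc]
    have : (((m * L + 1 : ℕ) : ℤ) + 1 - -((m * L + 1 : ℕ) : ℤ)).toNat = 2 * (m * L) + 3 := by
      omega
    rw [this]; push_cast; ring
  calc volume (near m δ ∩ Icc (-(L:ℝ)) L)
      ≤ volume (⋃ j ∈ s, closedBall (2 * Real.pi * j / m) (Real.pi * δ / (2 * m))) :=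
        measure_mono h1
    _ ≤ ∑ j ∈ s, volume (closedBall (2 * Real.pi * j / m) (Real.pi * δ / (2 * m))) :=
        measure_biUnion_finset_le _ _
    _ = ∑ j ∈ s, ENNReal.ofReal (2 * (Real.pi * δ / (2 * m))) := by
        simp only [Real.volume_closedBall]
    _ = ENNReal.ofReal (s.card * (2 * (Real.pi * δ / (2 * m)))) := by
        rw [Finset.sum_const, nsmul_eq_mul, ← ENNReal.ofReal_natCast,
          ← ENNReal.ofReal_mul (by positivity)]
    _ ≤ ENNReal.ofReal ((2 * L + 3) * Real.pi * δ) := by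
        apply ENNReal.ofReal_le_ofReal
        rw [hcard]
        have h2 : (2 * ((m:ℝ) * L) + 3) * (2 * (Real.pi * δ / (2 * m)))
            = (2 * L + 3 / m) * (Real.pi * δ) := by field_simp
        rw [h2]
        have h3 : 3 / (m:ℝ) ≤ 3 := by rw [div_le_iff₀ hm']; linarith
        calc (2 * L + 3 / m) * (Real.pi * δ) ≤ (2 * L + 3) * (Real.pi * δ) := by gcongr
          _ = _ := by ring

theorem near_of_bad {n : ℕ} {θ : ℝ} (h : n ∈ bad (exp (θ * I))) :
    θ ∈ near (3 * (n - 1)) (200 * Real.log n / n) :=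
  norm_cube_le (Complex.norm_exp_ofReal_mul_I θ) h

/-- In each degree the exceptional set of the unit circle has small length. -/
theorem volume_bad {n : ℕ} (hn : 2 ≤ n) :
    volume {θ : ℝ | θ ∈ Icc 0 (2 * Real.pi) ∧ n ∈ bad (exp (θ * I))} ≤
      ENNReal.ofReal (12000 * Real.log n / n) := by
  have h1 : {θ : ℝ | θ ∈ Icc 0 (2 * Real.pi) ∧ n ∈ bad (exp (θ * I))} ⊆
      near (3 * (n - 1)) (200 * Real.log n / n) ∩ Icc (-((7:ℕ):ℝ)) (7:ℕ) := by
    rintro θ ⟨⟨h2, h3⟩, h4⟩
    have hpi := Real.pi_lt_d2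
    refine ⟨near_of_bad h4, ?_, ?_⟩
    · push_cast; linarith
    · push_cast; linarith
  have hl : 0 ≤ Real.log n := Real.log_nonneg (by exact_mod_cast (by omega : 1 ≤ n))
  refine (measure_mono h1).trans ((volume_near (by omega) (by positivity) 7).trans ?_)
  apply ENNReal.ofReal_le_ofReal
  have hpi := Real.pi_lt_d2
  have h2 : 0 ≤ 200 * Real.log n / n := by positivity
  calc (2 * ((7:ℕ):ℝ) + 3) * Real.pi * (200 * Real.log n / n)
      ≤ (2 * ((7:ℕ):ℝ) + 3) * 3.15 * (200 * Real.log n / n) := by gcongr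
    _ ≤ 60 * (200 * Real.log n / n) := by
        gcongr
        norm_num
    _ = _ := by ring

theorem summable_aux {p : ℝ} (hp : 1 < p) :
    Summable fun n : ℕ => 1 / ((n:ℝ) * (1 + Real.log n) ^ p) := by
  have hl : ∀ n : ℕ, 0 ≤ Real.log n := fun n => Real.log_natCast_nonneg n
  have hnn : ∀ n : ℕ, 0 ≤ 1 / ((n:ℝ) * (1 + Real.log n) ^ p) := fun n => by
    have := hl n
    positivity
  rw [← summable_condensed_iff_of_nonneg hnn]
  · have hlog2 := Real.log_two_gt_d9
    have hlog2' := Real.log_two_lt_d9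
    have h1 : Summable fun k : ℕ => (Real.log 2) ^ (-p) * ((k + 1 : ℕ) : ℝ) ^ (-p) := by
      apply Summable.mul_left
      exact (summable_nat_add_iff (f := fun k : ℕ => (k:ℝ) ^ (-p)) 1).mpr
        (Real.summable_nat_rpow.mpr (by linarith))
    refine Summable.of_nonneg_of_le (fun k => ?_) (fun k => ?_) h1
    · exact mul_nonneg (by positivity) (hnn _)
    · push_cast
      have h2 : (2:ℝ) ^ k * (1 / ((2:ℝ) ^ k * (1 + Real.log ((2:ℝ) ^ k)) ^ p))
          = (1 + k * Real.log 2) ^ (-p) := by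
        rw [Real.log_pow, Real.rpow_neg (by positivity)]
        field_simp
      rw [h2, ← Real.mul_rpow (by positivity) (by positivity)]
      apply Real.rpow_le_rpow_of_nonpos (by positivity) _ (by linarith)
      nlinarith
  · intro m n hm hmn
    have hm' : (0:ℝ) < m := by exact_mod_cast hm
    have hmn' : (m:ℝ) ≤ n := by exact_mod_cast hmn
    have h1 := Real.log_le_log hm' hmn'
    have := hl m
    gcongr

theorem ae_tsum {s : ℝ} (hs : 2 < s) :
    ∀ᵐ θ : ℝ, ∑' n : ℕ, (near (3 * (n + 1)) (200 * Real.log (n + 2 : ℕ) / (n + 2 : ℕ))).indicator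
      (fun _ => ENNReal.ofReal ((1 + Real.log (n + 2 : ℕ)) ^ (-s))) θ < ⊤ := by
  have key : ∀ L : ℕ, ∀ᵐ θ : ℝ, θ ∈ Icc (-(L:ℝ)) L →
      ∑' n : ℕ, (near (3 * (n + 1)) (200 * Real.log (n + 2 : ℕ) / (n + 2 : ℕ))).indicator
      (fun _ => ENNReal.ofReal ((1 + Real.log (n + 2 : ℕ)) ^ (-s))) θ < ⊤ := by
    intro L
    rw [← ae_restrict_iff' measurableSet_Icc]
    have hmeas : ∀ n : ℕ, Measurable
        ((near (3 * (n + 1)) (200 * Real.log (n + 2 : ℕ) / (n + 2 : ℕ))).indicator
        (fun _ => ENNReal.ofReal ((1 + Real.log (n + 2 : ℕ)) ^ (-s)))) := fun n =>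
      measurable_const.indicator (measurableSet_near _ _)
    apply ae_lt_top (Measurable.tsum hmeas)
    rw [lintegral_tsum fun n => (hmeas n).aemeasurable]
    have hl : ∀ n : ℕ, 0 ≤ Real.log n := fun n => Real.log_natCast_nonneg n
    have hbound : ∀ n : ℕ, ∫⁻ θ in Icc (-(L:ℝ)) L,
        (near (3 * (n + 1)) (200 * Real.log (n + 2 : ℕ) / (n + 2 : ℕ))).indicator
        (fun _ => ENNReal.ofReal ((1 + Real.log (n + 2 : ℕ)) ^ (-s))) θ ≤
        ENNReal.ofReal ((2 * L + 3) * Real.pi * 200 *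
          (1 / (((n + 2 : ℕ):ℝ) * (1 + Real.log (n + 2 : ℕ)) ^ (s - 1)))) := by
      intro n
      have h0 := hl (n + 2)
      rw [lintegral_indicator_const (measurableSet_near _ _),
        Measure.restrict_apply (measurableSet_near _ _)]
      calc ENNReal.ofReal ((1 + Real.log (n + 2 : ℕ)) ^ (-s)) *
            volume (near (3 * (n + 1)) (200 * Real.log (n + 2 : ℕ) / (n + 2 : ℕ)) ∩
              Icc (-(L:ℝ)) L)
          ≤ ENNReal.ofReal ((1 + Real.log (n + 2 : ℕ)) ^ (-s)) *
            ENNReal.ofReal ((2 * L + 3) * Real.pi *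
              (200 * Real.log (n + 2 : ℕ) / (n + 2 : ℕ))) := by
            gcongr
            exact volume_near (by omega) (by positivity) L
        _ = ENNReal.ofReal ((1 + Real.log (n + 2 : ℕ)) ^ (-s) * ((2 * L + 3) * Real.pi *
              (200 * Real.log (n + 2 : ℕ) / (n + 2 : ℕ)))) :=
            (ENNReal.ofReal_mul (by positivity)).symm
        _ ≤ _ := by
            apply ENNReal.ofReal_le_ofReal
            have h1 : (1 + Real.log (n + 2 : ℕ)) ^ (-s) * Real.log (n + 2 : ℕ)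
                ≤ 1 / (1 + Real.log (n + 2 : ℕ)) ^ (s - 1) := by
              have h2 : (1 + Real.log (n + 2 : ℕ)) ^ (-s) * (1 + Real.log (n + 2 : ℕ))
                  = 1 / (1 + Real.log (n + 2 : ℕ)) ^ (s - 1) := by
                have h3 : 0 < 1 + Real.log (n + 2 : ℕ) := by linarith
                rw [one_div, ← Real.rpow_neg h3.le, ← Real.rpow_add_one h3.ne']
                congr 1
                ring
              rw [← h2]
              gcongr
              linarith
            have h4 : (0:ℝ) < ((n + 2 : ℕ) : ℝ) := by positivity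
            calc (1 + Real.log (n + 2 : ℕ)) ^ (-s) * ((2 * L + 3) * Real.pi *
                  (200 * Real.log (n + 2 : ℕ) / (n + 2 : ℕ)))
                = ((2 * L + 3) * Real.pi * 200 / (n + 2 : ℕ)) *
                  ((1 + Real.log (n + 2 : ℕ)) ^ (-s) * Real.log (n + 2 : ℕ)) := by ring
              _ ≤ ((2 * L + 3) * Real.pi * 200 / (n + 2 : ℕ)) *
                  (1 / (1 + Real.log (n + 2 : ℕ)) ^ (s - 1)) := by gcongr
              _ = _ := by
                  have h5 : (0:ℝ) < (1 + Real.log (n + 2 : ℕ)) ^ (s - 1) := by positivity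
                  field_simp
    have hsum : Summable fun n : ℕ => (2 * L + 3) * Real.pi * 200 *
          (1 / (((n + 2 : ℕ):ℝ) * (1 + Real.log (n + 2 : ℕ)) ^ (s - 1))) :=
      ((summable_nat_add_iff (f := fun n : ℕ => 1 / ((n:ℝ) * (1 + Real.log n) ^ (s - 1))) 2).mpr
        (summable_aux (by linarith))).mul_left _
    refine ne_top_of_le_ne_top ?_ (ENNReal.tsum_le_tsum hbound)
    exact hsum.tsum_ofReal_ne_top
  have key2 := ae_all_iff.mpr key
  filter_upwards [key2] with θ hθ
  obtain ⟨L, hL⟩ := exists_nat_ge |θ|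
  exact hθ L (abs_le.mp hL)

/-- At almost every parameter of the unit circle the number of exceptional degrees up to `N` is at
most a constant times `(log N) ^ s`, for every `s > 2`. -/
theorem ae_count {s : ℝ} (hs : 2 < s) :
    ∀ᵐ θ : ℝ, ∃ K : ℝ, ∀ N : ℕ, 2 ≤ N →
      ((bad (exp (θ * I)) ∩ Iic N).ncard : ℝ) ≤ K * Real.log N ^ s := by
  filter_upwards [ae_tsum hs] with θ hθ
  set F := ∑' n : ℕ, (near (3 * (n + 1)) (200 * Real.log (n + 2 : ℕ) / (n + 2 : ℕ))).indicator
      (fun _ => ENNReal.ofReal ((1 + Real.log (n + 2 : ℕ)) ^ (-s))) θ with hF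
  refine ⟨F.toReal * 3 ^ s, fun N hN => ?_⟩
  have hfin : (bad (exp (θ * I)) ∩ Iic N).Finite := (finite_Iic N).subset inter_subset_right
  set T := hfin.toFinset.image (fun n => n - 2) with hT
  have hmemT : ∀ n ∈ T, n + 2 ∈ bad (exp (θ * I)) ∧ n + 2 ≤ N := by
    intro n hn
    rw [hT, Finset.mem_image] at hn
    obtain ⟨m, hm, rfl⟩ := hn
    rw [Set.Finite.mem_toFinset] at hm
    have h2 := hm.1.1
    rw [Nat.sub_add_cancel h2]
    exact ⟨hm.1, hm.2⟩
  have hcard : (bad (exp (θ * I)) ∩ Iic N).ncard = T.card := by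
    rw [Set.ncard_eq_toFinset_card _ hfin, hT, Finset.card_image_of_injOn]
    intro a ha b hb hab
    simp only [Set.Finite.coe_toFinset] at ha hb
    have h1 := ha.1.1
    have h2 := hb.1.1
    simp only at hab
    omega
  have hl2 := Real.log_two_gt_d9
  have hlN := log_two_le hN
  have hpos : 0 < 1 + Real.log N := by linarith
  have h1 : ENNReal.ofReal (T.card * (1 + Real.log N) ^ (-s)) ≤ F := by
    calc ENNReal.ofReal (T.card * (1 + Real.log N) ^ (-s))
        = ∑ n ∈ T, ENNReal.ofReal ((1 + Real.log N) ^ (-s)) := by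
          rw [Finset.sum_const, nsmul_eq_mul, ← ENNReal.ofReal_natCast,
            ← ENNReal.ofReal_mul (by positivity)]
      _ ≤ ∑ n ∈ T, (near (3 * (n + 1)) (200 * Real.log (n + 2 : ℕ) / (n + 2 : ℕ))).indicator
            (fun _ => ENNReal.ofReal ((1 + Real.log (n + 2 : ℕ)) ^ (-s))) θ := by
          apply Finset.sum_le_sum
          intro n hn
          obtain ⟨h2, h3⟩ := hmemT n hn
          have h4 := near_of_bad h2
          rw [show n + 2 - 1 = n + 1 by omega] at h4
          rw [Set.indicator_of_mem h4]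
          apply ENNReal.ofReal_le_ofReal
          apply Real.rpow_le_rpow_of_nonpos _ _ (by linarith)
          · have := Real.log_natCast_nonneg (n + 2)
            linarith
          · have h5 : Real.log (n + 2 : ℕ) ≤ Real.log N :=
              Real.log_le_log (by positivity) (by exact_mod_cast h3)
            linarith
      _ ≤ F := ENNReal.sum_le_tsum _
  have h2 : (T.card : ℝ) * (1 + Real.log N) ^ (-s) ≤ F.toReal := by
    rw [← ENNReal.ofReal_le_iff_le_toReal hθ.ne]
    exact h1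
  rw [hcard]
  have h3 : (T.card : ℝ) ≤ F.toReal * (1 + Real.log N) ^ s := by
    have h4 : (1 + Real.log N) ^ (-s) * (1 + Real.log N) ^ s = 1 := by
      rw [← Real.rpow_add hpos]; simp
    calc (T.card : ℝ) = (T.card : ℝ) * (1 + Real.log N) ^ (-s) * (1 + Real.log N) ^ s := by
          rw [mul_assoc, h4, mul_one]
      _ ≤ F.toReal * (1 + Real.log N) ^ s := by gcongr
  have h5 : (1 + Real.log N) ^ s ≤ 3 ^ s * Real.log N ^ s := by
    rw [← Real.mul_rpow (by norm_num) (by linarith)]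
    apply Real.rpow_le_rpow hpos.le _ (by linarith)
    linarith
  calc (T.card : ℝ) ≤ F.toReal * (1 + Real.log N) ^ s := h3
    _ ≤ F.toReal * (3 ^ s * Real.log N ^ s) := by gcongr
    _ = _ := by ring

end Pool.Agent.H462R2.AD
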