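import Pool.Agent.H462R2.AP3
import Pool.Agent.H762R2.RtD

/-!
# Maps `P(z ^ n) / Q(z ^ n)`: almost all `n`
-/

set_option autoImplicit false

open Set Filter Topology

namespace Pool.Agent.H462R2.AP

open Pool.Agent.H762R2.Rt

theorem good_of_ne {p q B m : ℝ} {x y : ℂ} (hp : p = ‖x‖) (hq : q = ‖y‖) (hB : 0 < B)
    (hpB : p ≤ B) (hqB : q ≤ B) (hm : m ≤ |p - q|) : Good (m / B) x y := by
  have hp0 : 0 ≤ p := hp ▸ norm_nonneg _
  have hq0 : 0 ≤ q := hq ▸ norm_nonneg _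
  have h1 : 1 - m / B ≤ Real.exp (-(m / B)) := by
    have := Real.add_one_le_exp (-(m / B)); linarith
  have key : ∀ a b : ℝ, 0 ≤ b → b ≤ B → 0 ≤ m → m ≤ b - a → a ≤ Real.exp (-(m / B)) * b := by
    intro a b hb hbB hm0 hab
    have h2 : (1 - m / B) * b ≤ Real.exp (-(m / B)) * b := mul_le_mul_of_nonneg_right h1 hb
    have h3 : m / B * b ≤ m := by
      rw [div_mul_eq_mul_div, div_le_iff₀ hB]
      exact mul_le_mul_of_nonneg_left hbB hm0
    linarith
  unfold Good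
  rw [← hp, ← hq]
  rcases le_or_gt 0 m with hm0 | hm0
  · rcases abs_cases (p - q) with ⟨h2, -⟩ | ⟨h2, -⟩
    · exact Or.inr (key q p hp0 hpB hm0 (by linarith))
    · exact Or.inl (key p q hq0 hqB hm0 (by linarith))
  · have h2 : 1 ≤ Real.exp (-(m / B)) := by
      apply Real.one_le_exp
      have : m / B ≤ 0 := div_nonpos_of_nonpos_of_nonneg hm0.le hB.le
      linarith
    rcases le_total p q with h3 | h3
    · exact Or.inl (h3.trans (by nlinarith))
    · exact Or.inr (h3.trans (by nlinarith))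

theorem good_of_compact (P Q : Polynomial ℂ) {K : Set ℂ} (hK : IsCompact K)
    (h : ∀ u ∈ K, ‖P.eval u‖ ≠ ‖Q.eval u‖) :
    ∃ η : ℝ, 0 < η ∧ ∀ u ∈ K, Good η (P.eval u) (Q.eval u) := by
  rcases K.eq_empty_or_nonempty with h0 | h0
  · subst h0; exact ⟨1, one_pos, by simp⟩
  obtain ⟨u₀, hu₀, hmin⟩ := hK.exists_isMinOn h0
    (f := fun u : ℂ => |‖P.eval u‖ - ‖Q.eval u‖|) (by fun_prop)
  obtain ⟨B, hB⟩ := hK.exists_bound_of_continuousOn
    (f := fun u : ℂ => max ‖P.eval u‖ ‖Q.eval u‖) (by fun_prop)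
  have hm : 0 < |‖P.eval u₀‖ - ‖Q.eval u₀‖| := abs_pos.2 (sub_ne_zero.2 (h u₀ hu₀))
  refine ⟨|‖P.eval u₀‖ - ‖Q.eval u₀‖| / (|B| + 1), by positivity, fun u hu => ?_⟩
  have h1 : max ‖P.eval u‖ ‖Q.eval u‖ ≤ |B| + 1 := by
    have h2 := hB u hu
    rw [Real.norm_eq_abs] at h2
    have h3 := le_abs_self (max ‖P.eval u‖ ‖Q.eval u‖)
    have h4 := le_abs_self B
    linarith
  exact good_of_ne rfl rfl (by positivity) ((le_max_left _ _).trans h1)
    ((le_max_right _ _).trans h1) (hmin hu)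

theorem good_of_finite {M : Set (ℂ × ℂ)} (hM : M.Finite) (h : ∀ x ∈ M, ‖x.1‖ ≠ ‖x.2‖) :
    ∃ η : ℝ, 0 < η ∧ ∀ x ∈ M, Good η x.1 x.2 := by
  induction M, hM using Set.Finite.induction_on with
  | empty => exact ⟨1, one_pos, by simp⟩
  | @insert a M _ _ ih =>
    obtain ⟨η, hη, h1⟩ := ih fun x hx => h x (Or.inr hx)
    have h2 := h a (Or.inl rfl)
    have hm : 0 < |‖a.1‖ - ‖a.2‖| := abs_pos.2 (sub_ne_zero.2 h2)
    set B := ‖a.1‖ + ‖a.2‖ + 1 with hB
    have ha1 := norm_nonneg a.1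
    have ha2 := norm_nonneg a.2
    have hB0 : 0 < B := by linarith
    refine ⟨min η (|‖a.1‖ - ‖a.2‖| / B), lt_min hη (by positivity), ?_⟩
    rintro x (rfl | hx)
    · exact (good_of_ne rfl rfl hB0 (by linarith) (by linarith) le_rfl).mono (min_le_right _ _)
    · exact (h1 x hx).mono (min_le_left _ _)

/-- The points of the unit circle where `|P| = |Q|`. -/
def eqSet (P Q : Polynomial ℂ) : Set ℂ := {u | ‖u‖ = 1 ∧ ‖P.eval u‖ = ‖Q.eval u‖}

theorem conj_eval {P : Polynomial ℂ} {D : ℕ} (hP : P.natDegree ≤ D) {u : ℂ} (hu : ‖u‖ = 1) :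
    (∑ k ∈ Finset.range (D + 1), Polynomial.C ((starRingEnd ℂ) (P.coeff k)) *
      Polynomial.X ^ (D - k)).eval u = u ^ D * (starRingEnd ℂ) (P.eval u) := by
  rw [Polynomial.eval_eq_sum_range' (Nat.lt_succ_of_le hP), map_sum, Finset.mul_sum,
    Polynomial.eval_finsetSum]
  refine Finset.sum_congr rfl fun k hk => ?_
  have hk' : k ≤ D := Nat.lt_succ_iff.1 (Finset.mem_range.1 hk)
  have huu : u * (starRingEnd ℂ) u = 1 := by
    rw [Complex.mul_conj, Complex.normSq_eq_norm_sq, hu]; simp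
  simp only [Polynomial.eval_mul, Polynomial.eval_C, Polynomial.eval_pow, Polynomial.eval_X,
    map_mul, map_pow]
  have h1 : u ^ D = u ^ (D - k) * u ^ k := by rw [← pow_add]; congr 1; omega
  have h2 : u ^ k * (starRingEnd ℂ) u ^ k = 1 := by rw [← mul_pow, huu, one_pow]
  rw [h1]
  calc (starRingEnd ℂ) (P.coeff k) * u ^ (D - k)
      = (starRingEnd ℂ) (P.coeff k) * u ^ (D - k) * (u ^ k * (starRingEnd ℂ) u ^ k) := by
        rw [h2, mul_one]
    _ = _ := by ring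

theorem eqSet_finite {P Q : Polynomial ℂ} (h : ∃ u : ℂ, ‖u‖ = 1 ∧ ‖P.eval u‖ ≠ ‖Q.eval u‖) :
    (eqSet P Q).Finite := by
  set D := max P.natDegree Q.natDegree with hD
  set G : Polynomial ℂ :=
    P * (∑ k ∈ Finset.range (D + 1), Polynomial.C ((starRingEnd ℂ) (P.coeff k)) *
      Polynomial.X ^ (D - k)) -
    Q * (∑ k ∈ Finset.range (D + 1), Polynomial.C ((starRingEnd ℂ) (Q.coeff k)) *
      Polynomial.X ^ (D - k)) with hG
  have hev : ∀ u : ℂ, ‖u‖ = 1 → G.eval u = u ^ D * ((‖P.eval u‖ ^ 2 - ‖Q.eval u‖ ^ 2 : ℝ) : ℂ) := by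
    intro u hu
    have h1 : ∀ z : ℂ, z * (starRingEnd ℂ) z = ((‖z‖ ^ 2 : ℝ) : ℂ) := by
      intro z; rw [Complex.mul_conj, Complex.normSq_eq_norm_sq]
    rw [hG, Polynomial.eval_sub, Polynomial.eval_mul, Polynomial.eval_mul,
      conj_eval (le_max_left _ _) hu, conj_eval (le_max_right _ _) hu]
    push_cast
    have h2 := h1 (P.eval u)
    have h3 := h1 (Q.eval u)
    push_cast at h2 h3
    rw [← h2, ← h3]
    ring
  have hG0 : G ≠ 0 := by
    intro h0
    obtain ⟨u, hu, hne⟩ := h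
    have h1 := hev u hu
    rw [h0, Polynomial.eval_zero] at h1
    have hu0 : u ^ D ≠ 0 := by
      apply pow_ne_zero
      intro h; rw [h, norm_zero] at hu; norm_num at hu
    have h2 : ((‖P.eval u‖ ^ 2 - ‖Q.eval u‖ ^ 2 : ℝ) : ℂ) = 0 :=
      (mul_eq_zero.1 h1.symm).resolve_left hu0
    have h3 : ‖P.eval u‖ ^ 2 = ‖Q.eval u‖ ^ 2 := by
      have : ‖P.eval u‖ ^ 2 - ‖Q.eval u‖ ^ 2 = 0 := by exact_mod_cast h2
      linarith
    exact hne ((pow_left_inj₀ (norm_nonneg _) (norm_nonneg _) two_ne_zero).1 h3)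
  refine (Multiset.toFinset G.roots).finite_toSet.subset ?_
  rintro u ⟨hu, heq⟩
  rw [Finset.mem_coe, Multiset.mem_toFinset, Polynomial.mem_roots hG0, Polynomial.IsRoot.def,
    hev u hu, heq, sub_self, Complex.ofReal_zero, mul_zero]

/-- A set with gaps larger than `L` is sparse. -/
theorem card_gap {S : Set ℕ} {L : ℕ} (N : ℕ)
    (hS : ∀ n ∈ S, ∀ m ∈ S, n < m → n + L < m) [DecidablePred (· ∈ S)] :
    ((Finset.range N).filter (· ∈ S)).card ≤ N / (L + 1) + 1 := by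
  rw [← Finset.card_range (N / (L + 1) + 1)]
  apply Finset.card_le_card_of_injOn (fun n => n / (L + 1))
  · intro n hn
    simp only [Finset.coe_filter, Finset.mem_range, Set.mem_ofPred_eq] at hn
    rw [Finset.mem_coe, Finset.mem_range, Nat.lt_succ_iff]
    exact Nat.div_le_div_right hn.1.le
  · have hlt : ∀ n ∈ S, ∀ m ∈ S, n < m → n / (L + 1) < m / (L + 1) := by
      intro n hn m hm hnm
      have h5 : n + (L + 1) ≤ m := by have := hS n hn m hm hnm; omega
      calc n / (L + 1) < n / (L + 1) + 1 := Nat.lt_succ_self _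
        _ = (n + (L + 1)) / (L + 1) := (Nat.add_div_right n (Nat.succ_pos L)).symm
        _ ≤ m / (L + 1) := Nat.div_le_div_right h5
    intro n hn m hm hnm
    simp only [Finset.coe_filter, Finset.mem_range, Set.mem_ofPred_eq] at hn hm
    simp only at hnm
    rcases lt_trichotomy n m with h | h | h
    · exact absurd hnm (hlt n hn.2 m hm.2 h).ne
    · exact h
    · exact absurd hnm (hlt m hm.2 n hn.2 h).ne'

/-- The returns of a point of the unit circle which is not a root of unity are sparse. -/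
theorem gap_of_not_root {v : ℂ} (hv : ‖v‖ = 1) (hroot : ∀ k, 0 < k → v ^ k ≠ 1) (L : ℕ) :
    ∃ δ : ℝ, 0 < δ ∧ ∀ w : ℂ, ∀ n ∈ {n : ℕ | ‖v ^ n - w‖ < δ}, ∀ m ∈ {n : ℕ | ‖v ^ n - w‖ < δ},
      n < m → n + L < m := by
  have hex : ∃ δ : ℝ, 0 < δ ∧ ∀ k ∈ Finset.Icc 1 L, δ ≤ ‖v ^ k - 1‖ := by
    rcases (Finset.Icc 1 L).eq_empty_or_nonempty with h | h
    · rw [h]; exact ⟨1, one_pos, by simp⟩
    · obtain ⟨i, hi, hmin⟩ := (Finset.Icc 1 L).exists_min_image (fun k => ‖v ^ k - 1‖) h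
      rw [Finset.mem_Icc] at hi
      exact ⟨_, norm_pos_iff.2 (sub_ne_zero.2 (hroot i (by omega))), hmin⟩
  obtain ⟨δ, hδ, h1⟩ := hex
  refine ⟨δ / 2, by positivity, ?_⟩
  intro w n hn m hm hnm
  by_contra hcon
  push Not at hcon
  have h2 := h1 (m - n) (Finset.mem_Icc.2 ⟨by omega, by omega⟩)
  have h3 : ‖v ^ (m - n) - 1‖ = ‖(v ^ m - w) - (v ^ n - w)‖ := by
    have h4 : (v ^ m - w) - (v ^ n - w) = v ^ n * (v ^ (m - n) - 1) := by
      have : m = n + (m - n) := by omega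
      conv_lhs => rw [this, pow_add]
      ring
    rw [h4, norm_mul, norm_pow, hv, one_pow, one_mul]
  have h5 := norm_sub_le (v ^ m - w) (v ^ n - w)
  rw [Set.mem_ofPred_eq] at hn hm
  linarith

/-- The marked pairs: `(P, Q)` at `0`, at `∞` and at the critical points. -/
def marks' (P Q : Polynomial ℂ) (D : ℕ) : Set (ℂ × ℂ) :=
  {(P.eval 0, Q.eval 0), (P.coeff D, Q.coeff D)} ∪
    (fun y => (P.eval y, Q.eval y)) '' {y | (wro P Q).eval y = 0}

theorem marks'_finite {P Q : Polynomial ℂ} (hc : IsCoprime P Q) {D : ℕ}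
    (hD1 : 1 ≤ max P.natDegree Q.natDegree) : (marks' P Q D).Finite := by
  apply Set.Finite.union (by simp)
  apply Set.Finite.image
  have hw := wro_ne_zero hc hD1
  refine (Multiset.toFinset (wro P Q).roots).finite_toSet.subset ?_
  intro y hy
  rw [Finset.mem_coe, Multiset.mem_toFinset, Polynomial.mem_roots hw]
  exact hy

/-- If no marked value is a root of unity and `|P / Q|` is not identically `1` on the unit circle
then `P(z ^ n) / Q(z ^ n)` is hyperbolic for all `n` outside a set of density zero. -/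
theorem density_hyp {P Q : Polynomial ℂ} (hc : IsCoprime P Q) {D : ℕ}
    (hD : D = max P.natDegree Q.natDegree) (hD1 : 1 ≤ D)
    (hne : ∃ u : ℂ, ‖u‖ = 1 ∧ ‖P.eval u‖ ≠ ‖Q.eval u‖)
    (hroot : ∀ x ∈ marks' P Q D, ∀ k : ℕ, 0 < k → x.1 ^ k ≠ x.2 ^ k) :
    Tendsto (fun N : ℕ => ((({n : ℕ | 2 ≤ n ∧ ¬ Hyp (Polynomial.expand ℂ n P)
      (Polynomial.expand ℂ n Q)} ∩ Iio N).ncard : ℕ) : ℝ) / N) atTop (𝓝 0) := by
  classical
  set Bad : Set ℕ := {n : ℕ | 2 ≤ n ∧ ¬ Hyp (Polynomial.expand ℂ n P) (Polynomial.expand ℂ n Q)}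
    with hBad
  have hMfin : (marks' P Q D).Finite := marks'_finite hc (hD ▸ hD1)
  have hFfin : (eqSet P Q).Finite := eqSet_finite hne
  set J : Finset ((ℂ × ℂ) × ℂ) := hMfin.toFinset ×ˢ hFfin.toFinset with hJ
  -- marked values on the circle
  have hcirc : ∀ x ∈ marks' P Q D, ‖x.1‖ = ‖x.2‖ → ‖x.1 / x.2‖ = 1 ∧
      ∀ k : ℕ, 0 < k → (x.1 / x.2) ^ k ≠ 1 := by
    intro x hx heq
    have hx2 : x.2 ≠ 0 := by
      intro h0
      have h1 : x.1 = 0 := by rw [h0, norm_zero] at heq; exact norm_eq_zero.1 heq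
      have := hroot x hx 1 one_pos
      rw [h0, h1] at this
      exact this rfl
    refine ⟨?_, ?_⟩
    · rw [norm_div, heq, div_self (norm_ne_zero_iff.2 hx2)]
    · intro k hk h1
      rw [div_pow, div_eq_one_iff_eq (pow_ne_zero _ hx2)] at h1
      exact hroot x hx k hk h1
  have key : ∀ L : ℕ, ∃ n₀ : ℕ, ∀ N : ℕ,
      (Bad ∩ Iio N).ncard ≤ n₀ + J.card * (N / (L + 1) + 1) := by
    intro L
    -- a common gap constant
    have hδ : ∃ δ : ℝ, 0 < δ ∧ ∀ x ∈ marks' P Q D, ‖x.1‖ = ‖x.2‖ → ∀ w : ℂ,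
        ∀ n ∈ {n : ℕ | ‖(x.1 / x.2) ^ n - w‖ < δ}, ∀ m ∈ {n : ℕ | ‖(x.1 / x.2) ^ n - w‖ < δ},
        n < m → n + L < m := by
      have hgen : ∀ M : Set (ℂ × ℂ), M.Finite → M ⊆ marks' P Q D →
          ∃ δ : ℝ, 0 < δ ∧ ∀ x ∈ M, ‖x.1‖ = ‖x.2‖ → ∀ w : ℂ,
          ∀ n ∈ {n : ℕ | ‖(x.1 / x.2) ^ n - w‖ < δ}, ∀ m ∈ {n : ℕ | ‖(x.1 / x.2) ^ n - w‖ < δ},
          n < m → n + L < m := by
        intro M hM
        induction M, hM using Set.Finite.induction_on with
        | empty => exact fun _ => ⟨1, one_pos, by simp⟩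
        | @insert a M _ _ ih =>
          intro hsub
          obtain ⟨δ, hδ, h1⟩ := ih fun x hx => hsub (Or.inr hx)
          by_cases hanorm : ‖a.1‖ = ‖a.2‖
          · obtain ⟨h2, h3⟩ := hcirc a (hsub (Or.inl rfl)) hanorm
            obtain ⟨δ', hδ', h4⟩ := gap_of_not_root h2 h3 L
            refine ⟨min δ δ', lt_min hδ hδ', ?_⟩
            rintro x (rfl | hx) hxe w n hn m hm hnm
            · rw [Set.mem_ofPred_eq] at hn hm
              exact h4 w n (hn.trans_le (min_le_right _ _)) m (hm.trans_le (min_le_right _ _)) hnm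
            · rw [Set.mem_ofPred_eq] at hn hm
              exact h1 x hx hxe w n (hn.trans_le (min_le_left _ _)) m
                (hm.trans_le (min_le_left _ _)) hnm
          · refine ⟨δ, hδ, ?_⟩
            rintro x (rfl | hx) hxe
            · exact absurd hxe hanorm
            · exact h1 x hx hxe
      exact hgen _ hMfin Subset.rfl
    obtain ⟨δ, hδ0, hδ⟩ := hδ
    -- the constants
    obtain ⟨η₁, hη₁, hg₁⟩ := good_of_finite (M := {x ∈ marks' P Q D | ‖x.1‖ ≠ ‖x.2‖})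
      (hMfin.subset fun x hx => hx.1) (fun x hx => hx.2)
    have hK : IsCompact {u : ℂ | ‖u‖ = 1 ∧ ∀ w ∈ eqSet P Q, δ ≤ ‖u - w‖} := by
      apply (isCompact_sphere (0 : ℂ) 1).of_isClosed_subset
      · have h1 : {u : ℂ | ‖u‖ = 1 ∧ ∀ w ∈ eqSet P Q, δ ≤ ‖u - w‖} =
            {u : ℂ | ‖u‖ = 1} ∩ ⋂ w ∈ eqSet P Q, {u : ℂ | δ ≤ ‖u - w‖} := by
          ext u; simp
        rw [h1]
        apply (isClosed_eq continuous_norm continuous_const).inter
        apply isClosed_biInter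
        intro w _
        exact isClosed_le continuous_const (by fun_prop)
      · intro u hu
        simpa using hu.1
    obtain ⟨η₂, hη₂, hg₂⟩ := good_of_compact P Q hK (by
      rintro u ⟨hu1, hu2⟩ heq
      have := hu2 u ⟨hu1, heq⟩
      rw [sub_self, norm_zero] at this
      linarith)
    obtain ⟨n₀, hn₀⟩ := hyp_of_cond hc hD hD1 (lt_min hη₁ hη₂)
    refine ⟨n₀, fun N => ?_⟩
    set S : (ℂ × ℂ) × ℂ → Set ℕ := fun j =>
      {n | ‖j.1.1‖ = ‖j.1.2‖ ∧ ‖(j.1.1 / j.1.2) ^ n - j.2‖ < δ} with hS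
    -- the inclusion
    have hincl : ∀ n, n₀ ≤ n → n ∈ Bad → ∃ j ∈ J, n ∈ S j := by
      intro n hn hbad
      by_contra hcon
      push Not at hcon
      have hcond : ∀ x ∈ marks' P Q D, Cond P Q (min η₁ η₂) n x.1 x.2 := by
        intro x hx
        by_cases heq : ‖x.1‖ = ‖x.2‖
        · right
          refine ⟨heq, ?_⟩
          obtain ⟨h1, -⟩ := hcirc x hx heq
          refine (hg₂ ((x.1 / x.2) ^ n) ⟨by rw [norm_pow, h1, one_pow], ?_⟩).mono (min_le_right _ _)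
          intro w hw
          have h2 := hcon (x, w) (Finset.mem_product.2
            ⟨hMfin.mem_toFinset.2 hx, hFfin.mem_toFinset.2 hw⟩)
          rw [hS, Set.mem_ofPred_eq] at h2
          push Not at h2
          exact h2 heq
        · left
          exact (hg₁ x ⟨hx, heq⟩).mono (min_le_left _ _)
      apply hbad.2
      apply hn₀ n hn
      · intro i
        cases i
        · rw [cp_false, cp_false]
          exact hcond (P.eval 0, Q.eval 0) (Or.inl (Or.inl rfl))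
        · rw [eval_cp_true_zero, eval_cp_true_zero]
          exact hcond (P.coeff D, Q.coeff D) (Or.inl (Or.inr rfl))
      · intro y hy
        exact hcond (P.eval y, Q.eval y) (Or.inr ⟨y, hy, rfl⟩)
    have h1 : Bad ∩ Iio N ⊆ ↑(Finset.range n₀ ∪
        J.biUnion fun j => (Finset.range N).filter (· ∈ S j)) := by
      rintro n ⟨hn1, hn2⟩
      rw [Finset.coe_union]
      rcases lt_or_ge n n₀ with h | h
      · left; simpa using h
      · right
        obtain ⟨j, hj, hnj⟩ := hincl n h hn1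
        rw [Finset.mem_coe, Finset.mem_biUnion]
        exact ⟨j, hj, Finset.mem_filter.2 ⟨Finset.mem_range.2 hn2, hnj⟩⟩
    have h2 : (Bad ∩ Iio N).ncard ≤ (Finset.range n₀ ∪
        J.biUnion fun j => (Finset.range N).filter (· ∈ S j)).card := by
      rw [← Set.ncard_coe_finset]
      exact Set.ncard_le_ncard h1 (Finset.finite_toSet _)
    refine h2.trans ((Finset.card_union_le _ _).trans ?_)
    rw [Finset.card_range]
    apply Nat.add_le_add_left
    apply Finset.card_biUnion_le_card_mul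
    intro j hj
    apply card_gap
    intro n hn m hm hnm
    exact hδ j.1 (hMfin.mem_toFinset.1 (Finset.mem_product.1 hj).1) hn.1 j.2 n hn.2 m hm.2 hnm
  -- the limit
  rw [Metric.tendsto_atTop]
  intro ε hε
  set c : ℝ := ((J.card : ℕ) : ℝ) with hcdef
  have hc0 : 0 ≤ c := Nat.cast_nonneg _
  obtain ⟨L, hL⟩ := exists_nat_gt (2 * c / ε)
  obtain ⟨n₀, hn₀⟩ := key L
  obtain ⟨N₀, hN₀⟩ := exists_nat_gt ((n₀ + c) / (ε / 2))
  refine ⟨N₀ + 1, fun N hN => ?_⟩
  have hN0 : (0:ℝ) < N := by exact_mod_cast (by omega : 0 < N)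
  rw [Real.dist_eq, sub_zero, abs_of_nonneg (by positivity), div_lt_iff₀ hN0]
  have h1 : ((Bad ∩ Iio N).ncard : ℝ) ≤ n₀ + c * ((N / (L + 1) : ℕ) + 1) := by
    rw [hcdef]
    exact_mod_cast hn₀ N
  have hL1 : (0:ℝ) < (L:ℝ) + 1 := by positivity
  have h2 : ((N / (L + 1) : ℕ) : ℝ) ≤ N / ((L:ℝ) + 1) := by
    have := Nat.cast_div_le (α := ℝ) (m := N) (n := L + 1)
    push_cast at this
    exact this
  have h3 : c * (N / ((L:ℝ) + 1)) ≤ N * (ε / 2) := by
    rw [div_lt_iff₀ hε] at hL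
    rw [mul_div_assoc', div_le_iff₀ hL1]
    nlinarith
  have h4 : (N₀:ℝ) < N := by exact_mod_cast (by omega : N₀ < N)
  have h5 : (n₀ + c : ℝ) < N * (ε / 2) := by
    rw [div_lt_iff₀ (half_pos hε)] at hN₀
    exact hN₀.trans (by gcongr)
  have h6 : c * ((N / (L + 1) : ℕ) : ℝ) ≤ c * (N / ((L:ℝ) + 1)) :=
    mul_le_mul_of_nonneg_left h2 hc0
  nlinarith

end Pool.Agent.H462R2.AP
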