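import Pool.Agent.H462R2.AD1
import Pool.Agent.H462R2.AP4

/-!
# Unicritical polynomials in the coordinate `ζ = c ^ (n - 1)`: dynamics
-/

set_option autoImplicit false
open Complex Metric Set Filter Topology
open N62a1eb23

namespace Pool.Agent.H462R2.AE

open Pool.Agent.H712R2 Pool.Agent.H713R2 Pool.Agent.H713R2.AR
open Pool.Agent.H749R2.Hyp (P1 P2 low1 low2' Att2 t_le_two z2_le not_mem_of_gt att_zero
  fixed_of_contr norm_cn)
open Pool.Agent.H462R2.AD (hyp)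

/-- The normal form `y ↦ 1 + ζ y ^ n`. -/
def g (n : ℕ) (ζ : ℂ) : ℂ → ℂ := fun y => 1 + ζ * y ^ n

theorem differentiable_g (n : ℕ) (ζ : ℂ) : Differentiable ℂ (g n ζ) := by
  unfold g; fun_prop

theorem hasDerivAt_g (n : ℕ) (ζ y : ℂ) : HasDerivAt (g n ζ) (ζ * (n * y ^ (n - 1))) y :=
  ((hasDerivAt_pow n y).const_mul ζ).const_add 1

theorem pow_n {n : ℕ} (hn : 2 ≤ n) (c : ℂ) : c ^ n = c * c ^ (n - 1) := by
  conv_lhs => rw [show n = (n - 1) + 1 by omega]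
  rw [pow_succ]; ring

theorem conj_g {n : ℕ} (hn : 2 ≤ n) {c ζ : ℂ} (hc : c ^ (n - 1) = ζ) (k : ℕ) (y : ℂ) :
    (fun z => z ^ n + c)^[k] (c * y) = c * (g n ζ)^[k] y := by
  induction k generalizing y with
  | zero => rfl
  | succ k ih =>
    rw [Function.iterate_succ_apply, Function.iterate_succ_apply]
    have : (c * y) ^ n + c = c * g n ζ y := by
      rw [mul_pow, pow_n hn c, hc]; unfold g; ring
    rw [this, ih]

theorem P_eq {n : ℕ} (hn : 2 ≤ n) {c ζ : ℂ} (hc : c ^ (n - 1) = ζ) (k : ℕ) :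
    P n k c = c * (g n ζ)^[k] 0 := by
  have := conj_g hn hc k 0
  rw [mul_zero] at this
  exact this

theorem att_of_g {n : ℕ} (hn : 2 ≤ n) {c ζ : ℂ} (hc : c ^ (n - 1) = ζ) (hc0 : c ≠ 0) {m : ℕ}
    (hm : 0 < m) {y : ℂ} (hy : (g n ζ)^[m] y = y) (hd : ‖deriv (g n ζ)^[m] y‖ < 1) :
    c ∈ hyp n := by
  refine ⟨m, c * y, hm, ?_, ?_, ?_⟩
  · show (fun z => z ^ n + c)^[m] (c * y) = c * y
    rw [conj_g hn hc, hy]
  · exact ((by fun_prop : Differentiable ℂ (fun z : ℂ => z ^ n + c)).iterate m) _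
  · have h1 : (fun z => z ^ n + c)^[m] = fun z => c * (g n ζ)^[m] (c⁻¹ * z) := by
      funext z
      rw [← conj_g hn hc, mul_inv_cancel_left₀ hc0]
    have h2 : HasDerivAt (g n ζ)^[m] (deriv (g n ζ)^[m] y) (c⁻¹ * (c * y)) := by
      rw [inv_mul_cancel_left₀ hc0]
      exact (((differentiable_g n ζ).iterate m) y).hasDerivAt
    have h3 : HasDerivAt (fun z : ℂ => c⁻¹ * z) (c⁻¹ * 1) (c * y) := (hasDerivAt_id _).const_mul c⁻¹
    have h4 := (h2.comp (c * y) h3).const_mul c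
    rw [h1]
    have h5 : deriv (fun z => c * (g n ζ)^[m] (c⁻¹ * z)) (c * y) = deriv (g n ζ)^[m] y := by
      have := h4.deriv
      simp only [Function.comp_def] at this
      rw [this]
      field_simp
    rw [h5]
    exact hd

theorem pow_lip' {x y : ℂ} {n : ℕ} (hn : 1 ≤ n) (hx : ‖x‖ ≤ 1 + 1 / n) (hy : ‖y‖ ≤ 1 + 1 / n) :
    ‖x ^ n - y ^ n‖ ≤ 3 * n * ‖x - y‖ := by
  have hn0 : (0:ℝ) < n := by exact_mod_cast hn
  refine (Pool.Agent.H762R2.Rt.pow_lip hx hy n).trans ?_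
  have h3 : (1 + 1 / (n:ℝ)) ^ (n - 1) ≤ 3 := by
    have := Pool.Agent.H749R2.Hyp.one_add_div_pow_le (n := n) (θ := 1) hn zero_le_one
      (Nat.sub_le n 1)
    have he : Real.exp 1 < 2.7182818286 := Real.exp_one_lt_d9
    linarith
  have : (n : ℝ) * (1 + 1 / (n : ℝ)) ^ (n - 1) ≤ n * 3 := by gcongr
  calc (n : ℝ) * (1 + 1 / (n : ℝ)) ^ (n - 1) * ‖x - y‖ ≤ n * 3 * ‖x - y‖ := by gcongr
    _ = _ := by ring

theorem pow_pred_le {n : ℕ} (hn : 1 ≤ n) {x : ℂ} (hx : ‖x‖ ≤ 1 + 1 / n) :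
    ‖x‖ ^ (n - 1) ≤ 3 := by
  have := Pool.Agent.H749R2.Hyp.one_add_div_pow_le (n := n) (θ := 1) hn zero_le_one (Nat.sub_le n 1)
  have he : Real.exp 1 < 2.7182818286 := Real.exp_one_lt_d9
  have h2 : ‖x‖ ^ (n - 1) ≤ (1 + 1 / (n:ℝ)) ^ (n - 1) :=
    pow_le_pow_left₀ (norm_nonneg _) hx _
  linarith

/-- Attracting cycles of period three. -/
theorem att3 {ζ : ℂ} (h1 : ‖1 + ζ‖ = 1) {δ : ℝ} (hδ : 0 < δ) :
    ∃ n₀ : ℕ, ∀ n : ℕ, n₀ ≤ n → ‖1 + ζ * (1 + ζ) ^ n‖ ≤ 1 - δ →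
      ∃ y : ℂ, (g n ζ)^[3] y = y ∧ ‖deriv (g n ζ)^[3] y‖ < 1 := by
  rcases lt_or_ge 1 δ with hδ1 | hδ1
  · refine ⟨0, fun n _ h => ?_⟩
    have := norm_nonneg (1 + ζ * (1 + ζ) ^ n)
    linarith
  set s := ‖ζ‖ with hs
  have hs0 : 0 ≤ s := norm_nonneg _
  set q : ℝ := 1 - δ / 2 with hq
  have hq0 : 0 < q := by rw [hq]; linarith
  have hq1 : q < 1 := by rw [hq]; linarith
  have hT : ∀ k : ℕ, Tendsto (fun n : ℕ => (n : ℝ) ^ k * q ^ (n - 1)) atTop (𝓝 0) := by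
    intro k
    have h2 := (tendsto_pow_const_mul_const_pow_of_lt_one k hq0.le hq1).const_mul q⁻¹
    rw [mul_zero] at h2
    refine h2.congr' ?_
    filter_upwards [eventually_ge_atTop 1] with n hn
    obtain ⟨m, rfl⟩ : ∃ m, n = m + 1 := ⟨n - 1, by omega⟩
    rw [Nat.add_sub_cancel, pow_succ q m]
    field_simp
  have hT1 := ((hT 4).const_mul s).eventually_le_const (u := 1) (by rw [mul_zero]; norm_num)
  have hT2 := ((hT 3).const_mul (9 * s ^ 3)).eventually_le_const (u := 1 / 2)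
    (by rw [mul_zero]; norm_num)
  have hN : ∀ K : ℝ, ∀ᶠ n : ℕ in atTop, K ≤ n := fun K =>
    tendsto_natCast_atTop_atTop.eventually_ge_atTop K
  obtain ⟨n₀, hn₀⟩ := eventually_atTop.1 (hT1.and (hT2.and ((hN (3 * s)).and
    ((hN (18 * s ^ 2 / δ)).and (hN 2)))))
  refine ⟨n₀, fun n hn hy₀ => ?_⟩
  obtain ⟨c1, c2, c3, c4, c5⟩ := hn₀ n hn
  have hn1 : 1 ≤ n := by
    have : (1:ℝ) ≤ n := by linarith
    exact_mod_cast this
  have hn0 : (0:ℝ) < n := by linarith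
  set ε : ℝ := 1 / (n:ℝ) ^ 4 with hε
  have hε0 : 0 < ε := by positivity
  have hεn : ε ≤ 1 / n := by
    rw [hε]
    apply one_div_le_one_div_of_le hn0
    calc (n:ℝ) = n ^ 1 := (pow_one _).symm
      _ ≤ n ^ 4 := pow_le_pow_right₀ (by linarith) (by norm_num)
  -- the three balls
  have b0 : ∀ y ∈ closedBall (1:ℂ) ε, ‖y‖ ≤ 1 + 1 / n := by
    intro y hy
    rw [mem_closedBall, dist_eq_norm] at hy
    have := norm_sub_norm_le y 1
    rw [norm_one] at this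
    linarith
  have b1' : ∀ y ∈ closedBall (1:ℂ) ε, ‖g n ζ y - (1 + ζ)‖ ≤ 3 * n * s * ε := by
    intro y hy
    have h2 : g n ζ y - (1 + ζ) = ζ * (y ^ n - 1 ^ n) := by unfold g; ring
    rw [h2, norm_mul]
    have h3 := pow_lip' hn1 (b0 y hy) (y := 1) (by
      rw [norm_one]
      have : 0 ≤ 1 / (n:ℝ) := by positivity
      linarith)
    rw [mem_closedBall, dist_eq_norm] at hy
    calc ‖ζ‖ * ‖y ^ n - 1 ^ n‖ ≤ s * (3 * n * ‖y - 1‖) := by gcongr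
      _ ≤ s * (3 * n * ε) := by gcongr
      _ = _ := by ring
  have hsmall1 : 3 * n * s * ε ≤ 1 / n := by
    have h4 : 3 * n * s * ε = 3 * s / n ^ 3 := by rw [hε]; field_simp
    rw [h4, div_le_div_iff₀ (by positivity) hn0]
    have h5 : (n:ℝ) * n ≤ n ^ 3 := by
      have : (n:ℝ) ^ 2 ≤ n ^ 3 := pow_le_pow_right₀ (by linarith) (by norm_num)
      nlinarith
    nlinarith
  have b1 : ∀ y ∈ closedBall (1:ℂ) ε, ‖g n ζ y‖ ≤ 1 + 1 / n := by
    intro y hy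
    have h2 := b1' y hy
    have h3 := norm_sub_norm_le (g n ζ y) (1 + ζ)
    linarith
  have b2' : ∀ y ∈ closedBall (1:ℂ) ε, ‖g n ζ (g n ζ y) - (1 + ζ * (1 + ζ) ^ n)‖ ≤ δ / 2 := by
    intro y hy
    have h2 : g n ζ (g n ζ y) - (1 + ζ * (1 + ζ) ^ n) = ζ * ((g n ζ y) ^ n - (1 + ζ) ^ n) := by
      conv_lhs => unfold g
      unfold g
      ring
    rw [h2, norm_mul]
    have h3 := pow_lip' hn1 (b1 y hy) (y := 1 + ζ) (by
      rw [h1]
      have : 0 ≤ 1 / (n:ℝ) := by positivity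
      linarith)
    calc ‖ζ‖ * ‖(g n ζ y) ^ n - (1 + ζ) ^ n‖ ≤ s * (3 * n * ‖g n ζ y - (1 + ζ)‖) := by gcongr
      _ ≤ s * (3 * n * (3 * n * s * ε)) := by gcongr; exact b1' y hy
      _ = 9 * s ^ 2 / n ^ 2 := by rw [hε]; field_simp; ring
      _ ≤ δ / 2 := by
        rw [div_le_div_iff₀ (by positivity) (by norm_num)]
        rw [div_le_iff₀ hδ] at c4
        have : (n:ℝ) ≤ n ^ 2 := by nlinarith
        nlinarith
  have b2 : ∀ y ∈ closedBall (1:ℂ) ε, ‖g n ζ (g n ζ y)‖ ≤ q := by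
    intro y hy
    have h2 := b2' y hy
    have h3 := norm_sub_norm_le (g n ζ (g n ζ y)) (1 + ζ * (1 + ζ) ^ n)
    rw [hq]
    linarith
  have hit : (g n ζ)^[3] = fun y => g n ζ (g n ζ (g n ζ y)) := by
    funext y; rfl
  have hmaps : MapsTo (g n ζ)^[3] (closedBall 1 ε) (closedBall 1 ε) := by
    intro y hy
    rw [hit, mem_closedBall, dist_eq_norm]
    have h2 : g n ζ (g n ζ (g n ζ y)) - 1 = ζ * (g n ζ (g n ζ y)) ^ n := by
      conv_lhs => rw [show g n ζ (g n ζ (g n ζ y)) = 1 + ζ * (g n ζ (g n ζ y)) ^ n from rfl]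
      ring
    simp only
    rw [h2, norm_mul, norm_pow]
    have h3 : q ^ n ≤ q ^ (n - 1) := pow_le_pow_of_le_one hq0.le hq1.le (Nat.sub_le n 1)
    calc ‖ζ‖ * ‖g n ζ (g n ζ y)‖ ^ n ≤ s * q ^ n := by gcongr; exact b2 y hy
      _ ≤ s * q ^ (n - 1) := by gcongr
      _ = (s * (n ^ 4 * q ^ (n - 1))) * ε := by rw [hε]; field_simp
      _ ≤ 1 * ε := by gcongr
      _ = ε := one_mul _
  have hder : ∀ y ∈ closedBall (1:ℂ) ε, ‖deriv (g n ζ)^[3] y‖ ≤ 1 / 2 := by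
    intro y hy
    have h2 := (hasDerivAt_g n ζ (g n ζ (g n ζ y))).comp y
      ((hasDerivAt_g n ζ (g n ζ y)).comp y (hasDerivAt_g n ζ y))
    have h3 : deriv (g n ζ)^[3] y = ζ * (n * (g n ζ (g n ζ y)) ^ (n - 1)) *
        (ζ * (n * (g n ζ y) ^ (n - 1)) * (ζ * (n * y ^ (n - 1)))) := by
      rw [hit]
      exact h2.deriv
    rw [h3]
    simp only [norm_mul, norm_pow, norm_natCast]
    calc ‖ζ‖ * (n * ‖g n ζ (g n ζ y)‖ ^ (n - 1)) * (‖ζ‖ * (n * ‖g n ζ y‖ ^ (n - 1)) *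
          (‖ζ‖ * (n * ‖y‖ ^ (n - 1))))
        ≤ s * (n * q ^ (n - 1)) * (s * (n * 3) * (s * (n * 3))) := by
          gcongr
          · exact b2 y hy
          · exact pow_pred_le hn1 (b1 y hy)
          · exact pow_pred_le hn1 (b0 y hy)
      _ = 9 * s ^ 3 * (n ^ 3 * q ^ (n - 1)) := by ring
      _ ≤ 1 / 2 := c2
  obtain ⟨z, -, hz1, hz2⟩ := fixed_of_contr hε0.le (by norm_num) (by norm_num : (1:ℝ) / 2 < 1)
    ((differentiable_g n ζ).iterate 3) hmaps hder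
  exact ⟨z, hz1, hz2⟩

end Pool.Agent.H462R2.AE
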