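import Pool.Agent.H462R2.AE1
import Pool.Agent.H462R2.AD2

/-!
# Unicritical polynomials in the coordinate `ζ = c ^ (n - 1)`: the exceptional degrees
-/

set_option autoImplicit false
open Complex Metric Set Filter Topology
open N62a1eb23

namespace Pool.Agent.H462R2.AE

open Pool.Agent.H712R2 Pool.Agent.H713R2 Pool.Agent.H713R2.AR
open Pool.Agent.H749R2.Hyp (P1 P2 low1 low2' Att2 t_le_two z2_le not_mem_of_gt att_zero
  fixed_of_contr norm_cn)
open Pool.Agent.H462R2.AD (hyp not_att)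

/-- If the critical orbit of `c` stays on one circle then `c` is a limit of parameters with an
attracting cycle. -/
theorem misiurewicz' {n : ℕ} (hn : 2 ≤ n) {c : ℂ} {s : ℝ} (hs : 3 ≤ n * s)
    (h : ∀ k, 1 ≤ k → ‖P n k c‖ ≤ 2 ∧ ‖P n k c‖ ^ (n - 1) = s) :
    c ∈ closure (hyp n) := by
  by_contra hcl
  rw [Metric.mem_closure_iff] at hcl
  push Not at hcl
  obtain ⟨r, hr, hr2⟩ := hcl
  have hcM : c ∈ multibrotSet n := by
    rw [mem_multibrot_iff hn]
    intro k
    rcases Nat.eq_zero_or_pos k with h0 | h0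
    · subst h0; rw [P_zero, norm_zero]; norm_num
    · exact (h k h0).1
  have hsub := ball_subset hn hr hcM (by
    intro c' hc' hh
    have := hr2 c' hh
    rw [mem_ball, dist_comm] at hc'
    linarith)
  have hder : ∀ k, ‖deriv (P n k) c‖ ≤ 2 / (r / 2) := by
    intro k
    apply Complex.norm_deriv_le_of_forall_mem_sphere_norm_le (by positivity)
    · exact (differentiable_P n k).diffContOnCl
    · intro z hz
      have hz' : z ∈ ball c r := by
        rw [mem_sphere] at hz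
        rw [mem_ball, hz]; linarith
      exact (mem_multibrot_iff hn z).mp (hsub hz') k
  have hgrow : ∀ k : ℕ, ((k + 1 : ℕ) : ℝ) ≤ ‖deriv (P n (k + 1)) c‖ := by
    intro k
    induction k with
    | zero =>
      have : P n (0 + 1) = fun c => c := by
        funext x; exact P_one hn x
      rw [this]
      simp
    | succ k ih =>
      have h1 : P n (k + 1 + 1) = fun c => (P n (k + 1) c) ^ n + c := by
        funext x; exact P_succ n (k + 1) x
      have h2 : HasDerivAt (P n (k + 1 + 1))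
          (n * (P n (k + 1) c) ^ (n - 1) * deriv (P n (k + 1)) c + 1) c := by
        rw [h1]
        exact (((differentiable_P n (k + 1)) c).hasDerivAt.fun_pow n).add (hasDerivAt_id c)
      rw [h2.deriv]
      have h3 := norm_sub_le (n * (P n (k + 1) c) ^ (n - 1) * deriv (P n (k + 1)) c + 1) 1
      rw [add_sub_cancel_right, norm_mul, norm_mul, norm_pow, (h (k + 1) (by omega)).2,
        norm_one, Complex.norm_natCast] at h3
      have hk : (0:ℝ) ≤ k := by positivity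
      push_cast at ih ⊢
      nlinarith
  obtain ⟨k, hk⟩ := exists_nat_gt (2 / (r / 2))
  have h1 := hder (k + 1)
  have h2 := hgrow k
  push_cast at h2
  linarith

theorem g0 {n : ℕ} (hn : 2 ≤ n) (ζ : ℂ) : g n ζ 0 = 1 := by
  unfold g; rw [zero_pow (by omega)]; ring

theorem g1 (n : ℕ) (ζ : ℂ) : g n ζ 1 = 1 + ζ := by
  unfold g; rw [one_pow, mul_one]

theorem escape {n : ℕ} (hn : 2 ≤ n) {c ζ : ℂ} (hc : c ^ (n - 1) = ζ) {k : ℕ}
    (h1 : 1 ≤ ‖(g n ζ)^[k] 0‖) (h2 : 2 < ‖ζ‖ * ‖(g n ζ)^[k] 0‖ ^ (n - 1)) :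
    c ∉ multibrotSet n := by
  refine not_mem_of_gt hn (c := c) (z := c * (g n ζ)^[k] 0) (k := k) ?_ ?_ ?_
  · exact P_eq hn hc k
  · rw [norm_mul]
    exact le_mul_of_one_le_right (norm_nonneg _) h1
  · rw [norm_mul, mul_pow, ← norm_pow c, hc]
    exact h2

/-- The degrees in which density of hyperbolicity fails at a parameter with `c ^ (n - 1) = ζ`. -/
def bad (ζ : ℂ) : Set ℕ :=
  {n | 2 ≤ n ∧ ∃ c : ℂ, c ^ (n - 1) = ζ ∧ c ∈ multibrotSet n ∧ c ∉ closure (hyp n)}

theorem tendsto_pow_big {a s : ℝ} (ha : 1 < a) (hs : 0 < s) :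
    ∀ᶠ n : ℕ in atTop, 2 < s * a ^ (n - 1) := by
  have h1 : Tendsto (fun n : ℕ => s * a ^ (n - 1)) atTop atTop :=
    ((tendsto_pow_atTop_atTop_of_one_lt ha).comp (tendsto_sub_atTop_nat 1)).const_mul_atTop hs
  exact h1.eventually_gt_atTop 2

theorem zero_bad : bad 0 = ∅ := by
  ext n
  simp only [mem_empty_iff_false, iff_false]
  rintro ⟨hn, c, hc, -, hcl⟩
  have hc0 : c = 0 := by
    have := pow_eq_zero_iff (n := n - 1) (a := c) (by omega)
    exact this.1 hc
  subst hc0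
  exact not_att hcl (att_zero hn)

theorem finite_off {ζ : ℂ} (h : ‖1 + ζ‖ ≠ 1) : (bad ζ).Finite := by
  by_cases hζ : ζ = 0
  · subst hζ; rw [zero_bad]; exact finite_empty
  have hs : 0 < ‖ζ‖ := norm_pos_iff.2 hζ
  rcases lt_or_gt_of_ne h with h1 | h1
  · set a := ‖1 + ζ‖ with ha
    have ha0 : 0 ≤ a := norm_nonneg _
    set q := (1 + a) / 2 with hq
    have hq0 : 0 < q := by rw [hq]; linarith
    have hq1 : q < 1 := by rw [hq]; linarith
    have hT : Tendsto (fun n : ℕ => ‖ζ‖ ^ 2 * ((n : ℝ) ^ 2 * q ^ (n - 1))) atTop (𝓝 0) := by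
      have h2 := (tendsto_pow_const_mul_const_pow_of_lt_one 2 hq0.le hq1).const_mul q⁻¹
      rw [mul_zero] at h2
      have h3 : Tendsto (fun n : ℕ => (n : ℝ) ^ 2 * q ^ (n - 1)) atTop (𝓝 0) := by
        refine h2.congr' ?_
        filter_upwards [eventually_ge_atTop 1] with n hn
        obtain ⟨m, rfl⟩ : ∃ m, n = m + 1 := ⟨n - 1, by omega⟩
        rw [Nat.add_sub_cancel, pow_succ q m]
        field_simp
      simpa using h3.const_mul (‖ζ‖ ^ 2)
    have hN : ∀ᶠ n : ℕ in atTop, 4 / (1 - a) + 1 ≤ (n : ℝ) :=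
      tendsto_natCast_atTop_atTop.eventually_ge_atTop _
    obtain ⟨n₀, hn₀⟩ := eventually_atTop.1 ((hT.eventually_lt_const
      (u := 1 / 8) (by norm_num)).and hN)
    apply (finite_Iio n₀).subset
    rintro n ⟨hn, c, hc, hM, hcl⟩
    by_contra hcon
    rw [mem_Iio, not_lt] at hcon
    obtain ⟨h2, h3⟩ := hn₀ n hcon
    have h4 := low2' hn (not_att hcl)
    rw [← norm_pow, hc] at h4
    have hn0 : (0:ℝ) < n := by exact_mod_cast (by omega : 0 < n)
    have h5 : a + 2 / n ≤ q := by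
      have h1a : 0 < 1 - a := by linarith
      have h6 : 4 / (1 - a) ≤ n := by linarith
      rw [div_le_iff₀ h1a] at h6
      have h7 : 2 / (n:ℝ) ≤ (1 - a) / 2 := by
        rw [div_le_div_iff₀ hn0 (by norm_num)]; linarith
      rw [hq]; linarith
    have h6 : (n * ‖ζ‖) ^ 2 * (a + 2 / n) ^ (n - 1) ≤ (n * ‖ζ‖) ^ 2 * q ^ (n - 1) := by
      gcongr
    have h7 : (n * ‖ζ‖) ^ 2 * q ^ (n - 1) = ‖ζ‖ ^ 2 * ((n : ℝ) ^ 2 * q ^ (n - 1)) := by ring
    linarith
  · obtain ⟨n₀, hn₀⟩ := eventually_atTop.1 (tendsto_pow_big h1 hs)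
    apply (finite_Iio n₀).subset
    rintro n ⟨hn, c, hc, hM, hcl⟩
    by_contra hcon
    rw [mem_Iio, not_lt] at hcon
    have h2 := z2_le hn hM
    rw [← norm_pow, hc] at h2
    have := hn₀ n hcon
    linarith

/-- The size of the third image. -/
theorem third {β b : ℂ} (hβ : ‖β‖ = 1) (hb : ‖b‖ = 1) :
    |‖1 + (β - 1) * b‖ ^ 2 - 1| = ‖β - 1‖ * (‖b - 1‖ * ‖β * b + 1‖) := by
  have hc : ∀ z : ℂ, ‖z‖ = 1 → z * (starRingEnd ℂ) z = 1 := by
    intro z hz
    rw [mul_conj, normSq_eq_norm_sq, hz]; simp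
  have h1 := hc β hβ
  have h2 := hc b hb
  have h3 : ((‖1 + (β - 1) * b‖ ^ 2 - 1 : ℝ) : ℂ) * (β * b) = (β - 1) * ((b - 1) * (β * b + 1)) := by
    have h4 : ((‖1 + (β - 1) * b‖ ^ 2 : ℝ) : ℂ) =
        (1 + (β - 1) * b) * (starRingEnd ℂ) (1 + (β - 1) * b) := by
      rw [mul_conj, normSq_eq_norm_sq]
    rw [ofReal_sub, h4]
    simp only [map_add, map_mul, map_sub, map_one, ofReal_one]
    set β' := (starRingEnd ℂ) β
    set b' := (starRingEnd ℂ) b
    linear_combination ((1 + b * (β - 1)) * (b * b')) * h1 + ((1 + b * (β - 1)) * (1 - β)) * h2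
  have h5 := congrArg norm h3
  rw [norm_mul, norm_mul, norm_mul, norm_mul, hβ, hb, Complex.norm_real, Real.norm_eq_abs] at h5
  linarith

end Pool.Agent.H462R2.AE
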