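import Pool.Agent.H462R2.AE2

/-!
# Unicritical polynomials in the coordinate `ζ = c ^ (n - 1)`: gaps and density
-/

set_option autoImplicit false
open Complex Metric Set Filter Topology
open N62a1eb23

namespace Pool.Agent.H462R2.AE

open Pool.Agent.H712R2 Pool.Agent.H713R2 Pool.Agent.H713R2.AR
open Pool.Agent.H749R2.Hyp (P1 P2 low1 low2' Att2 t_le_two z2_le not_mem_of_gt att_zero
  fixed_of_contr norm_cn)
open Pool.Agent.H462R2.AD (hyp not_att exists_lower)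

theorem g_iter1 {n : ℕ} (hn : 2 ≤ n) (ζ : ℂ) : (g n ζ)^[1] 0 = 1 := g0 hn ζ

theorem g_iter2 {n : ℕ} (hn : 2 ≤ n) (ζ : ℂ) : (g n ζ)^[2] 0 = 1 + ζ := by
  rw [Function.iterate_succ_apply', g_iter1 hn, g1]

theorem g_iter3 {n : ℕ} (hn : 2 ≤ n) (ζ : ℂ) : (g n ζ)^[3] 0 = 1 + ζ * (1 + ζ) ^ n := by
  rw [Function.iterate_succ_apply', g_iter2 hn]; rfl

/-- If `β ^ n = 1` then the critical orbit lands on a fixed point. -/
theorem case_one {n : ℕ} {c ζ : ℂ} (hn : 2 ≤ n) (hc : c ^ (n - 1) = ζ) (h1 : ‖1 + ζ‖ = 1)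
    (hs : 3 ≤ n * ‖ζ‖) (hM : c ∈ multibrotSet n) (hβ : (1 + ζ) ^ n = 1) :
    c ∈ closure (hyp n) := by
  have hfix : ∀ k, (g n ζ)^[k + 2] 0 = 1 + ζ := by
    intro k
    induction k with
    | zero => exact g_iter2 hn ζ
    | succ k ih =>
      rw [show k + 1 + 2 = (k + 2) + 1 by ring, Function.iterate_succ_apply', ih]
      unfold g
      rw [hβ, mul_one]
  apply misiurewicz' hn hs
  intro k hk
  refine ⟨(mem_multibrot_iff hn c).mp hM k, ?_⟩
  rw [P_eq hn hc, norm_mul]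
  have h2 : ‖(g n ζ)^[k] 0‖ = 1 := by
    rcases Nat.lt_or_ge k 2 with h | h
    · have : k = 1 := by omega
      subst this
      rw [g_iter1 hn, norm_one]
    · obtain ⟨j, rfl⟩ := Nat.exists_eq_add_of_le h
      rw [add_comm 2 j, hfix j, h1]
  rw [h2, mul_one, ← norm_pow, hc]

theorem norm_four {β : ℂ} (hβ : ‖β‖ = 1) : ‖1 + β - β ^ 2‖ ^ 2 = 1 + 4 * β.im ^ 2 := by
  have h1 : β.re * β.re + β.im * β.im = 1 := by
    rw [← normSq_apply, normSq_eq_norm_sq, hβ]; norm_num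
  rw [← normSq_eq_norm_sq, normSq_apply]
  simp only [sub_re, add_re, one_re, sub_im, add_im, one_im, pow_two, mul_re, mul_im]
  linear_combination (β.im ^ 2 + β.re ^ 2 - 2 * β.re) * h1

theorem real_unit {β : ℂ} (hβ : ‖β‖ = 1) (him : β.im = 0) (h1 : β ≠ 1) : β = -1 := by
  have h2 : β.re * β.re + β.im * β.im = 1 := by
    rw [← normSq_apply, normSq_eq_norm_sq, hβ]; norm_num
  rw [him, mul_zero, add_zero] at h2
  rcases mul_self_eq_one_iff.1 h2 with h3 | h3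
  · exact absurd (Complex.ext (by rw [h3, one_re]) (by rw [him, one_im])) h1
  · exact Complex.ext (by rw [h3]; simp) (by rw [him]; simp)

/-- The exceptional degrees are those for which `β ^ n` is close to one of two values. -/
theorem bad_small {ζ : ℂ} (h1 : ‖1 + ζ‖ = 1) (hζ : ζ ≠ 0) {ε : ℝ} (hε : 0 < ε) :
    ∃ n₀ : ℕ, ∀ n, n₀ ≤ n → n ∈ bad ζ →
      (1 + ζ) ^ n ≠ 1 ∧ (1 + ζ) ^ (n + 1) ≠ -1 ∧
      ‖(1 + ζ) ^ n - 1‖ * ‖(1 + ζ) ^ (n + 1) + 1‖ < ε := by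
  have hs : 0 < ‖ζ‖ := norm_pos_iff.2 hζ
  set δ : ℝ := min 1 (ε * ‖ζ‖ / 4) with hδ
  have hδ0 : 0 < δ := lt_min one_pos (by positivity)
  have hδ1 : δ ≤ 1 := min_le_left _ _
  have hδ2 : δ ≤ ε * ‖ζ‖ / 4 := min_le_right _ _
  obtain ⟨n₁, hn₁⟩ := att3 h1 hδ0
  obtain ⟨n₂, hn₂⟩ := eventually_atTop.1 (tendsto_pow_big (by linarith : 1 < 1 + δ) hs)
  have h4 : ∃ n₃ : ℕ, (1 + ζ).im ≠ 0 → ∀ n, n₃ ≤ n →
      2 < ‖ζ‖ * ‖1 + (1 + ζ) - (1 + ζ) ^ 2‖ ^ (n - 1) := by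
    by_cases him : (1 + ζ).im = 0
    · exact ⟨0, fun h => absurd him h⟩
    · have h5 : 1 < ‖1 + (1 + ζ) - (1 + ζ) ^ 2‖ := by
        have h6 := norm_four h1
        have h7 : 0 < (1 + ζ).im ^ 2 := by positivity
        by_contra hcon
        rw [not_lt] at hcon
        have := norm_nonneg (1 + (1 + ζ) - (1 + ζ) ^ 2)
        nlinarith
      obtain ⟨n₃, hn₃⟩ := eventually_atTop.1 (tendsto_pow_big h5 hs)
      exact ⟨n₃, fun _ => hn₃⟩
  obtain ⟨n₃, hn₃⟩ := h4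
  obtain ⟨n₄, hn₄⟩ := exists_nat_ge (3 / ‖ζ‖)
  refine ⟨max (max n₁ n₂) (max n₃ n₄), fun n hn hbad => ?_⟩
  obtain ⟨hn2, c, hc, hM, hcl⟩ := hbad
  have hc0 : c ≠ 0 := by
    rintro rfl
    rw [zero_pow (by omega)] at hc
    exact hζ hc.symm
  have hn3 : 3 ≤ n * ‖ζ‖ := by
    rw [← div_le_iff₀ hs]
    refine hn₄.trans ?_
    exact_mod_cast (le_max_right n₃ n₄).trans ((le_max_right _ _).trans hn)
  have hone : (1 + ζ) ^ n ≠ 1 := fun h => hcl (case_one hn2 hc h1 hn3 hM h)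
  have hmone : (1 + ζ) ^ (n + 1) ≠ -1 := by
    intro h
    by_cases him : (1 + ζ).im = 0
    · have h5 := real_unit h1 him (by
        intro h6
        apply hζ
        linear_combination h6)
      apply hone
      rw [pow_succ, h5] at h
      rw [h5]
      linear_combination -h
    · have hb0 : (1 + ζ) ≠ 0 := by
        intro h6
        rw [h6, norm_zero] at h1
        norm_num at h1
      have hy3 : (g n ζ)^[3] 0 = (1 + ζ)⁻¹ := by
        rw [g_iter3 hn2]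
        apply eq_inv_of_mul_eq_one_left
        rw [pow_succ] at h
        linear_combination ζ * h
      have hy4 : (g n ζ)^[4] 0 = 1 + (1 + ζ) - (1 + ζ) ^ 2 := by
        rw [Function.iterate_succ_apply', hy3]
        unfold g
        rw [inv_pow]
        have h6 : ((1 + ζ) ^ n)⁻¹ = - (1 + ζ) := by
          apply inv_eq_of_mul_eq_one_right
          rw [pow_succ] at h
          linear_combination -h
        rw [h6]; ring
      have h6 := hn₃ him n ((le_max_left n₃ n₄).trans ((le_max_right _ _).trans hn))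
      refine escape hn2 hc (k := 4) ?_ ?_ hM
      · rw [hy4]
        have h6 := norm_four h1
        have h7 : 0 ≤ (1 + ζ).im ^ 2 := by positivity
        by_contra hcon
        rw [not_le] at hcon
        have := norm_nonneg (1 + (1 + ζ) - (1 + ζ) ^ 2)
        nlinarith
      · rw [hy4]; exact h6
  refine ⟨hone, hmone, ?_⟩
  set y := ‖1 + ζ * (1 + ζ) ^ n‖ with hy
  have hy0 : 0 ≤ y := norm_nonneg _
  have hlow : 1 - δ < y := by
    by_contra hcon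
    rw [not_lt] at hcon
    obtain ⟨z, hz1, hz2⟩ := hn₁ n ((le_max_left n₁ n₂).trans ((le_max_left _ _).trans hn)) hcon
    exact hcl (subset_closure (att_of_g hn2 hc hc0 (by norm_num) hz1 hz2))
  have hup : y < 1 + δ := by
    by_contra hcon
    rw [not_lt] at hcon
    have h5 := hn₂ n ((le_max_right n₁ n₂).trans ((le_max_left _ _).trans hn))
    refine escape hn2 hc (k := 3) ?_ ?_ hM
    · rw [g_iter3 hn2, ← hy]; linarith
    · rw [g_iter3 hn2, ← hy]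
      calc 2 < ‖ζ‖ * (1 + δ) ^ (n - 1) := h5
        _ ≤ ‖ζ‖ * y ^ (n - 1) := by gcongr
  have h5 := third (β := 1 + ζ) (b := (1 + ζ) ^ n) h1 (by rw [norm_pow, h1, one_pow])
  rw [add_sub_cancel_left, ← hy, ← pow_succ'] at h5
  have h6 : |y ^ 2 - 1| < 4 * δ := by
    rw [abs_lt]
    constructor <;> nlinarith
  rw [h5] at h6
  have h7 : ‖ζ‖ * (‖(1 + ζ) ^ n - 1‖ * ‖(1 + ζ) ^ (n + 1) + 1‖) < ‖ζ‖ * ε := by
    calc _ < 4 * δ := h6
      _ ≤ 4 * (ε * ‖ζ‖ / 4) := by gcongr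
      _ = _ := by ring
  exact lt_of_mul_lt_mul_left h7 hs.le

theorem bad_pos {ζ : ℂ} {n : ℕ} (h1 : (1 + ζ) ^ n ≠ 1) (h2 : (1 + ζ) ^ (n + 1) ≠ -1) :
    0 < ‖(1 + ζ) ^ n - 1‖ * ‖(1 + ζ) ^ (n + 1) + 1‖ := by
  apply mul_pos
  · exact norm_pos_iff.2 (sub_ne_zero.2 h1)
  · rw [norm_pos_iff]
    intro h
    exact h2 (eq_neg_of_add_eq_zero_left h)

theorem finite_root {ζ : ℂ} {b : ℕ} (hb : 0 < b) (hβ : (1 + ζ) ^ b = 1) : (bad ζ).Finite := by
  by_cases hζ : ζ = 0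
  · subst hζ; rw [zero_bad]; exact finite_empty
  have h1 : ‖1 + ζ‖ = 1 := by
    have h2 : ‖1 + ζ‖ ^ b = 1 := by rw [← norm_pow, hβ, norm_one]
    exact (pow_eq_one_iff_of_nonneg (norm_nonneg _) (by omega)).mp h2
  set f : ℕ → ℝ := fun n => ‖(1 + ζ) ^ n - 1‖ * ‖(1 + ζ) ^ (n + 1) + 1‖ with hf
  obtain ⟨δ, hδ, hδ2⟩ := exists_lower ((Finset.range b).filter (fun i => 0 < f i)) f
    (fun i hi => (Finset.mem_filter.1 hi).2)
  obtain ⟨n₀, hn₀⟩ := bad_small h1 hζ hδ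
  apply (Set.finite_Iio n₀).subset
  intro n hn
  by_contra hcon
  rw [mem_Iio, not_lt] at hcon
  obtain ⟨h2, h3, h4⟩ := hn₀ n hcon hn
  have hmod : ∀ k, (1 + ζ) ^ (n + k) = (1 + ζ) ^ (n % b + k) := by
    intro k
    conv_lhs => rw [← Nat.div_add_mod n b, add_assoc, pow_add, pow_mul, hβ, one_pow, one_mul]
  have hfm : f (n % b) = f n := by
    simp only [hf]
    have h5 := hmod 0
    rw [add_zero, add_zero] at h5
    rw [hmod 1, h5]
  have h5 := hδ2 (n % b) (Finset.mem_filter.2 ⟨Finset.mem_range.2 (Nat.mod_lt _ hb), by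
    rw [hfm]; exact bad_pos h2 h3⟩)
  rw [hfm] at h5
  exact absurd h4 (not_lt.2 h5)

theorem finite_bad {ζ : ℂ} (h : ‖1 + ζ‖ ≠ 1 ∨ ∃ k, 0 < k ∧ (1 + ζ) ^ k = 1) :
    (bad ζ).Finite := by
  rcases h with h | ⟨k, hk, h⟩
  · exact finite_off h
  · exact finite_root hk h

theorem pow_diff {β : ℂ} (hβ : ‖β‖ = 1) {i j : ℕ} (hij : i ≤ j) {η : ℝ}
    (hi : ‖β ^ i - 1‖ < η) (hj : ‖β ^ j - 1‖ < η) : ‖β ^ (j - i) - 1‖ < 2 * η := by
  have h7 : (β ^ j - 1) - (β ^ i - 1) = β ^ i * (β ^ (j - i) - 1) := by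
    have : j = i + (j - i) := by omega
    conv_lhs => rw [this]
    rw [pow_add]; ring
  have h8 := norm_sub_le (β ^ j - 1) (β ^ i - 1)
  rw [h7, norm_mul, norm_pow, hβ, one_pow, one_mul] at h8
  linarith

theorem sq_near_one {β : ℂ} (hβ : ‖β‖ = 1) {n : ℕ} {η : ℝ} (h : ‖β ^ n - 1‖ < η) :
    ‖β ^ (2 * n) - 1‖ < 2 * η := by
  have h1 : β ^ (2 * n) - 1 = (β ^ n - 1) * (β ^ n + 1) := by
    rw [mul_comm 2 n, pow_mul]; ring
  have h2 := norm_add_le (β ^ n) 1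
  rw [norm_pow, hβ, one_pow, norm_one] at h2
  rw [h1, norm_mul]
  calc _ ≤ ‖β ^ n - 1‖ * 2 := by
        gcongr; linarith
    _ < η * 2 := by gcongr
    _ = _ := by ring

theorem sq_near_neg_one {β : ℂ} (hβ : ‖β‖ = 1) {n : ℕ} {η : ℝ} (h : ‖β ^ n + 1‖ < η) :
    ‖β ^ (2 * n) - 1‖ < 2 * η := by
  have h1 : β ^ (2 * n) - 1 = (β ^ n + 1) * (β ^ n - 1) := by
    rw [mul_comm 2 n, pow_mul]; ring
  have h2 := norm_sub_le (β ^ n) 1
  rw [norm_pow, hβ, one_pow, norm_one] at h2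
  rw [h1, norm_mul]
  calc _ ≤ ‖β ^ n + 1‖ * 2 := by
        gcongr; linarith
    _ < η * 2 := by gcongr
    _ = _ := by ring

/-- At every `ζ` the gaps between the exceptional degrees tend to infinity. -/
theorem gaps (ζ : ℂ) (Q : ℕ) : {n | n ∈ bad ζ ∧ ∃ m ∈ bad ζ, n < m ∧ m ≤ n + Q}.Finite := by
  by_cases h : ‖1 + ζ‖ ≠ 1 ∨ ∃ k, 0 < k ∧ (1 + ζ) ^ k = 1
  · exact (finite_bad h).subset fun n hn => hn.1
  push Not at h
  obtain ⟨h1, hroot⟩ := h
  have hζ : ζ ≠ 0 := by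
    rintro rfl
    exact hroot 1 one_pos (by simp)
  obtain ⟨δ', hδ', hδ2'⟩ := exists_lower (Finset.Icc 1 (Q + 1))
    (fun q => ‖(1 + ζ) ^ (2 * q) - 1‖) (by
    intro q hq
    rw [Finset.mem_Icc] at hq
    exact norm_pos_iff.mpr (sub_ne_zero.mpr (hroot (2 * q) (by omega))))
  set δ := min δ' 1 with hδdef
  have hδ : 0 < δ := lt_min hδ' one_pos
  have hδ1 : δ ≤ 1 := min_le_right _ _
  have hδ2 : ∀ q, 1 ≤ q → q ≤ Q + 1 → δ ≤ ‖(1 + ζ) ^ (2 * q) - 1‖ := fun q hq1 hq2 =>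
    (min_le_left _ _).trans (hδ2' q (Finset.mem_Icc.2 ⟨hq1, hq2⟩))
  obtain ⟨n₀, hn₀⟩ := bad_small h1 hζ (ε := (δ / 4) * (δ / 4)) (by positivity)
  have hsplit : ∀ n, n₀ ≤ n → n ∈ bad ζ →
      ‖(1 + ζ) ^ n - 1‖ < δ / 4 ∨ ‖(1 + ζ) ^ (n + 1) + 1‖ < δ / 4 := by
    intro n hn hb
    by_contra hcon
    push Not at hcon
    have h2 := (hn₀ n hn hb).2.2
    have h3 : δ / 4 * (δ / 4) ≤ ‖(1 + ζ) ^ n - 1‖ * ‖(1 + ζ) ^ (n + 1) + 1‖ :=
      mul_le_mul hcon.1 hcon.2 (by positivity) (norm_nonneg _)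
    linarith
  apply (Set.finite_Iio n₀).subset
  rintro n ⟨hn, m, hm, hnm, hmQ⟩
  by_contra hcon
  rw [mem_Iio, not_lt] at hcon
  rcases hsplit n hcon hn with ha | ha <;> rcases hsplit m (by omega) hm with hb | hb
  · have h3 := pow_diff h1 (by omega : 2 * n ≤ 2 * m) (sq_near_one h1 ha) (sq_near_one h1 hb)
    have h4 := hδ2 (m - n) (by omega) (by omega)
    rw [← Nat.mul_sub] at h3
    linarith
  · have h3 := pow_diff h1 (by omega : 2 * n ≤ 2 * (m + 1)) (sq_near_one h1 ha)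
      (sq_near_neg_one h1 hb)
    have h4 := hδ2 (m + 1 - n) (by omega) (by omega)
    rw [← Nat.mul_sub] at h3
    linarith
  · rcases Nat.lt_or_ge (n + 1) m with h5 | h5
    · have h3 := pow_diff h1 (by omega : 2 * (n + 1) ≤ 2 * m) (sq_near_neg_one h1 ha)
        (sq_near_one h1 hb)
      have h4 := hδ2 (m - (n + 1)) (by omega) (by omega)
      rw [← Nat.mul_sub] at h3
      linarith
    · have hmn : m = n + 1 := by omega
      subst hmn
      have h6 := norm_sub_le ((1 + ζ) ^ (n + 1) + 1) ((1 + ζ) ^ (n + 1) - 1)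
      have h7 : ((1 + ζ) ^ (n + 1) + 1) - ((1 + ζ) ^ (n + 1) - 1) = 2 := by ring
      rw [h7] at h6
      have h8 : ‖(2:ℂ)‖ = 2 := by simp
      linarith
  · have h3 := pow_diff h1 (by omega : 2 * (n + 1) ≤ 2 * (m + 1)) (sq_near_neg_one h1 ha)
      (sq_near_neg_one h1 hb)
    have h4 := hδ2 (m + 1 - (n + 1)) (by omega) (by omega)
    rw [← Nat.mul_sub] at h3
    linarith

/-- The exceptional degrees have density zero. -/
theorem density (ζ : ℂ) :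
    Tendsto (fun N : ℕ => ((bad ζ ∩ Iio N).ncard : ℝ) / N) atTop (𝓝 0) := by
  have key : ∀ Q : ℕ, ∃ n₀ : ℕ, ∀ N : ℕ, (bad ζ ∩ Iio N).ncard ≤ n₀ + (N / (Q + 1) + 1) := by
    intro Q
    obtain ⟨n₀, hn₀⟩ := (gaps ζ Q).bddAbove
    refine ⟨n₀ + 1, fun N => ?_⟩
    have hsub : bad ζ ∩ Iio N ⊆ Iio (n₀ + 1) ∪ (bad ζ ∩ Ico (n₀ + 1) N) := by
      rintro n ⟨hn1, hn2⟩
      rcases lt_or_ge n (n₀ + 1) with h | h
      · exact Or.inl h
      · exact Or.inr ⟨hn1, h, hn2⟩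
    have hfin : (bad ζ ∩ Ico (n₀ + 1) N).Finite := (finite_Ico _ _).subset inter_subset_right
    have h1 : (bad ζ ∩ Iio N).ncard ≤ (Iio (n₀ + 1)).ncard + (bad ζ ∩ Ico (n₀ + 1) N).ncard :=
      (Set.ncard_le_ncard hsub ((finite_Iio _).union hfin)).trans (Set.ncard_union_le _ _)
    have h2 : (Iio (n₀ + 1) : Set ℕ).ncard = n₀ + 1 := by
      rw [← Finset.coe_Iio, Set.ncard_coe_finset, Nat.card_Iio]
    have h3 : (bad ζ ∩ Ico (n₀ + 1) N).ncard ≤ N / (Q + 1) + 1 := by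
      have h4 : (Iio (N / (Q + 1) + 1) : Set ℕ).ncard = N / (Q + 1) + 1 := by
        rw [← Finset.coe_Iio, Set.ncard_coe_finset, Nat.card_Iio]
      rw [← h4]
      apply Set.ncard_le_ncard_of_injOn (fun n => n / (Q + 1))
      · rintro n ⟨-, -, hn⟩
        rw [mem_Iio, Nat.lt_succ_iff]
        exact Nat.div_le_div_right (le_of_lt hn)
      · have hlt : ∀ n ∈ bad ζ ∩ Ico (n₀ + 1) N, ∀ m ∈ bad ζ ∩ Ico (n₀ + 1) N, n < m →
            n / (Q + 1) < m / (Q + 1) := by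
          rintro n ⟨hn1, hn2, -⟩ m ⟨hm1, -, -⟩ hnm
          have h5 : n + (Q + 1) ≤ m := by
            by_contra hcon
            push Not at hcon
            have := hn₀ (show n ∈ {n | n ∈ bad ζ ∧ ∃ m ∈ bad ζ, n < m ∧ m ≤ n + Q} from
              ⟨hn1, m, hm1, hnm, by omega⟩)
            omega
          calc n / (Q + 1) < n / (Q + 1) + 1 := Nat.lt_succ_self _
            _ = (n + (Q + 1)) / (Q + 1) := (Nat.add_div_right n (Nat.succ_pos Q)).symm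
            _ ≤ m / (Q + 1) := Nat.div_le_div_right h5
        intro n hn m hm hnm
        simp only at hnm
        rcases lt_trichotomy n m with h | h | h
        · exact absurd hnm (hlt n hn m hm h).ne
        · exact h
        · exact absurd hnm (hlt m hm n hn h).ne'
    omega
  rw [Metric.tendsto_atTop]
  intro ε hε
  obtain ⟨Q, hQ⟩ := exists_nat_one_div_lt (half_pos hε)
  obtain ⟨n₀, hn₀⟩ := key Q
  obtain ⟨N₀, hN₀⟩ := exists_nat_gt ((n₀ + 1 : ℝ) / (ε / 2))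
  refine ⟨N₀ + 1, fun N hN => ?_⟩
  have hN0 : (0:ℝ) < N := by exact_mod_cast (by omega : 0 < N)
  rw [Real.dist_eq, sub_zero, abs_of_nonneg (by positivity), div_lt_iff₀ hN0]
  have h1 : ((bad ζ ∩ Iio N).ncard : ℝ) ≤ n₀ + ((N / (Q + 1) : ℕ) + 1) := by
    exact_mod_cast hn₀ N
  have h2 : ((N / (Q + 1) : ℕ) : ℝ) ≤ N * (1 / ((Q:ℝ) + 1)) := by
    have := Nat.cast_div_le (α := ℝ) (m := N) (n := Q + 1)
    push_cast at this
    rw [mul_one_div]
    exact this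
  have h3 : (N:ℝ) * (1 / ((Q:ℝ) + 1)) ≤ N * (ε / 2) := by gcongr
  have h4 : (N₀:ℝ) < N := by exact_mod_cast (by omega : N₀ < N)
  have h5 : (n₀ + 1 : ℝ) < N * (ε / 2) := by
    rw [div_lt_iff₀ (half_pos hε)] at hN₀
    exact hN₀.trans (by gcongr)
  linarith

end Pool.Agent.H462R2.AE
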