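import Pool.Agent.H462R2.CD2

/-!
# Coarse density of hyperbolicity to all orders: the theorem
-/

set_option autoImplicit false
open Complex Metric Set Filter Topology
open N62a1eb23

namespace Pool.Agent.H462R2.CD

open Pool.Agent.H712R2 Pool.Agent.H713R2 Pool.Agent.H713R2.AR
open Pool.Agent.H462R2.AD (hyp)

/-- Distance to the parameters with an attracting cycle against the parameter derivative. -/
theorem dist_deriv {n k : ℕ} (hkn : 100 ^ (k + 1) ≤ n) {c : ℂ} (hc : c ∈ multibrotSet n) :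
    ∃ c' ∈ hyp n, ‖c' - c‖ * ‖deriv (P n (k + 1)) c‖ ≤ 5 * (k + 4) * Real.log n / n := by
  have hn : 2 ≤ n := by have := (hundred_le hkn).1; omega
  by_contra hcon
  push Not at hcon
  have hn' : (2:ℝ) ≤ n := by exact_mod_cast hn
  have hn0 : (0:ℝ) < n := by linarith
  have hl : 0 < Real.log n := Real.log_pos (by linarith)
  set B : ℝ := 5 * (k + 4) * Real.log n / n with hB
  have hB0 : 0 < B := by positivity
  have hzero : (0:ℂ) ∈ hyp n := by
    obtain ⟨m, z, -, hz⟩ := Pool.Agent.H749R2.Hyp.att_zero hn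
    exact ⟨m, z, hz⟩
  have hD : 0 < ‖deriv (P n (k + 1)) c‖ := by
    rcases (norm_nonneg (deriv (P n (k + 1)) c)).lt_or_eq with h | h
    · exact h
    · exfalso
      have := hcon 0 hzero
      rw [← h, mul_zero] at this
      linarith
  have h1 := radius hkn hc (r := B / ‖deriv (P n (k + 1)) c‖) (by positivity) (by
    intro c' hc' hh
    have h2 := hcon c' hh
    rw [mem_ball, dist_eq_norm, lt_div_iff₀ hD] at hc'
    linarith)
  rw [mul_div_cancel₀ _ hD.ne'] at h1
  exact lt_irrefl _ h1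

/-- Growth of the parameter derivative along an expanding orbit. -/
theorem growth {n : ℕ} (hn : 2 ≤ n) (c : ℂ) (k : ℕ)
    (h : ∀ j, 1 ≤ j → j ≤ k → 2 ≤ n * ‖P n j c‖ ^ (n - 1)) :
    1 ≤ ‖deriv (P n (k + 1)) c‖ ∧
      ∏ j ∈ Finset.range k, (n * ‖P n (j + 1) c‖ ^ (n - 1)) ≤ 2 ^ k * ‖deriv (P n (k + 1)) c‖ := by
  induction k with
  | zero =>
    have : P n (0 + 1) = fun c => c := by
      funext x; exact P_one hn x
    rw [this]
    simp
  | succ k ih =>
    obtain ⟨ih1, ih2⟩ := ih (fun j hj1 hj2 => h j hj1 (by omega))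
    have h1 : P n (k + 1 + 1) = fun c => (P n (k + 1) c) ^ n + c := by
      funext x; exact P_succ n (k + 1) x
    have h2 : HasDerivAt (P n (k + 1 + 1))
        (n * (P n (k + 1) c) ^ (n - 1) * deriv (P n (k + 1)) c + 1) c := by
      rw [h1]
      exact (((differentiable_P n (k + 1)) c).hasDerivAt.fun_pow n).add (hasDerivAt_id c)
    rw [h2.deriv, Finset.prod_range_succ]
    have h3 := norm_sub_le (n * (P n (k + 1) c) ^ (n - 1) * deriv (P n (k + 1)) c + 1) 1
    rw [add_sub_cancel_right, norm_mul, norm_mul, norm_pow, norm_one, Complex.norm_natCast] at h3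
    have h4 := h (k + 1) (by omega) le_rfl
    set a : ℝ := n * ‖P n (k + 1) c‖ ^ (n - 1) with ha
    set D := ‖deriv (P n (k + 1)) c‖ with hD
    set E := ‖n * (P n (k + 1) c) ^ (n - 1) * deriv (P n (k + 1)) c + 1‖ with hE
    have h5 : a / 2 * D ≤ E := by nlinarith
    refine ⟨by nlinarith, ?_⟩
    calc (∏ j ∈ Finset.range k, (n * ‖P n (j + 1) c‖ ^ (n - 1))) * a
        ≤ (2 ^ k * D) * a := by gcongr
      _ = 2 ^ (k + 1) * (a / 2 * D) := by rw [pow_succ]; ring
      _ ≤ 2 ^ (k + 1) * E := by gcongr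

theorem dist_prod {n k : ℕ} (hkn : 100 ^ (k + 1) ≤ n) {c : ℂ} (hc : c ∈ multibrotSet n)
    (h : ∀ j, 1 ≤ j → j ≤ k → 2 ≤ n * ‖P n j c‖ ^ (n - 1)) :
    ∃ c' ∈ hyp n, ‖c' - c‖ * ∏ j ∈ Finset.range k, (n * ‖P n (j + 1) c‖ ^ (n - 1)) ≤
      5 * (k + 4) * 2 ^ k * Real.log n / n := by
  have hn : 2 ≤ n := by have := (hundred_le hkn).1; omega
  obtain ⟨c', hc', h1⟩ := dist_deriv hkn hc
  refine ⟨c', hc', ?_⟩
  have hl : 0 ≤ Real.log n := Real.log_natCast_nonneg n
  have h2 := (growth hn c k h).2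
  calc ‖c' - c‖ * ∏ j ∈ Finset.range k, (n * ‖P n (j + 1) c‖ ^ (n - 1))
      ≤ ‖c' - c‖ * (2 ^ k * ‖deriv (P n (k + 1)) c‖) := by gcongr
    _ = 2 ^ k * (‖c' - c‖ * ‖deriv (P n (k + 1)) c‖) := by ring
    _ ≤ 2 ^ k * (5 * (k + 4) * Real.log n / n) := by gcongr
    _ = _ := by ring

theorem dist_fixed {n k : ℕ} (hkn : 100 ^ (k + 1) ≤ n) {c : ℂ} (hc : c ∈ multibrotSet n)
    {b : ℝ} (hnb : 2 / n ≤ b) (h : ∀ j, 1 ≤ j → j ≤ k → b ≤ ‖P n j c‖ ^ (n - 1)) :
    ∃ c' ∈ hyp n, ‖c' - c‖ ≤ 5 * (k + 4) * (2 / b) ^ k * Real.log n / n ^ (k + 1) := by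
  have hn : 2 ≤ n := by have := (hundred_le hkn).1; omega
  have hn0 : (0:ℝ) < n := by exact_mod_cast (by omega : 0 < n)
  have hb : 0 < b := lt_of_lt_of_le (by positivity) hnb
  rw [div_le_iff₀ hn0] at hnb
  obtain ⟨c', hc', h1⟩ := dist_prod hkn hc (fun j hj1 hj2 => by
    have := h j hj1 hj2
    calc (2:ℝ) ≤ n * b := by linarith
      _ ≤ n * ‖P n j c‖ ^ (n - 1) := by gcongr)
  refine ⟨c', hc', ?_⟩
  have h2 : (n * b) ^ k ≤ ∏ j ∈ Finset.range k, (n * ‖P n (j + 1) c‖ ^ (n - 1)) := by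
    calc (n * b) ^ k = ∏ j ∈ Finset.range k, (n * b) := by simp
      _ ≤ _ := by
        apply Finset.prod_le_prod
        · intro i _; positivity
        · intro i hi
          rw [Finset.mem_range] at hi
          have := h (i + 1) (by omega) (by omega)
          gcongr
  have h3 : ‖c' - c‖ * (n * b) ^ k ≤ 5 * (k + 4) * 2 ^ k * Real.log n / n :=
    (mul_le_mul_of_nonneg_left h2 (norm_nonneg _)).trans h1
  rw [← le_div_iff₀ (by positivity)] at h3
  refine h3.trans (le_of_eq ?_)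
  rw [div_pow, mul_pow, pow_succ (n:ℝ) k]
  field_simp

/-- The derivative of the iterates at the critical value. -/
theorem deriv_iter (n : ℕ) (hn : 2 ≤ n) (c : ℂ) (j : ℕ) :
    (F n c)^[j] c = P n (j + 1) c ∧
    deriv (F n c)^[j] c = ∏ i ∈ Finset.range j, (n * (P n (i + 1) c) ^ (n - 1)) := by
  induction j with
  | zero =>
    rw [Function.iterate_zero, zero_add, P_one hn]
    exact ⟨rfl, by simp⟩
  | succ j ih =>
    obtain ⟨h1, h2⟩ := ih
    constructor
    · rw [Function.iterate_succ_apply', h1]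
      exact (P_succ n (j + 1) c).symm
    · rw [Function.iterate_succ', deriv_comp _ (F_diff n c _) (((F_diff n c).iterate j) c), h2, h1,
        F_deriv, Finset.prod_range_succ, mul_comm]

/-- The parameter derivative in terms of the derivatives of the iterates. -/
theorem param_deriv {n : ℕ} (hn : 2 ≤ n) (c : ℂ) (k : ℕ) (h0 : deriv (F n c)^[k] c ≠ 0) :
    deriv (P n (k + 1)) c =
      deriv (F n c)^[k] c * ∑ i ∈ Finset.range (k + 1), (deriv (F n c)^[i] c)⁻¹ := by
  induction k with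
  | zero =>
    have : P n (0 + 1) = fun c => c := by
      funext x; exact P_one hn x
    rw [this]
    simp
  | succ k ih =>
    have hs : deriv (F n c)^[k + 1] c = n * (P n (k + 1) c) ^ (n - 1) * deriv (F n c)^[k] c := by
      rw [(deriv_iter n hn c (k + 1)).2, (deriv_iter n hn c k).2, Finset.prod_range_succ, mul_comm]
    have hk : deriv (F n c)^[k] c ≠ 0 := by
      intro h
      apply h0
      rw [hs, h, mul_zero]
    have h1 : P n (k + 1 + 1) = fun c => (P n (k + 1) c) ^ n + c := by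
      funext x; exact P_succ n (k + 1) x
    have h2 : HasDerivAt (P n (k + 1 + 1))
        (n * (P n (k + 1) c) ^ (n - 1) * deriv (P n (k + 1)) c + 1) c := by
      rw [h1]
      exact (((differentiable_P n (k + 1)) c).hasDerivAt.fun_pow n).add (hasDerivAt_id c)
    rw [h2.deriv, Finset.sum_range_succ, mul_add, mul_inv_cancel₀ h0, ih hk, hs]
    ring

theorem dist_iter {n k : ℕ} (hkn : 100 ^ (k + 1) ≤ n) {c : ℂ} (hc : c ∈ multibrotSet n)
    (h : ∑ i ∈ Finset.range k, 1 / ‖deriv (F n c)^[i + 1] c‖ ≤ 1 / 2) :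
    ∃ c' ∈ hyp n, ‖c' - c‖ * ‖deriv (F n c)^[k] c‖ ≤ 10 * (k + 4) * Real.log n / n := by
  have hn : 2 ≤ n := by have := (hundred_le hkn).1; omega
  obtain ⟨c', hc', h1⟩ := dist_deriv hkn hc
  refine ⟨c', hc', ?_⟩
  have hl : 0 ≤ Real.log n := Real.log_natCast_nonneg n
  by_cases h0 : deriv (F n c)^[k] c = 0
  · rw [h0, norm_zero, mul_zero]
    positivity
  have h2 := param_deriv hn c k h0
  have h3 : 1 / 2 ≤ ‖∑ i ∈ Finset.range (k + 1), (deriv (F n c)^[i] c)⁻¹‖ := by
    rw [Finset.sum_range_succ']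
    have h4 : (deriv (F n c)^[0] c)⁻¹ = 1 := by
      rw [Function.iterate_zero]; simp
    rw [h4]
    have h5 : ‖∑ i ∈ Finset.range k, (deriv (F n c)^[i + 1] c)⁻¹‖ ≤ 1 / 2 := by
      refine (norm_sum_le _ _).trans ?_
      refine le_trans (le_of_eq ?_) h
      apply Finset.sum_congr rfl
      intro i _
      rw [norm_inv, one_div]
    have h6 := norm_sub_le (∑ i ∈ Finset.range k, (deriv (F n c)^[i + 1] c)⁻¹ + 1)
      (∑ i ∈ Finset.range k, (deriv (F n c)^[i + 1] c)⁻¹)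
    rw [add_sub_cancel_left, norm_one] at h6
    linarith
  rw [h2, norm_mul] at h1
  have h4 : ‖c' - c‖ * ‖deriv (F n c)^[k] c‖ * (1 / 2) ≤ 5 * (k + 4) * Real.log n / n := by
    refine le_trans ?_ h1
    rw [← mul_assoc]
    gcongr
  have h5 : 10 * ((k:ℝ) + 4) * Real.log n / n = 2 * (5 * (k + 4) * Real.log n / n) := by ring
  rw [h5]
  linarith

end Pool.Agent.H462R2.CD
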