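import Pool.Agent.H462R2.AE3
import Pool.Agent.H462R2.AD3
import Pool.Agent.H462R2.CD3

/-!
# Unicritical polynomials in the coordinate `ζ = c ^ (n - 1)`: rates and almost every `ζ`
-/

set_option autoImplicit false
open Complex Metric Set Filter Topology MeasureTheory
open N62a1eb23

namespace Pool.Agent.H462R2.AE

open Pool.Agent.H712R2 Pool.Agent.H713R2 Pool.Agent.H713R2.AR
open Pool.Agent.H462R2.AD (hyp not_att exists_lower near measurableSet_near volume_near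
  summable_aux)

/-- The rate of approach of the exceptional degrees to the resonances. -/
theorem rate {ζ : ℂ} (h1 : ‖1 + ζ‖ = 1) {n : ℕ} (hn : 10 ^ 6 ≤ n) (hζn : 1 ≤ n * ‖ζ‖)
    (hbad : n ∈ bad ζ) :
    ‖ζ‖ * (‖(1 + ζ) ^ n - 1‖ * ‖(1 + ζ) ^ (n + 1) + 1‖) ≤ 28 * Real.log n / n := by
  obtain ⟨hn2, c, hc, hM, hcl⟩ := hbad
  have hn' : (10 ^ 6 : ℝ) ≤ n := by exact_mod_cast hn
  have hn0 : (0:ℝ) < n := by linarith
  have hz0 : 0 < ‖ζ‖ := by
    rcases (norm_nonneg ζ).lt_or_eq with h | h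
    · exact h
    · rw [← h, mul_zero] at hζn; norm_num at hζn
  have hz2 : ‖ζ‖ ≤ 2 := by
    have h2 := norm_sub_le (1 + ζ) 1
    rw [add_sub_cancel_left, h1, norm_one] at h2
    linarith
  set y := ‖1 + ζ * (1 + ζ) ^ n‖ with hy
  have hPn : ‖P n 3 c‖ ^ (n - 1) = ‖ζ‖ * y ^ (n - 1) := by
    rw [P_eq hn2 hc, g_iter3 hn2, norm_mul, mul_pow, ← norm_pow c, hc]
  have hup : ‖ζ‖ * y ^ (n - 1) ≤ 2 := by
    rw [← hPn]; exact Pool.Agent.H462R2.CD.pow_le_two hn2 hM 3
  have hlow : 1 / (n:ℝ) ^ 5 ≤ ‖ζ‖ * y ^ (n - 1) := by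
    rw [← hPn]
    by_contra hcon
    rw [not_le] at hcon
    obtain ⟨z, hz⟩ := Pool.Agent.H462R2.CD.criterion_pow (k := 2) (n := n)
      (le_trans (by norm_num) hn) hM hcon
    exact hcl (subset_closure ⟨_, z, hz⟩)
  have hy0 : 0 < y := by
    rcases (norm_nonneg (1 + ζ * (1 + ζ) ^ n)).lt_or_eq with h | h
    · exact h
    · exfalso
      rw [hy, ← h, zero_pow (by omega), mul_zero] at hlow
      have : 0 < 1 / (n:ℝ) ^ 5 := by positivity
      linarith
  have hp : 0 < y ^ (n - 1) := by positivity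
  have hcast : ((n - 1 : ℕ) : ℝ) = n - 1 := by
    rw [Nat.cast_sub (by omega)]; simp
  have hl2 : 0.6931471803 < Real.log 2 := Real.log_two_gt_d9
  have hln : Real.log 2 ≤ Real.log n := Real.log_le_log (by norm_num) (by linarith)
  have e1 : Real.log ‖ζ‖ + (n - 1) * Real.log y ≤ Real.log 2 := by
    have := Real.log_le_log (by positivity) hup
    rwa [Real.log_mul hz0.ne' hp.ne', Real.log_pow, hcast] at this
  have e2 : -(5 * Real.log n) ≤ Real.log ‖ζ‖ + (n - 1) * Real.log y := by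
    have := Real.log_le_log (by positivity) hlow
    rw [Real.log_mul hz0.ne' hp.ne', Real.log_pow, hcast, one_div, Real.log_inv,
      Real.log_pow] at this
    push_cast at this
    linarith
  have e3 : Real.log ‖ζ‖ ≤ Real.log 2 := Real.log_le_log hz0 hz2
  have e4 : -Real.log n ≤ Real.log ‖ζ‖ := by
    have h2 : 0 ≤ Real.log (n * ‖ζ‖) := Real.log_nonneg hζn
    rw [Real.log_mul hn0.ne' hz0.ne'] at h2
    linarith
  set L := Real.log y with hL
  have hkey : ((n:ℝ) - 1) * |L| ≤ 6 * Real.log n := by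
    rcases abs_cases L with ⟨h6, -⟩ | ⟨h6, -⟩
    · rw [h6]; linarith
    · rw [h6]; linarith
  have hkey2 : |2 * L| ≤ 14 * Real.log n / n := by
    rw [abs_mul, abs_two, le_div_iff₀ hn0]
    nlinarith [abs_nonneg L]
  have hlog := Pool.Agent.H462R2.CD.log_le (n := n) (by omega)
  have hle1 : 14 * Real.log n / n ≤ 1 := by
    rw [div_le_one hn0]
    nlinarith
  have h7 := Real.abs_exp_sub_one_le (hkey2.trans hle1)
  have h8 : Real.exp (2 * L) = y ^ 2 := by
    rw [hL, mul_comm, Real.exp_mul, Real.exp_log hy0]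
    norm_num
  rw [h8] at h7
  have h5 := third (β := 1 + ζ) (b := (1 + ζ) ^ n) h1 (by rw [norm_pow, h1, one_pow])
  rw [add_sub_cancel_left, ← hy, ← pow_succ'] at h5
  rw [← h5]
  calc |y ^ 2 - 1| ≤ 2 * |2 * L| := h7
    _ ≤ 2 * (14 * Real.log n / n) := by gcongr
    _ = _ := by ring

theorem ae_tsum' {s : ℝ} (hs : 2 < s) {A : ℝ} (hA : 0 ≤ A) (m : ℕ → ℕ) (hm : ∀ n, 0 < m n) :
    ∀ᵐ θ : ℝ, ∑' n : ℕ, (near (m n) (A * Real.log (n + 2 : ℕ) / (n + 2 : ℕ))).indicator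
      (fun _ => ENNReal.ofReal ((1 + Real.log (n + 2 : ℕ)) ^ (-s))) θ < ⊤ := by
  have key : ∀ L : ℕ, ∀ᵐ θ : ℝ, θ ∈ Icc (-(L:ℝ)) L →
      ∑' n : ℕ, (near (m n) (A * Real.log (n + 2 : ℕ) / (n + 2 : ℕ))).indicator
      (fun _ => ENNReal.ofReal ((1 + Real.log (n + 2 : ℕ)) ^ (-s))) θ < ⊤ := by
    intro L
    rw [← ae_restrict_iff' measurableSet_Icc]
    have hmeas : ∀ n : ℕ, Measurable
        ((near (m n) (A * Real.log (n + 2 : ℕ) / (n + 2 : ℕ))).indicator
        (fun _ => ENNReal.ofReal ((1 + Real.log (n + 2 : ℕ)) ^ (-s)))) := fun n =>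
      measurable_const.indicator (measurableSet_near _ _)
    apply ae_lt_top (Measurable.tsum hmeas)
    rw [lintegral_tsum fun n => (hmeas n).aemeasurable]
    have hl : ∀ n : ℕ, 0 ≤ Real.log n := fun n => Real.log_natCast_nonneg n
    have hbound : ∀ n : ℕ, ∫⁻ θ in Icc (-(L:ℝ)) L,
        (near (m n) (A * Real.log (n + 2 : ℕ) / (n + 2 : ℕ))).indicator
        (fun _ => ENNReal.ofReal ((1 + Real.log (n + 2 : ℕ)) ^ (-s))) θ ≤
        ENNReal.ofReal ((2 * L + 3) * Real.pi * A *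
          (1 / (((n + 2 : ℕ):ℝ) * (1 + Real.log (n + 2 : ℕ)) ^ (s - 1)))) := by
      intro n
      have h0 := hl (n + 2)
      rw [lintegral_indicator_const (measurableSet_near _ _),
        Measure.restrict_apply (measurableSet_near _ _)]
      calc ENNReal.ofReal ((1 + Real.log (n + 2 : ℕ)) ^ (-s)) *
            volume (near (m n) (A * Real.log (n + 2 : ℕ) / (n + 2 : ℕ)) ∩
              Icc (-(L:ℝ)) L)
          ≤ ENNReal.ofReal ((1 + Real.log (n + 2 : ℕ)) ^ (-s)) *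
            ENNReal.ofReal ((2 * L + 3) * Real.pi *
              (A * Real.log (n + 2 : ℕ) / (n + 2 : ℕ))) := by
            gcongr
            exact volume_near (hm n) (by positivity) L
        _ = ENNReal.ofReal ((1 + Real.log (n + 2 : ℕ)) ^ (-s) * ((2 * L + 3) * Real.pi *
              (A * Real.log (n + 2 : ℕ) / (n + 2 : ℕ)))) :=
            (ENNReal.ofReal_mul (by positivity)).symm
        _ ≤ _ := by
            apply ENNReal.ofReal_le_ofReal
            have h1 : (1 + Real.log (n + 2 : ℕ)) ^ (-s) * Real.log (n + 2 : ℕ)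
                ≤ 1 / (1 + Real.log (n + 2 : ℕ)) ^ (s - 1) := by
              have h2 : (1 + Real.log (n + 2 : ℕ)) ^ (-s) * (1 + Real.log (n + 2 : ℕ))
                  = 1 / (1 + Real.log (n + 2 : ℕ)) ^ (s - 1) := by
                have h3 : 0 < 1 + Real.log (n + 2 : ℕ) := by linarith
                rw [one_div, ← Real.rpow_neg h3.le, ← Real.rpow_add_one h3.ne']
                congr 1
                ring
              rw [← h2]
              gcongr
              linarith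
            have h4 : (0:ℝ) < ((n + 2 : ℕ) : ℝ) := by positivity
            calc (1 + Real.log (n + 2 : ℕ)) ^ (-s) * ((2 * L + 3) * Real.pi *
                  (A * Real.log (n + 2 : ℕ) / (n + 2 : ℕ)))
                = ((2 * L + 3) * Real.pi * A / (n + 2 : ℕ)) *
                  ((1 + Real.log (n + 2 : ℕ)) ^ (-s) * Real.log (n + 2 : ℕ)) := by ring
              _ ≤ ((2 * L + 3) * Real.pi * A / (n + 2 : ℕ)) *
                  (1 / (1 + Real.log (n + 2 : ℕ)) ^ (s - 1)) := by gcongr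
              _ = _ := by
                  have h5 : (0:ℝ) < (1 + Real.log (n + 2 : ℕ)) ^ (s - 1) := by positivity
                  field_simp
    have hsum : Summable fun n : ℕ => (2 * L + 3) * Real.pi * A *
          (1 / (((n + 2 : ℕ):ℝ) * (1 + Real.log (n + 2 : ℕ)) ^ (s - 1))) :=
      ((summable_nat_add_iff (f := fun n : ℕ => 1 / ((n:ℝ) * (1 + Real.log n) ^ (s - 1))) 2).mpr
        (summable_aux (by linarith))).mul_left _
    refine ne_top_of_le_ne_top ?_ (ENNReal.tsum_le_tsum hbound)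
    exact hsum.tsum_ofReal_ne_top
  have key2 := ae_all_iff.mpr key
  filter_upwards [key2] with θ hθ
  obtain ⟨L, hL⟩ := exists_nat_ge |θ|
  exact hθ L (abs_le.mp hL)

/-- The large exceptional degrees are near one of the two resonances. -/
theorem near_of_bad {θ : ℝ} (hβ1 : exp (θ * I) ≠ -1) {A : ℝ}
    (hz : exp (θ * I) - 1 ≠ 0)
    (hA : 112 / (‖exp (θ * I) - 1‖ * ‖exp (θ * I) + 1‖) ≤ A) {n : ℕ} (hn : 10 ^ 6 ≤ n)
    (hζn : 1 ≤ n * ‖exp (θ * I) - 1‖) (hbad : n ∈ bad (exp (θ * I) - 1)) :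
    θ ∈ near n (A * Real.log n / n) ∨ θ ∈ near (2 * (n + 1)) (A * Real.log n / n) := by
  set β := exp (θ * I) with hβ
  have hβn : ‖β‖ = 1 := Complex.norm_exp_ofReal_mul_I θ
  have h1 : ‖1 + (β - 1)‖ = 1 := by rw [add_sub_cancel]; exact hβn
  have hr := rate h1 hn hζn hbad
  rw [add_sub_cancel] at hr
  have hz0 : 0 < ‖β - 1‖ := norm_pos_iff.2 hz
  have he0 : 0 < ‖β + 1‖ := by
    rw [norm_pos_iff]
    intro h
    exact hβ1 (eq_neg_of_add_eq_zero_left h)
  have hn0 : (0:ℝ) < n := by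
    have : (10 ^ 6 : ℝ) ≤ n := by exact_mod_cast hn
    linarith
  have hl : 0 ≤ Real.log n := Real.log_natCast_nonneg n
  rw [div_le_iff₀ (by positivity)] at hA
  have htri : ‖β + 1‖ ≤ ‖β ^ (n + 1) + 1‖ + ‖β ^ n - 1‖ := by
    have h2 : β + 1 = (β ^ (n + 1) + 1) - β * (β ^ n - 1) := by rw [pow_succ]; ring
    calc ‖β + 1‖ = ‖(β ^ (n + 1) + 1) - β * (β ^ n - 1)‖ := by rw [← h2]
      _ ≤ ‖β ^ (n + 1) + 1‖ + ‖β * (β ^ n - 1)‖ := norm_sub_le _ _
      _ = _ := by rw [norm_mul, hβn, one_mul]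
  have hlogn : 0 ≤ Real.log n / n := by positivity
  have hA' : 28 * Real.log n / n ≤ A / 4 * (Real.log n / n) * (‖β - 1‖ * ‖β + 1‖) := by
    have : 28 ≤ A / 4 * (‖β - 1‖ * ‖β + 1‖) := by linarith
    calc 28 * Real.log n / n = 28 * (Real.log n / n) := by ring
      _ ≤ (A / 4 * (‖β - 1‖ * ‖β + 1‖)) * (Real.log n / n) := by gcongr
      _ = _ := by ring
  have hprod : ‖β ^ n - 1‖ * ‖β ^ (n + 1) + 1‖ ≤ A / 4 * (Real.log n / n) * ‖β + 1‖ := by
    have h3 : ‖β - 1‖ * (‖β ^ n - 1‖ * ‖β ^ (n + 1) + 1‖) ≤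
        ‖β - 1‖ * (A / 4 * (Real.log n / n) * ‖β + 1‖) := by
      calc _ ≤ 28 * Real.log n / n := hr
        _ ≤ _ := hA'
        _ = _ := by ring
    exact le_of_mul_le_mul_left h3 hz0
  have hA0 : 0 ≤ A := by
    by_contra hcon
    rw [not_le] at hcon
    have : A * (‖β - 1‖ * ‖β + 1‖) < 0 := mul_neg_of_neg_of_pos hcon (by positivity)
    linarith
  have hA2 : 0 ≤ A / 2 * (Real.log n / n) := by positivity
  rcases le_or_gt ‖β ^ n - 1‖ (‖β + 1‖ / 2) with h3 | h3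
  · left
    show ‖β ^ n - 1‖ ≤ _
    have h4 : ‖β + 1‖ / 2 ≤ ‖β ^ (n + 1) + 1‖ := by linarith
    have h5 : ‖β ^ n - 1‖ * (‖β + 1‖ / 2) ≤ (A / 2 * (Real.log n / n)) * (‖β + 1‖ / 2) := by
      calc ‖β ^ n - 1‖ * (‖β + 1‖ / 2) ≤ ‖β ^ n - 1‖ * ‖β ^ (n + 1) + 1‖ := by gcongr
        _ ≤ A / 4 * (Real.log n / n) * ‖β + 1‖ := hprod
        _ = _ := by ring
    have h6 := le_of_mul_le_mul_right h5 (by positivity)
    calc ‖β ^ n - 1‖ ≤ A / 2 * (Real.log n / n) := h6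
      _ ≤ A * (Real.log n / n) := by
          gcongr
          linarith
      _ = _ := by ring
  · right
    show ‖β ^ (2 * (n + 1)) - 1‖ ≤ _
    have h5 : ‖β ^ (n + 1) + 1‖ * (‖β + 1‖ / 2) ≤ (A / 2 * (Real.log n / n)) * (‖β + 1‖ / 2) := by
      calc ‖β ^ (n + 1) + 1‖ * (‖β + 1‖ / 2) ≤ ‖β ^ (n + 1) + 1‖ * ‖β ^ n - 1‖ := by gcongr
        _ = ‖β ^ n - 1‖ * ‖β ^ (n + 1) + 1‖ := mul_comm _ _
        _ ≤ A / 4 * (Real.log n / n) * ‖β + 1‖ := hprod
        _ = _ := by ring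
    have h6 := le_of_mul_le_mul_right h5 (by positivity)
    have h7 : β ^ (2 * (n + 1)) - 1 = (β ^ (n + 1) + 1) * (β ^ (n + 1) - 1) := by
      rw [mul_comm 2 (n + 1), pow_mul]; ring
    have h8 := norm_sub_le (β ^ (n + 1)) 1
    rw [norm_pow, hβn, one_pow, norm_one] at h8
    rw [h7, norm_mul]
    calc ‖β ^ (n + 1) + 1‖ * ‖β ^ (n + 1) - 1‖ ≤ (A / 2 * (Real.log n / n)) * 2 :=
          mul_le_mul h6 (by linarith) (norm_nonneg _) hA2
      _ = _ := by ring

end Pool.Agent.H462R2.AE
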