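import Pool.Agent.H462R2.AE4

/-!
# Unicritical polynomials in the coordinate `ζ = c ^ (n - 1)`: almost every `ζ`
-/

set_option autoImplicit false
open Complex Metric Set Filter Topology MeasureTheory
open N62a1eb23

namespace Pool.Agent.H462R2.AE

open Pool.Agent.H462R2.AD (near measurableSet_near volume_near)

theorem finite_count {S : Set ℕ} (hS : S.Finite) {s : ℝ} (hs : 0 < s) :
    ∃ K : ℝ, ∀ N : ℕ, 2 ≤ N → ((S ∩ Iic N).ncard : ℝ) ≤ K * Real.log N ^ s := by
  refine ⟨S.ncard / Real.log 2 ^ s, fun N hN => ?_⟩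
  have hl2 := Real.log_two_gt_d9
  have hlN : Real.log 2 ≤ Real.log N := Real.log_le_log (by norm_num) (by exact_mod_cast hN)
  have h1 : ((S ∩ Iic N).ncard : ℝ) ≤ S.ncard := by
    exact_mod_cast Set.ncard_le_ncard inter_subset_left hS
  have h2 : Real.log 2 ^ s ≤ Real.log N ^ s := by
    apply Real.rpow_le_rpow (by linarith) hlN hs.le
  have h3 : 0 < Real.log 2 ^ s := by
    have : 0 < Real.log 2 := by linarith
    positivity
  calc ((S ∩ Iic N).ncard : ℝ) ≤ S.ncard := h1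
    _ = S.ncard / Real.log 2 ^ s * Real.log 2 ^ s := by field_simp
    _ ≤ S.ncard / Real.log 2 ^ s * Real.log N ^ s := by gcongr

/-- At almost every `ζ` of the critical circle there are few exceptional degrees. -/
theorem ae_count {s : ℝ} (hs : 2 < s) :
    ∀ᵐ θ : ℝ, ∃ K : ℝ, ∀ N : ℕ, 2 ≤ N →
      ((bad (exp (θ * I) - 1) ∩ Iic N).ncard : ℝ) ≤ K * Real.log N ^ s := by
  have hall1 : ∀ A : ℕ, ∀ᵐ θ : ℝ, ∑' n : ℕ,
      (near (n + 2) ((A : ℝ) * Real.log (n + 2 : ℕ) / (n + 2 : ℕ))).indicator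
      (fun _ => ENNReal.ofReal ((1 + Real.log (n + 2 : ℕ)) ^ (-s))) θ < ⊤ := fun A =>
    ae_tsum' hs (Nat.cast_nonneg A) (fun n => n + 2) (fun n => by omega)
  have hall2 : ∀ A : ℕ, ∀ᵐ θ : ℝ, ∑' n : ℕ,
      (near (2 * (n + 2 + 1)) ((A : ℝ) * Real.log (n + 2 : ℕ) / (n + 2 : ℕ))).indicator
      (fun _ => ENNReal.ofReal ((1 + Real.log (n + 2 : ℕ)) ^ (-s))) θ < ⊤ := fun A =>
    ae_tsum' hs (Nat.cast_nonneg A) (fun n => 2 * (n + 2 + 1)) (fun n => by omega)
  filter_upwards [ae_all_iff.mpr hall1, ae_all_iff.mpr hall2] with θ hθ1 hθ2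
  by_cases hfin : ∃ k, 0 < k ∧ exp (θ * I) ^ k = 1
  · apply finite_count _ (by linarith)
    apply finite_bad
    right
    obtain ⟨k, hk, h⟩ := hfin
    exact ⟨k, hk, by rw [add_sub_cancel]; exact h⟩
  push Not at hfin
  set β := exp (θ * I) with hβ
  have hβ1 : β - 1 ≠ 0 := by
    intro h
    exact hfin 1 one_pos (by rw [pow_one]; exact sub_eq_zero.1 h)
  have hβ2 : β ≠ -1 := by
    intro h
    exact hfin 2 two_pos (by rw [h]; norm_num)
  have hz0 : 0 < ‖β - 1‖ := norm_pos_iff.2 hβ1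
  obtain ⟨A, hA⟩ := exists_nat_ge (112 / (‖β - 1‖ * ‖β + 1‖))
  obtain ⟨n₂, hn₂⟩ := exists_nat_ge (1 / ‖β - 1‖)
  set n₁ := max (10 ^ 6) n₂ with hn₁
  have hnear : ∀ n, n₁ ≤ n → n ∈ bad (β - 1) →
      θ ∈ near n (A * Real.log n / n) ∨ θ ∈ near (2 * (n + 1)) (A * Real.log n / n) := by
    intro n hn hb
    apply near_of_bad hβ2 hβ1 hA ((le_max_left _ _).trans hn) _ hb
    rw [div_le_iff₀ hz0] at hn₂
    have : (n₂:ℝ) ≤ n := by exact_mod_cast (le_max_right _ _).trans hn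
    calc 1 ≤ n₂ * ‖β - 1‖ := hn₂
      _ ≤ n * ‖β - 1‖ := by gcongr
  set F1 := ∑' n : ℕ, (near (n + 2) ((A : ℝ) * Real.log (n + 2 : ℕ) / (n + 2 : ℕ))).indicator
      (fun _ => ENNReal.ofReal ((1 + Real.log (n + 2 : ℕ)) ^ (-s))) θ with hF1
  set F2 := ∑' n : ℕ, (near (2 * (n + 2 + 1))
      ((A : ℝ) * Real.log (n + 2 : ℕ) / (n + 2 : ℕ))).indicator
      (fun _ => ENNReal.ofReal ((1 + Real.log (n + 2 : ℕ)) ^ (-s))) θ with hF2
  set F := F1 + F2 with hF
  have hFtop : F ≠ ⊤ := ENNReal.add_ne_top.2 ⟨(hθ1 A).ne, (hθ2 A).ne⟩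
  refine ⟨n₁ / Real.log 2 ^ s + F.toReal * 3 ^ s, fun N hN => ?_⟩
  have hfinN : (bad (β - 1) ∩ Icc n₁ N).Finite := (finite_Icc n₁ N).subset inter_subset_right
  set T := hfinN.toFinset.image (fun n => n - 2) with hT
  have hmemT : ∀ n ∈ T, n + 2 ∈ bad (β - 1) ∧ n₁ ≤ n + 2 ∧ n + 2 ≤ N := by
    intro n hn
    rw [hT, Finset.mem_image] at hn
    obtain ⟨m, hm, rfl⟩ := hn
    rw [Set.Finite.mem_toFinset] at hm
    have h2 := hm.1.1
    rw [Nat.sub_add_cancel h2]
    exact ⟨hm.1, hm.2.1, hm.2.2⟩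
  have hcard : (bad (β - 1) ∩ Icc n₁ N).ncard = T.card := by
    rw [Set.ncard_eq_toFinset_card _ hfinN, hT, Finset.card_image_of_injOn]
    intro a ha b hb hab
    simp only [Set.Finite.coe_toFinset] at ha hb
    have h1 := ha.1.1
    have h2 := hb.1.1
    simp only at hab
    omega
  have hcard2 : (bad (β - 1) ∩ Iic N).ncard ≤ n₁ + T.card := by
    rw [← hcard]
    have hsub : bad (β - 1) ∩ Iic N ⊆ Iio n₁ ∪ (bad (β - 1) ∩ Icc n₁ N) := by
      rintro n ⟨hn1, hn2⟩
      rcases lt_or_ge n n₁ with h | h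
      · exact Or.inl h
      · exact Or.inr ⟨hn1, h, hn2⟩
    have h1 := (Set.ncard_le_ncard hsub ((finite_Iio _).union hfinN)).trans
      (Set.ncard_union_le _ _)
    have h2 : (Iio n₁ : Set ℕ).ncard = n₁ := by
      rw [← Finset.coe_Iio, Set.ncard_coe_finset, Nat.card_Iio]
    rw [h2] at h1
    exact h1
  have hl2 := Real.log_two_gt_d9
  have hlN : Real.log 2 ≤ Real.log N := Real.log_le_log (by norm_num) (by exact_mod_cast hN)
  have hpos : 0 < 1 + Real.log N := by linarith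
  have h1 : ENNReal.ofReal (T.card * (1 + Real.log N) ^ (-s)) ≤ F := by
    calc ENNReal.ofReal (T.card * (1 + Real.log N) ^ (-s))
        = ∑ n ∈ T, ENNReal.ofReal ((1 + Real.log N) ^ (-s)) := by
          rw [Finset.sum_const, nsmul_eq_mul, ← ENNReal.ofReal_natCast,
            ← ENNReal.ofReal_mul (by positivity)]
      _ ≤ ∑ n ∈ T, ((near (n + 2) ((A : ℝ) * Real.log (n + 2 : ℕ) / (n + 2 : ℕ))).indicator
            (fun _ => ENNReal.ofReal ((1 + Real.log (n + 2 : ℕ)) ^ (-s))) θ +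
            (near (2 * (n + 2 + 1)) ((A : ℝ) * Real.log (n + 2 : ℕ) / (n + 2 : ℕ))).indicator
            (fun _ => ENNReal.ofReal ((1 + Real.log (n + 2 : ℕ)) ^ (-s))) θ) := by
          apply Finset.sum_le_sum
          intro n hn
          obtain ⟨h2, h3, h3'⟩ := hmemT n hn
          have hle : ENNReal.ofReal ((1 + Real.log N) ^ (-s)) ≤
              ENNReal.ofReal ((1 + Real.log (n + 2 : ℕ)) ^ (-s)) := by
            apply ENNReal.ofReal_le_ofReal
            apply Real.rpow_le_rpow_of_nonpos _ _ (by linarith)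
            · have := Real.log_natCast_nonneg (n + 2)
              linarith
            · have h5 : Real.log (n + 2 : ℕ) ≤ Real.log N :=
                Real.log_le_log (by positivity) (by exact_mod_cast h3')
              linarith
          rcases hnear (n + 2) h3 h2 with h4 | h4
          · rw [Set.indicator_of_mem h4]
            exact hle.trans le_self_add
          · refine hle.trans (le_trans ?_ le_add_self)
            rw [Set.indicator_of_mem h4]
      _ = ∑ n ∈ T, (near (n + 2) ((A : ℝ) * Real.log (n + 2 : ℕ) / (n + 2 : ℕ))).indicator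
            (fun _ => ENNReal.ofReal ((1 + Real.log (n + 2 : ℕ)) ^ (-s))) θ +
          ∑ n ∈ T, (near (2 * (n + 2 + 1))
            ((A : ℝ) * Real.log (n + 2 : ℕ) / (n + 2 : ℕ))).indicator
            (fun _ => ENNReal.ofReal ((1 + Real.log (n + 2 : ℕ)) ^ (-s))) θ :=
          Finset.sum_add_distrib
      _ ≤ F := add_le_add (ENNReal.sum_le_tsum _) (ENNReal.sum_le_tsum _)
  have h2 : (T.card : ℝ) * (1 + Real.log N) ^ (-s) ≤ F.toReal := by
    rw [← ENNReal.ofReal_le_iff_le_toReal hFtop]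
    exact h1
  have h3 : (T.card : ℝ) ≤ F.toReal * (1 + Real.log N) ^ s := by
    have h4 : (1 + Real.log N) ^ (-s) * (1 + Real.log N) ^ s = 1 := by
      rw [← Real.rpow_add hpos]; simp
    calc (T.card : ℝ) = (T.card : ℝ) * (1 + Real.log N) ^ (-s) * (1 + Real.log N) ^ s := by
          rw [mul_assoc, h4, mul_one]
      _ ≤ F.toReal * (1 + Real.log N) ^ s := by gcongr
  have h5 : (1 + Real.log N) ^ s ≤ 3 ^ s * Real.log N ^ s := by
    rw [← Real.mul_rpow (by norm_num) (by linarith)]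
    apply Real.rpow_le_rpow hpos.le _ (by linarith)
    linarith
  have h6 : Real.log 2 ^ s ≤ Real.log N ^ s := by
    apply Real.rpow_le_rpow (by linarith) hlN (by linarith)
  have h7 : 0 < Real.log 2 ^ s := by
    have : 0 < Real.log 2 := by linarith
    positivity
  have h8 : (n₁ : ℝ) ≤ n₁ / Real.log 2 ^ s * Real.log N ^ s := by
    calc (n₁ : ℝ) = n₁ / Real.log 2 ^ s * Real.log 2 ^ s := by field_simp
      _ ≤ n₁ / Real.log 2 ^ s * Real.log N ^ s := by gcongr
  calc ((bad (β - 1) ∩ Iic N).ncard : ℝ) ≤ n₁ + T.card := by exact_mod_cast hcard2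
    _ ≤ n₁ / Real.log 2 ^ s * Real.log N ^ s + F.toReal * (3 ^ s * Real.log N ^ s) := by
        have : F.toReal * (1 + Real.log N) ^ s ≤ F.toReal * (3 ^ s * Real.log N ^ s) := by gcongr
        linarith
    _ = _ := by ring

end Pool.Agent.H462R2.AE
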