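import Mathlib
import Pool.Agent.H762R2.RtC

/-!
# Maps `P(z ^ n) / Q(z ^ n)`: attraction
-/

set_option autoImplicit false

open Set Filter Topology
open scoped OnePoint

namespace Pool.Agent.H462R2.AP

open Pool.Agent.H762R2.Rt Pool.Agent.Helper114.Herman Pool.Agent.Helper114.Konig

/-- If the image of a point is attracted by a periodic sink then so is the point. -/
theorem sinks_of_image {X : Type*} [TopologicalSpace X] {g : X → X} (hg : Continuous g) {c : X}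
    (h : Sinks g (g c)) : Sinks g c := by
  obtain ⟨z, n, hn, hz, ⟨U, hU, hUt⟩, hc⟩ := h
  obtain ⟨m, rfl⟩ : ∃ m, n = m + 1 := ⟨n - 1, by omega⟩
  have hcont : Continuous (g^[m]) := hg.iterate m
  have hgz : g (g^[m] z) = z := by
    rw [← Function.iterate_succ_apply' g m z]; exact hz
  have key : ∀ x : X, Tendsto (fun k : ℕ => g^[(m + 1) * k] (g x)) atTop (𝓝 z) →
      Tendsto (fun k : ℕ => g^[(m + 1) * k] x) atTop (𝓝 (g^[m] z)) := by
    intro x hx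
    rw [← tendsto_add_atTop_iff_nat 1]
    refine ((hcont.tendsto z).comp hx).congr fun k => ?_
    show g^[m] (g^[(m + 1) * k] (g x)) = g^[(m + 1) * (k + 1)] x
    rw [show (m + 1) * (k + 1) = m + ((m + 1) * k + 1) by ring, Function.iterate_add_apply,
      Function.iterate_succ_apply]
  refine ⟨g^[m] z, m + 1, hn, ?_, ⟨g ⁻¹' U, ?_, fun w hw => key w (hUt _ hw)⟩, key c hc⟩
  · rw [Function.iterate_succ_apply, hgz]
  · apply hg.continuousAt.preimage_mem_nhds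
    rw [hgz]
    exact hU

theorem sinks_of_iterate {X : Type*} [TopologicalSpace X] {g : X → X} (hg : Continuous g)
    (m : ℕ) {c : X} (h : Sinks g (g^[m] c)) : Sinks g c := by
  induction m generalizing c with
  | zero => exact h
  | succ m ih =>
    rw [Function.iterate_succ_apply] at h
    exact sinks_of_image hg (ih h)

/-- Two discs exchanged or kept by contractions which are iterates of `g`. -/
theorem two_charts' {X : Type*} [TopologicalSpace X] {g : X → X} (hg : Continuous g)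
    {ψ : Bool → ℂ → X} {σ : Bool → Bool} {τ : Bool → ℕ} {h : Bool → ℂ → ℂ} {r : ℝ} (hr : 0 < r)
    (hτ : ∀ i, 0 < τ i)
    (hcont : ∀ i, Continuous (ψ i))
    (hopen : ∀ i, IsOpenMap (ψ i))
    (hconj : ∀ i x, ‖x‖ ≤ r → g^[τ i] (ψ i x) = ψ (σ i) (h i x))
    (hm : ∀ i x, ‖x‖ ≤ r → ‖h i x‖ < r)
    (hl : ∀ i x y, ‖x‖ ≤ r → ‖y‖ ≤ r → ‖h i x - h i y‖ ≤ (1 / 2) * ‖x - y‖)
    {i : Bool} {x : ℂ} (hx : ‖x‖ ≤ r) : Sinks g (ψ i x) := by
  set j := σ (σ i) with hj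
  have hjj : σ (σ j) = j := bool_two σ i
  set H : ℂ → ℂ := fun y => h (σ j) (h j y) with hH
  have hHm : ∀ y : ℂ, ‖y‖ ≤ r → ‖H y‖ < r := fun y hy => hm _ _ (hm _ _ hy).le
  have hHl : ∀ x y : ℂ, ‖x‖ ≤ r → ‖y‖ ≤ r → ‖H x - H y‖ ≤ (1 / 4) * ‖x - y‖ := by
    intro x y hx hy
    have h1 := hl (σ j) (h j x) (h j y) (hm _ _ hx).le (hm _ _ hy).le
    have h2 := hl j x y hx hy
    simp only [hH]
    linarith
  obtain ⟨p, hpr, hpfix, hpt⟩ := disc_contraction hr (by norm_num) (by norm_num) hHm hHl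
  set T : ℕ := τ (σ j) + τ j with hT
  have hg2 : ∀ y : ℂ, ‖y‖ ≤ r → g^[T] (ψ j y) = ψ j (H y) := by
    intro y hy
    rw [hT, Function.iterate_add_apply, hconj j y hy, hconj (σ j) _ (hm _ _ hy).le, hjj]
  have hHk : ∀ k : ℕ, ∀ y : ℂ, ‖y‖ ≤ r → ‖H^[k] y‖ ≤ r := by
    intro k y hy
    induction k with
    | zero => simpa using hy
    | succ k ih => rw [Function.iterate_succ_apply']; exact (hHm _ ih).le
  have hg2k : ∀ k : ℕ, ∀ y : ℂ, ‖y‖ ≤ r → g^[T * k] (ψ j y) = ψ j (H^[k] y) := by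
    intro k y hy
    induction k with
    | zero => simp
    | succ k ih =>
      rw [show T * (k + 1) = T + T * k by ring, Function.iterate_add_apply, ih,
        hg2 _ (hHk k y hy), Function.iterate_succ_apply']
  have hlim : ∀ y : ℂ, ‖y‖ ≤ r → Tendsto (fun k : ℕ => g^[T * k] (ψ j y)) atTop (𝓝 (ψ j p)) := by
    intro y hy
    have h1 : Tendsto (fun k : ℕ => ψ j (H^[k] y)) atTop (𝓝 (ψ j p)) :=
      ((hcont j).tendsto p).comp (hpt y hy)
    refine h1.congr fun k => (hg2k k y hy).symm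
  have hsink : ∀ y : ℂ, ‖y‖ ≤ r → Sinks g (ψ j y) := by
    intro y hy
    refine ⟨ψ j p, T, by have := hτ j; omega, ?_, ⟨ψ j '' Metric.ball 0 r, ?_, ?_⟩, hlim y hy⟩
    · rw [hg2 p hpr.le, hpfix]
    · exact (hopen j _ Metric.isOpen_ball).mem_nhds ⟨p, by simpa using hpr, rfl⟩
    · rintro w ⟨y, hy, rfl⟩
      exact hlim y (by simpa using (Metric.mem_ball.1 hy).le)
  apply sinks_of_iterate hg (τ (σ i) + τ i)
  rw [Function.iterate_add_apply, hconj i x hx, hconj (σ i) _ (hm _ _ hx).le]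
  exact hsink _ (hm _ _ (hm _ _ hx).le).le

/-- `p / q` is at logarithmic distance at least `η` from the unit circle. -/
def Good (η : ℝ) (p q : ℂ) : Prop := ‖p‖ ≤ Real.exp (-η) * ‖q‖ ∨ ‖q‖ ≤ Real.exp (-η) * ‖p‖

theorem Good.mono {η η' : ℝ} {p q : ℂ} (h : Good η p q) (hle : η' ≤ η) : Good η' p q := by
  have h1 : Real.exp (-η) ≤ Real.exp (-η') := by rw [Real.exp_le_exp]; linarith
  rcases h with h | h
  · exact Or.inl (h.trans (mul_le_mul_of_nonneg_right h1 (norm_nonneg _)))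
  · exact Or.inr (h.trans (mul_le_mul_of_nonneg_right h1 (norm_nonneg _)))

/-- The two charts of the sphere. -/
noncomputable def ch (i : Bool) (x : ℂ) : OnePoint ℂ :=
  if i then sinv (x : OnePoint ℂ) else (x : OnePoint ℂ)

/-- The coordinate of `p / q` in a chart. -/
noncomputable def co (κ : Bool) (p q : ℂ) : ℂ := if κ then q / p else p / q

theorem ch_false : ch false = fun x : ℂ => (x : OnePoint ℂ) := by
  funext x; simp [ch]

theorem ch_true : ch true = fun x : ℂ => sinv (x : OnePoint ℂ) := by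
  funext x; simp [ch]

theorem continuous_ch (i : Bool) : Continuous (ch i) := by
  cases i
  · rw [ch_false]; exact OnePoint.continuous_coe (X := ℂ)
  · rw [ch_true]; exact continuous_sinv.comp (OnePoint.continuous_coe (X := ℂ))

theorem isOpenMap_ch (i : Bool) : IsOpenMap (ch i) := by
  cases i
  · rw [ch_false]; exact (OnePoint.isOpenEmbedding_coe (X := ℂ)).isOpenMap
  · rw [ch_true]
    exact sinvHomeo.isOpenMap.comp (OnePoint.isOpenEmbedding_coe (X := ℂ)).isOpenMap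

theorem ratio_est {η μ : ℝ} (hη : 0 < η) (hμ : 0 < μ) {p₀ q₀ : ℂ}
    (h : ‖p₀‖ ≤ Real.exp (-η) * ‖q₀‖) (hq : μ ≤ ‖q₀‖) {ε : ℝ}
    (hε : 4 * ε ≤ Real.exp (-(η / 2)) * (1 - Real.exp (-(η / 2))) * μ) (hε0 : 0 < ε)
    {p q : ℂ} (hp : ‖p - p₀‖ ≤ ε) (hqq : ‖q - q₀‖ ≤ ε) :
    q ≠ 0 ∧ μ / 2 ≤ ‖q‖ ∧ ‖p / q‖ < Real.exp (-(η / 2)) := by
  set r := Real.exp (-(η / 2)) with hr
  have hr0 : 0 < r := Real.exp_pos _
  have hr1 : r < 1 := by rw [hr, Real.exp_lt_one_iff]; linarith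
  have hrr : Real.exp (-η) = r * r := by rw [hr, ← Real.exp_add]; congr 1; ring
  have h1 : r * (1 - r) ≤ 1 := by nlinarith
  have h2 : 4 * ε ≤ μ := hε.trans (by nlinarith)
  have h3 : ‖q₀‖ - ε ≤ ‖q‖ := by
    have := norm_sub_norm_le q₀ q
    rw [norm_sub_rev] at this
    linarith
  have h4 : ‖p‖ ≤ ‖p₀‖ + ε := by
    have := norm_sub_norm_le p p₀
    linarith
  have h5 : μ / 2 ≤ ‖q‖ := by linarith
  have h6 : 0 < ‖q‖ := by linarith
  refine ⟨norm_pos_iff.1 h6, h5, ?_⟩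
  rw [norm_div, div_lt_iff₀ h6]
  rw [hrr] at h
  have h7 : r * (1 - r) * μ ≤ r * (1 - r) * ‖q₀‖ := by
    apply mul_le_mul_of_nonneg_left hq
    have : 0 ≤ 1 - r := by linarith
    positivity
  have h8 : r * (‖q₀‖ - ε) ≤ r * ‖q‖ := mul_le_mul_of_nonneg_left h3 hr0.le
  nlinarith

theorem ratio_lip {μ : ℝ} (hμ : 0 < μ) {p q p' q' : ℂ} (hq : μ / 2 ≤ ‖q‖) (hq' : μ / 2 ≤ ‖q'‖)
    (h : ‖p / q‖ ≤ 1) : ‖p / q - p' / q'‖ ≤ 2 / μ * (‖p - p'‖ + ‖q - q'‖) := by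
  have h1 : 0 < ‖q‖ := by linarith
  have h2 : 0 < ‖q'‖ := by linarith
  have h3 : q ≠ 0 := norm_pos_iff.1 h1
  have h4 : q' ≠ 0 := norm_pos_iff.1 h2
  have e1 : p / q - p' / q' = (p / q * (q' - q) + (p - p')) / q' := by
    field_simp
    ring
  rw [e1, norm_div, div_le_iff₀ h2]
  have e2 : ‖p / q * (q' - q) + (p - p')‖ ≤ ‖p - p'‖ + ‖q - q'‖ := by
    refine (norm_add_le _ _).trans ?_
    rw [norm_mul, norm_sub_rev q' q]
    have : ‖p / q‖ * ‖q - q'‖ ≤ 1 * ‖q - q'‖ := mul_le_mul_of_nonneg_right h (norm_nonneg _)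
    linarith
  refine e2.trans ?_
  have e3 : 1 ≤ 2 / μ * ‖q'‖ := by
    rw [div_mul_eq_mul_div, le_div_iff₀ hμ]; linarith
  have e4 : 0 ≤ ‖p - p'‖ + ‖q - q'‖ := by positivity
  nlinarith

/-- Near a pair `(p₀, q₀)` whose quotient is off the unit circle everything is in one chart. -/
theorem chart_near {η μ : ℝ} (hη : 0 < η) (hμ : 0 < μ) {ε : ℝ}
    (hε : 4 * ε ≤ Real.exp (-(η / 2)) * (1 - Real.exp (-(η / 2))) * μ) (hε0 : 0 < ε)
    {p₀ q₀ : ℂ} (h : Good η p₀ q₀) (hmax : μ ≤ ‖p₀‖ ∨ μ ≤ ‖q₀‖) :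
    ∃ κ : Bool, (∀ p q : ℂ, ‖p - p₀‖ ≤ ε → ‖q - q₀‖ ≤ ε →
      pr p q = ch κ (co κ p q) ∧ ‖co κ p q‖ < Real.exp (-(η / 2))) ∧
      ∀ p q p' q' : ℂ, ‖p - p₀‖ ≤ ε → ‖q - q₀‖ ≤ ε → ‖p' - p₀‖ ≤ ε → ‖q' - q₀‖ ≤ ε →
        ‖co κ p q - co κ p' q'‖ ≤ 2 / μ * (‖p - p'‖ + ‖q - q'‖) := by
  have hexp : Real.exp (-η) ≤ 1 := by rw [Real.exp_le_one_iff]; linarith
  have hr1 : Real.exp (-(η / 2)) ≤ 1 := by rw [Real.exp_le_one_iff]; linarith
  rcases h with h | h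
  · have hq : μ ≤ ‖q₀‖ := by
      rcases hmax with h1 | h1
      · have : Real.exp (-η) * ‖q₀‖ ≤ 1 * ‖q₀‖ := mul_le_mul_of_nonneg_right hexp (norm_nonneg _)
        linarith
      · exact h1
    refine ⟨false, fun p q hp hq' => ?_, fun p q p' q' h1 h2 h3 h4 => ?_⟩
    · obtain ⟨k1, k2, k3⟩ := ratio_est hη hμ h hq hε hε0 hp hq'
      refine ⟨?_, by simpa [co] using k3⟩
      rw [pr_ne k1]; simp [ch, co]
    · obtain ⟨-, k2, k3⟩ := ratio_est hη hμ h hq hε hε0 h1 h2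
      obtain ⟨-, k5, -⟩ := ratio_est hη hμ h hq hε hε0 h3 h4
      simpa [co] using ratio_lip hμ k2 k5 (k3.le.trans hr1)
  · have hp : μ ≤ ‖p₀‖ := by
      rcases hmax with h1 | h1
      · exact h1
      · have : Real.exp (-η) * ‖p₀‖ ≤ 1 * ‖p₀‖ := mul_le_mul_of_nonneg_right hexp (norm_nonneg _)
        linarith
    refine ⟨true, fun p q hp' hq' => ?_, fun p q p' q' h1 h2 h3 h4 => ?_⟩
    · obtain ⟨k1, k2, k3⟩ := ratio_est hη hμ h hp hε hε0 hq' hp'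
      refine ⟨?_, by simpa [co] using k3⟩
      simp only [ch, co, if_true]
      rw [← pr_ne k1, sinv_pr (Or.inr k1)]
    · obtain ⟨-, k2, k3⟩ := ratio_est hη hμ h hp hε hε0 h2 h1
      obtain ⟨-, k5, -⟩ := ratio_est hη hμ h hp hε hε0 h4 h3
      have := ratio_lip (p' := q') hμ k2 k5 (k3.le.trans hr1)
      rw [add_comm] at this
      simpa [co] using this

end Pool.Agent.H462R2.AP
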