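import Pool.Agent.H462R2.AP1

/-!
# Maps `P(z ^ n) / Q(z ^ n)`: a criterion for hyperbolicity with marked values on the unit circle
-/

set_option autoImplicit false

open Set Filter Topology
open scoped OnePoint

namespace Pool.Agent.H462R2.AP

open Pool.Agent.H762R2.Rt Pool.Agent.Helper114.Herman Pool.Agent.Helper114.Konig

/-- The polynomial in the chart `i`. -/
noncomputable def cp (D : ℕ) (P : Polynomial ℂ) (i : Bool) : Polynomial ℂ :=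
  if i then ∑ k ∈ Finset.range (D + 1), Polynomial.C (P.coeff k) * Polynomial.X ^ (D - k) else P

theorem cp_false (D : ℕ) (P : Polynomial ℂ) : cp D P false = P := by simp [cp]

theorem eval_cp_true (D : ℕ) (P : Polynomial ℂ) (y : ℂ) : (cp D P true).eval y = hom P D 1 y := by
  simp [cp, hom, Polynomial.eval_finsetSum]

theorem eval_cp_true_zero (D : ℕ) (P : Polynomial ℂ) : (cp D P true).eval 0 = P.coeff D := by
  rw [eval_cp_true, hom_zero]; simp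

theorem lip_eval (A : Polynomial ℂ) : ∃ L : ℝ, 0 ≤ L ∧ ∀ y z : ℂ, ‖y‖ ≤ 3 → ‖z‖ ≤ 3 →
    ‖A.eval y - A.eval z‖ ≤ L * ‖y - z‖ := by
  obtain ⟨L, hL⟩ := (isCompact_closedBall (0 : ℂ) 3).exists_bound_of_continuousOn
    (f := fun y => (Polynomial.derivative A).eval y) (Polynomial.continuous _).continuousOn
  have hL0 : 0 ≤ L := (norm_nonneg _).trans (hL 0 (by simp))
  refine ⟨L, hL0, fun y z hy hz => ?_⟩
  have h := (convex_closedBall (0 : ℂ) 3).norm_image_sub_le_of_norm_deriv_le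
    (f := fun y => A.eval y) (C := L) (fun x _ => A.differentiableAt)
    (fun x hx => by rw [Polynomial.deriv]; exact hL x hx)
    (mem_closedBall_zero_iff.2 hz) (mem_closedBall_zero_iff.2 hy)
  exact h

theorem lip_all (D : ℕ) (P Q : Polynomial ℂ) : ∃ L : ℝ, 0 ≤ L ∧ ∀ i : Bool, ∀ y z : ℂ, ‖y‖ ≤ 3 →
    ‖z‖ ≤ 3 → ‖(cp D P i).eval y - (cp D P i).eval z‖ ≤ L * ‖y - z‖ ∧
      ‖(cp D Q i).eval y - (cp D Q i).eval z‖ ≤ L * ‖y - z‖ := by
  choose L h0 hL using fun A : Polynomial ℂ => lip_eval A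
  refine ⟨L (cp D P false) + L (cp D P true) + L (cp D Q false) + L (cp D Q true), ?_, ?_⟩
  · have := h0 (cp D P false); have := h0 (cp D P true)
    have := h0 (cp D Q false); have := h0 (cp D Q true)
    linarith
  · intro i y z hy hz
    have a1 := h0 (cp D P false); have a2 := h0 (cp D P true)
    have a3 := h0 (cp D Q false); have a4 := h0 (cp D Q true)
    have hn := norm_nonneg (y - z)
    have b1 := hL (cp D P i) y z hy hz
    have b2 := hL (cp D Q i) y z hy hz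
    cases i
    · exact ⟨b1.trans (mul_le_mul_of_nonneg_right (by linarith) hn),
        b2.trans (mul_le_mul_of_nonneg_right (by linarith) hn)⟩
    · exact ⟨b1.trans (mul_le_mul_of_nonneg_right (by linarith) hn),
        b2.trans (mul_le_mul_of_nonneg_right (by linarith) hn)⟩

theorem coprime_eval {P Q : Polynomial ℂ} (hc : IsCoprime P Q) (y : ℂ) :
    P.eval y ≠ 0 ∨ Q.eval y ≠ 0 := by
  by_contra h
  push Not at h
  obtain ⟨a, b, hab⟩ := hc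
  have := congrArg (Polynomial.eval y) hab
  simp [h.1, h.2] at this

theorem exists_mu {P Q : Polynomial ℂ} (hc : IsCoprime P Q) {D : ℕ}
    (hD : D = max P.natDegree Q.natDegree) (hD1 : 0 < D) : ∃ μ : ℝ, 0 < μ ∧
    (∀ i, μ ≤ ‖(cp D P i).eval 0‖ ∨ μ ≤ ‖(cp D Q i).eval 0‖) ∧
    (∀ u : ℂ, ‖u‖ = 1 → μ ≤ ‖P.eval u‖ ∨ μ ≤ ‖Q.eval u‖) := by
  obtain ⟨u₀, hu₀, hmin⟩ := (isCompact_sphere (0 : ℂ) 1).exists_isMinOn
    (NormedSpace.sphere_nonempty.2 zero_le_one)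
    (f := fun u : ℂ => max ‖P.eval u‖ ‖Q.eval u‖) (by fun_prop)
  have h1 : 0 < max ‖P.eval u₀‖ ‖Q.eval u₀‖ := by
    rcases coprime_eval hc u₀ with h | h
    · exact lt_max_of_lt_left (norm_pos_iff.2 h)
    · exact lt_max_of_lt_right (norm_pos_iff.2 h)
  have h2 : 0 < max ‖P.eval 0‖ ‖Q.eval 0‖ := by
    rcases coprime_eval hc 0 with h | h
    · exact lt_max_of_lt_left (norm_pos_iff.2 h)
    · exact lt_max_of_lt_right (norm_pos_iff.2 h)
  have h3 : 0 < max ‖P.coeff D‖ ‖Q.coeff D‖ := by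
    have h4 := hom_not_both hc hD (u := 1) (v := 0) (Or.inl one_ne_zero) hD1
    rw [hom_zero, hom_zero] at h4
    simp only [one_pow, mul_one] at h4
    rcases h4 with h | h
    · exact lt_max_of_lt_left (norm_pos_iff.2 h)
    · exact lt_max_of_lt_right (norm_pos_iff.2 h)
  refine ⟨min (max ‖P.eval u₀‖ ‖Q.eval u₀‖) (min (max ‖P.eval 0‖ ‖Q.eval 0‖)
    (max ‖P.coeff D‖ ‖Q.coeff D‖)), lt_min h1 (lt_min h2 h3), ?_, ?_⟩
  · intro i
    cases i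
    · rw [cp_false, cp_false, ← le_max_iff]
      exact (min_le_right _ _).trans (min_le_left _ _)
    · rw [eval_cp_true_zero, eval_cp_true_zero, ← le_max_iff]
      exact (min_le_right _ _).trans (min_le_right _ _)
  · intro u hu
    rw [← le_max_iff]
    exact (min_le_left _ _).trans (hmin (by simpa using hu))

theorem tendsto_t {r : ℝ} (hr0 : 0 < r) (hr1 : r < 1) :
    Tendsto (fun n : ℕ => (n : ℝ) ^ 2 * r ^ (n - 1)) atTop (𝓝 0) := by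
  have h1 := (tendsto_pow_const_mul_const_pow_of_lt_one 2 hr0.le hr1).const_mul r⁻¹
  rw [mul_zero] at h1
  refine h1.congr' ?_
  filter_upwards [eventually_ge_atTop 1] with n hn
  obtain ⟨m, rfl⟩ : ∃ m, n = m + 1 := ⟨n - 1, by omega⟩
  rw [Nat.add_sub_cancel, pow_succ r m]
  field_simp

/-- The condition on a marked value `p / q`. -/
def Cond (P Q : Polynomial ℂ) (η : ℝ) (n : ℕ) (p q : ℂ) : Prop :=
  Good η p q ∨ (‖p‖ = ‖q‖ ∧ Good η (P.eval ((p / q) ^ n)) (Q.eval ((p / q) ^ n)))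

theorem div_est {μ : ℝ} (hμ : 0 < μ) {p q : ℂ} (hq : μ / 2 ≤ ‖q‖) {p' q' : ℂ} (hq' : μ / 2 ≤ ‖q'‖) (h : ‖p / q‖ ≤ 2) :
    ‖p / q - p' / q'‖ ≤ 4 / μ * (‖p - p'‖ + ‖q - q'‖) := by
  have h1 : 0 < ‖q‖ := by linarith
  have h2 : 0 < ‖q'‖ := by linarith
  have h3 : q ≠ 0 := norm_pos_iff.1 h1
  have h4 : q' ≠ 0 := norm_pos_iff.1 h2
  have e1 : p / q - p' / q' = (p / q * (q' - q) + (p - p')) / q' := by
    field_simp
    ring
  rw [e1, norm_div, div_le_iff₀ h2]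
  have e2 : ‖p / q * (q' - q) + (p - p')‖ ≤ 2 * (‖p - p'‖ + ‖q - q'‖) := by
    refine (norm_add_le _ _).trans ?_
    rw [norm_mul, norm_sub_rev q' q]
    have : ‖p / q‖ * ‖q - q'‖ ≤ 2 * ‖q - q'‖ := mul_le_mul_of_nonneg_right h (norm_nonneg _)
    have := norm_nonneg (p - p')
    linarith
  refine e2.trans ?_
  have e3 : 2 ≤ 4 / μ * ‖q'‖ := by
    rw [div_mul_eq_mul_div, le_div_iff₀ hμ]; linarith
  have e4 : 0 ≤ ‖p - p'‖ + ‖q - q'‖ := by positivity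
  nlinarith

/-- One step (or two steps) from a chart: the conclusion. -/
def StepOK (P Q : Polynomial ℂ) (D : ℕ) (r : ℝ) (n : ℕ) (i : Bool) : Prop :=
  ∃ κ : Bool, ∃ h : ℂ → ℂ, (∀ x : ℂ, ‖x‖ ≤ r → ‖h x‖ < r) ∧
    (∀ x y : ℂ, ‖x‖ ≤ r → ‖y‖ ≤ r → ‖h x - h y‖ ≤ (1 / 2) * ‖x - y‖) ∧
    ((∀ x : ℂ, ‖x‖ ≤ r →
        pr ((cp D P i).eval (x ^ n)) ((cp D Q i).eval (x ^ n)) = ch κ (h x)) ∨
      (∀ x : ℂ, ‖x‖ ≤ r → (cp D Q i).eval (x ^ n) ≠ 0 ∧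
        pr (P.eval (((cp D P i).eval (x ^ n) / (cp D Q i).eval (x ^ n)) ^ n))
          (Q.eval (((cp D P i).eval (x ^ n) / (cp D Q i).eval (x ^ n)) ^ n)) = ch κ (h x)))

theorem step_ok {P Q : Polynomial ℂ} {D : ℕ} {L μ η ε r : ℝ} (hη : 0 < η) (hμ : 0 < μ)
    (hr : r = Real.exp (-(η / 2)))
    (hε : 4 * ε ≤ Real.exp (-(η / 2)) * (1 - Real.exp (-(η / 2))) * μ) (hε0 : 0 < ε) (hL0 : 0 ≤ L)
    (hL : ∀ i : Bool, ∀ y z : ℂ, ‖y‖ ≤ 3 → ‖z‖ ≤ 3 →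
      ‖(cp D P i).eval y - (cp D P i).eval z‖ ≤ L * ‖y - z‖ ∧
      ‖(cp D Q i).eval y - (cp D Q i).eval z‖ ≤ L * ‖y - z‖)
    {i : Bool} (hi : μ ≤ ‖(cp D P i).eval 0‖ ∨ μ ≤ ‖(cp D Q i).eval 0‖)
    (hu : ∀ u : ℂ, ‖u‖ = 1 → μ ≤ ‖P.eval u‖ ∨ μ ≤ ‖Q.eval u‖)
    {n : ℕ} (hn : 1 ≤ n) {t : ℝ} (ht : t = (n : ℝ) ^ 2 * r ^ (n - 1))
    (c1 : L * t ≤ ε) (c2 : L * t ≤ μ / 2) (c3 : 8 * L / μ * t ≤ 1)
    (c4 : L * (3 * (8 * L / μ)) * t ≤ ε) (c5 : 2 / μ * (2 * L) * t ≤ 1 / 2)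
    (c6 : 2 / μ * (2 * L) * (3 * (8 * L / μ)) * t ≤ 1 / 2)
    (hcond : Cond P Q η n ((cp D P i).eval 0) ((cp D Q i).eval 0)) :
    StepOK P Q D r n i := by
  have hn1 : (1 : ℝ) ≤ n := by exact_mod_cast hn
  have hn0 : (0 : ℝ) < n := by linarith
  have hr0 : 0 < r := by rw [hr]; exact Real.exp_pos _
  have hr1 : r < 1 := by rw [hr, Real.exp_lt_one_iff]; linarith
  have hpr : 0 < r ^ (n - 1) := by positivity
  have ht0 : 0 ≤ t := by rw [ht]; positivity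
  have ht1 : n * r ^ (n - 1) ≤ t := by rw [ht]; nlinarith
  have hrn : r ^ n ≤ r ^ (n - 1) := by
    apply pow_le_pow_of_le_one hr0.le hr1.le; omega
  have ht2 : n * r ^ n ≤ t := (mul_le_mul_of_nonneg_left hrn hn0.le).trans ht1
  have ht3 : r ^ n ≤ t := by
    have : r ^ n ≤ n * r ^ n := by nlinarith [pow_pos hr0 n]
    linarith
  have hxn : ∀ x : ℂ, ‖x‖ ≤ r → ‖x ^ n‖ ≤ r ^ n := by
    intro x hx; rw [norm_pow]; exact pow_le_pow_left₀ (norm_nonneg _) hx _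
  have hrn1 : r ^ n ≤ 1 := pow_le_one₀ hr0.le hr1.le
  have hx3 : ∀ x : ℂ, ‖x‖ ≤ r → ‖x ^ n‖ ≤ 3 := fun x hx => (hxn x hx).trans (by linarith)
  have hxlip : ∀ x y : ℂ, ‖x‖ ≤ r → ‖y‖ ≤ r → ‖x ^ n - y ^ n‖ ≤ n * r ^ (n - 1) * ‖x - y‖ :=
    fun x y hx hy => pow_lip hx hy n
  set A := cp D P i with hA
  set B := cp D Q i with hB
  have hA0 : ∀ x : ℂ, ‖x‖ ≤ r → ‖A.eval (x ^ n) - A.eval 0‖ ≤ L * r ^ n := by
    intro x hx
    have := (hL i (x ^ n) 0 (hx3 x hx) (by simp)).1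
    rw [sub_zero] at this
    exact this.trans (mul_le_mul_of_nonneg_left (hxn x hx) hL0)
  have hB0 : ∀ x : ℂ, ‖x‖ ≤ r → ‖B.eval (x ^ n) - B.eval 0‖ ≤ L * r ^ n := by
    intro x hx
    have := (hL i (x ^ n) 0 (hx3 x hx) (by simp)).2
    rw [sub_zero] at this
    exact this.trans (mul_le_mul_of_nonneg_left (hxn x hx) hL0)
  have hAl : ∀ x y : ℂ, ‖x‖ ≤ r → ‖y‖ ≤ r → ‖A.eval (x ^ n) - A.eval (y ^ n)‖ ≤
      L * (n * r ^ (n - 1) * ‖x - y‖) := fun x y hx hy =>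
    (hL i _ _ (hx3 x hx) (hx3 y hy)).1.trans (mul_le_mul_of_nonneg_left (hxlip x y hx hy) hL0)
  have hBl : ∀ x y : ℂ, ‖x‖ ≤ r → ‖y‖ ≤ r → ‖B.eval (x ^ n) - B.eval (y ^ n)‖ ≤
      L * (n * r ^ (n - 1) * ‖x - y‖) := fun x y hx hy =>
    (hL i _ _ (hx3 x hx) (hx3 y hy)).2.trans (mul_le_mul_of_nonneg_left (hxlip x y hx hy) hL0)
  have hLr : L * r ^ n ≤ L * t := mul_le_mul_of_nonneg_left ht3 hL0
  rcases hcond with hg | ⟨heq, hg⟩
  · -- the value at the centre is off the circle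
    obtain ⟨κ, hκ1, hκ2⟩ := chart_near hη hμ hε hε0 hg hi
    have hpε : ∀ x : ℂ, ‖x‖ ≤ r → ‖A.eval (x ^ n) - A.eval 0‖ ≤ ε := fun x hx =>
      (hA0 x hx).trans (hLr.trans c1)
    have hqε : ∀ x : ℂ, ‖x‖ ≤ r → ‖B.eval (x ^ n) - B.eval 0‖ ≤ ε := fun x hx =>
      (hB0 x hx).trans (hLr.trans c1)
    refine ⟨κ, fun x => co κ (A.eval (x ^ n)) (B.eval (x ^ n)), ?_, ?_, Or.inl ?_⟩
    · intro x hx
      rw [hr]
      exact (hκ1 _ _ (hpε x hx) (hqε x hx)).2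
    · intro x y hx hy
      refine (hκ2 _ _ _ _ (hpε x hx) (hqε x hx) (hpε y hy) (hqε y hy)).trans ?_
      calc 2 / μ * (‖A.eval (x ^ n) - A.eval (y ^ n)‖ + ‖B.eval (x ^ n) - B.eval (y ^ n)‖)
          ≤ 2 / μ * (L * (n * r ^ (n - 1) * ‖x - y‖) + L * (n * r ^ (n - 1) * ‖x - y‖)) := by
            gcongr
            · exact hAl x y hx hy
            · exact hBl x y hx hy
        _ = 2 / μ * (2 * L) * (n * r ^ (n - 1)) * ‖x - y‖ := by ring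
        _ ≤ 2 / μ * (2 * L) * t * ‖x - y‖ := by gcongr
        _ ≤ 1 / 2 * ‖x - y‖ := by gcongr
    · intro x hx
      exact (hκ1 _ _ (hpε x hx) (hqε x hx)).1
  · -- the value at the centre is on the circle
    have hq0 : μ ≤ ‖B.eval 0‖ := by
      rcases hi with h | h
      · rw [← heq]; exact h
      · exact h
    have hp0 : μ ≤ ‖A.eval 0‖ := by rw [heq]; exact hq0
    set v₀ := A.eval 0 / B.eval 0 with hv₀
    have hv₀n : ‖v₀‖ = 1 := by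
      rw [hv₀, norm_div, heq, div_self]
      linarith
    have hBlow : ∀ x : ℂ, ‖x‖ ≤ r → μ / 2 ≤ ‖B.eval (x ^ n)‖ := by
      intro x hx
      have h1 := hB0 x hx
      have h2 := norm_sub_norm_le (B.eval 0) (B.eval (x ^ n))
      rw [norm_sub_rev] at h2
      linarith
    set v : ℂ → ℂ := fun x => A.eval (x ^ n) / B.eval (x ^ n) with hv
    have hvv₀ : ∀ x : ℂ, ‖x‖ ≤ r → ‖v x - v₀‖ ≤ 8 * L / μ * r ^ n := by
      intro x hx
      have h1 := div_est hμ (p := A.eval 0) (q := B.eval 0) (p' := A.eval (x ^ n))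
        (q' := B.eval (x ^ n)) (by linarith) (hBlow x hx) (by rw [← hv₀, hv₀n]; norm_num)
      rw [← hv₀, norm_sub_rev, norm_sub_rev (A.eval 0), norm_sub_rev (B.eval 0)] at h1
      calc ‖v x - v₀‖ ≤ 4 / μ * (‖A.eval (x ^ n) - A.eval 0‖ + ‖B.eval (x ^ n) - B.eval 0‖) := h1
        _ ≤ 4 / μ * (L * r ^ n + L * r ^ n) := by
            gcongr
            · exact hA0 x hx
            · exact hB0 x hx
        _ = _ := by ring
    have hsmall : 8 * L / μ * r ^ n ≤ 1 / n := by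
      rw [le_div_iff₀ hn0]
      calc 8 * L / μ * r ^ n * n = 8 * L / μ * (n * r ^ n) := by ring
        _ ≤ 8 * L / μ * t := by gcongr
        _ ≤ 1 := c3
    have hvn : ∀ x : ℂ, ‖x‖ ≤ r → ‖v x‖ ≤ 1 + 1 / n := by
      intro x hx
      have h1 := hvv₀ x hx
      have h2 := norm_sub_norm_le (v x) v₀
      linarith
    have hone_n : 1 / (n : ℝ) ≤ 1 := by rw [div_le_one hn0]; exact hn1
    have hpowe : (1 + 1 / (n : ℝ)) ^ n ≤ 3 := by
      have h1 : 1 + 1 / (n : ℝ) ≤ Real.exp (1 / n) := by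
        have := Real.add_one_le_exp (1 / (n : ℝ)); linarith
      have he : Real.exp 1 < 2.7182818286 := Real.exp_one_lt_d9
      calc (1 + 1 / (n : ℝ)) ^ n ≤ Real.exp (1 / n) ^ n := by gcongr
        _ = Real.exp 1 := by
            rw [← Real.exp_nat_mul]
            congr 1
            field_simp
        _ ≤ 3 := by linarith
    have hpowe' : (1 + 1 / (n : ℝ)) ^ (n - 1) ≤ 3 := by
      refine le_trans ?_ hpowe
      apply pow_le_pow_right₀ _ (Nat.sub_le n 1)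
      have : 0 ≤ 1 / (n : ℝ) := by positivity
      linarith
    have hvn3 : ∀ x : ℂ, ‖x‖ ≤ r → ‖v x ^ n‖ ≤ 3 := by
      intro x hx
      rw [norm_pow]
      exact (pow_le_pow_left₀ (norm_nonneg _) (hvn x hx) n).trans hpowe
    have hv₀n3 : ‖v₀ ^ n‖ = 1 := by rw [norm_pow, hv₀n, one_pow]
    have hvpow : ∀ a b : ℂ, ‖a‖ ≤ 1 + 1 / (n : ℝ) → ‖b‖ ≤ 1 + 1 / (n : ℝ) →
        ‖a ^ n - b ^ n‖ ≤ 3 * n * ‖a - b‖ := by
      intro a b ha hb
      refine (pow_lip ha hb n).trans ?_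
      have : (n : ℝ) * (1 + 1 / (n : ℝ)) ^ (n - 1) ≤ n * 3 := by gcongr
      calc (n : ℝ) * (1 + 1 / (n : ℝ)) ^ (n - 1) * ‖a - b‖ ≤ n * 3 * ‖a - b‖ := by gcongr
        _ = _ := by ring
    have hv₀le : ‖v₀‖ ≤ 1 + 1 / (n : ℝ) := by
      rw [hv₀n]
      have : 0 ≤ 1 / (n : ℝ) := by positivity
      linarith
    have hvlip : ∀ x y : ℂ, ‖x‖ ≤ r → ‖y‖ ≤ r → ‖v x - v y‖ ≤
        8 * L / μ * (n * r ^ (n - 1) * ‖x - y‖) := by
      intro x y hx hy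
      have h1 := div_est hμ (p := A.eval (x ^ n)) (q := B.eval (x ^ n))
        (p' := A.eval (y ^ n)) (q' := B.eval (y ^ n)) (hBlow x hx) (hBlow y hy)
        ((hvn x hx).trans (by linarith))
      calc ‖v x - v y‖ ≤ 4 / μ * (‖A.eval (x ^ n) - A.eval (y ^ n)‖ +
            ‖B.eval (x ^ n) - B.eval (y ^ n)‖) := h1
        _ ≤ 4 / μ * (L * (n * r ^ (n - 1) * ‖x - y‖) + L * (n * r ^ (n - 1) * ‖x - y‖)) := by
            gcongr
            · exact hAl x y hx hy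
            · exact hBl x y hx hy
        _ = _ := by ring
    -- the second step
    have hPlip : ∀ a b : ℂ, ‖a‖ ≤ 3 → ‖b‖ ≤ 3 → ‖P.eval a - P.eval b‖ ≤ L * ‖a - b‖ ∧
        ‖Q.eval a - Q.eval b‖ ≤ L * ‖a - b‖ := by
      intro a b ha hb
      have := hL false a b ha hb
      rwa [cp_false, cp_false] at this
    have hK : 0 ≤ 8 * L / μ := by positivity
    have hdist : ∀ x : ℂ, ‖x‖ ≤ r → L * ‖v x ^ n - v₀ ^ n‖ ≤ ε := by
      intro x hx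
      calc L * ‖v x ^ n - v₀ ^ n‖ ≤ L * (3 * n * ‖v x - v₀‖) := by
            gcongr; exact hvpow _ _ (hvn x hx) hv₀le
        _ ≤ L * (3 * n * (8 * L / μ * r ^ n)) := by
            gcongr; exact hvv₀ x hx
        _ = L * (3 * (8 * L / μ)) * (n * r ^ n) := by ring
        _ ≤ L * (3 * (8 * L / μ)) * t := by gcongr
        _ ≤ ε := c4
    have hlip2 : ∀ x y : ℂ, ‖x‖ ≤ r → ‖y‖ ≤ r → L * ‖v x ^ n - v y ^ n‖ ≤
        L * (3 * (8 * L / μ)) * t * ‖x - y‖ := by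
      intro x y hx hy
      calc L * ‖v x ^ n - v y ^ n‖ ≤ L * (3 * n * ‖v x - v y‖) := by
            gcongr; exact hvpow _ _ (hvn x hx) (hvn y hy)
        _ ≤ L * (3 * n * (8 * L / μ * (n * r ^ (n - 1) * ‖x - y‖))) := by
            gcongr; exact hvlip x y hx hy
        _ = L * (3 * (8 * L / μ)) * (n ^ 2 * r ^ (n - 1)) * ‖x - y‖ := by ring
        _ = L * (3 * (8 * L / μ)) * t * ‖x - y‖ := by rw [ht]
    obtain ⟨κ, hκ1, hκ2⟩ := chart_near hη hμ hε hε0 hg (hu _ hv₀n3)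
    have hv₀3 : ‖v₀ ^ n‖ ≤ 3 := by rw [hv₀n3]; norm_num
    have hpε : ∀ x : ℂ, ‖x‖ ≤ r → ‖P.eval (v x ^ n) - P.eval (v₀ ^ n)‖ ≤ ε := fun x hx =>
      (hPlip _ _ (hvn3 x hx) hv₀3).1.trans (hdist x hx)
    have hqε : ∀ x : ℂ, ‖x‖ ≤ r → ‖Q.eval (v x ^ n) - Q.eval (v₀ ^ n)‖ ≤ ε := fun x hx =>
      (hPlip _ _ (hvn3 x hx) hv₀3).2.trans (hdist x hx)
    refine ⟨κ, fun x => co κ (P.eval (v x ^ n)) (Q.eval (v x ^ n)), ?_, ?_, Or.inr ?_⟩
    · intro x hx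
      rw [hr]
      exact (hκ1 _ _ (hpε x hx) (hqε x hx)).2
    · intro x y hx hy
      refine (hκ2 _ _ _ _ (hpε x hx) (hqε x hx) (hpε y hy) (hqε y hy)).trans ?_
      have h1 := hPlip _ _ (hvn3 x hx) (hvn3 y hy)
      calc 2 / μ * (‖P.eval (v x ^ n) - P.eval (v y ^ n)‖ + ‖Q.eval (v x ^ n) - Q.eval (v y ^ n)‖)
          ≤ 2 / μ * (L * ‖v x ^ n - v y ^ n‖ + L * ‖v x ^ n - v y ^ n‖) := by
            gcongr
            · exact h1.1
            · exact h1.2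
        _ = 2 / μ * 2 * (L * ‖v x ^ n - v y ^ n‖) := by ring
        _ ≤ 2 / μ * 2 * (L * (3 * (8 * L / μ)) * t * ‖x - y‖) :=
            mul_le_mul_of_nonneg_left (hlip2 x y hx hy) (by positivity)
        _ = 2 / μ * (2 * L) * (3 * (8 * L / μ)) * t * ‖x - y‖ := by ring
        _ ≤ 1 / 2 * ‖x - y‖ := by gcongr
    · intro x hx
      have h1 := hBlow x hx
      refine ⟨norm_pos_iff.1 (by linarith), ?_⟩
      exact (hκ1 _ _ (hpε x hx) (hqε x hx)).1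

end Pool.Agent.H462R2.AP
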