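import Pool.Agent.H462R2.AP2

/-!
# Maps `P(z ^ n) / Q(z ^ n)`: hyperbolicity
-/

set_option autoImplicit false

open Set Filter Topology
open scoped OnePoint

namespace Pool.Agent.H462R2.AP

open Pool.Agent.H762R2.Rt Pool.Agent.Helper114.Herman Pool.Agent.Helper114.Konig

theorem hom_expand' {P : Polynomial ℂ} {D n : ℕ} (hn : 0 < n) (hP : P.natDegree ≤ D) (u v : ℂ)
    (h : v ≠ 0 ∨ u = 1 ∧ v = 0) :
    hom (Polynomial.expand ℂ n P) (D * n) u v = hom P D (u ^ n) (v ^ n) := by
  have := hom_expand hn hP 1 u v h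
  rwa [Polynomial.C_1, one_mul, one_mul] at this

/-- The map on the charts. -/
theorem map_ch {P Q : Polynomial ℂ} {D n : ℕ} (hD : D = max P.natDegree Q.natDegree)
    (hD1 : 0 < D) (hn : 0 < n) {f : OnePoint ℂ → OnePoint ℂ}
    (hf : IsRat f (Polynomial.expand ℂ n P) (Polynomial.expand ℂ n Q)) (i : Bool) (x : ℂ) :
    f (ch i x) = pr ((cp D P i).eval (x ^ n)) ((cp D Q i).eval (x ^ n)) := by
  have hPd : P.natDegree ≤ D := hD ▸ le_max_left _ _
  have hQd : Q.natDegree ≤ D := hD ▸ le_max_right _ _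
  have hdeg : D * n = max (Polynomial.expand ℂ n P).natDegree
      (Polynomial.expand ℂ n Q).natDegree := by
    rw [Polynomial.natDegree_expand, Polynomial.natDegree_expand,
      hD, max_mul_of_nonneg _ _ (Nat.zero_le n)]
  have hDn : 0 < D * n := Nat.mul_pos hD1 hn
  cases i
  · have e1 : ch false x = pr x 1 := by rw [ch_false, pr_one]
    rw [e1, rat_formula hf hdeg hDn (Or.inr one_ne_zero),
      hom_expand' hn hPd x 1 (Or.inl one_ne_zero), hom_expand' hn hQd x 1 (Or.inl one_ne_zero),
      one_pow, cp_false, cp_false, hom_ne hPd one_ne_zero, hom_ne hQd one_ne_zero]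
    simp
  · have e1 : ch true x = pr 1 x := by
      simp only [ch_true]
      rw [← pr_one x, sinv_pr (Or.inr one_ne_zero)]
    have hx : x ≠ 0 ∨ (1 : ℂ) = 1 ∧ x = 0 := by
      by_cases h : x = 0
      · exact Or.inr ⟨rfl, h⟩
      · exact Or.inl h
    rw [e1, rat_formula hf hdeg hDn (Or.inl one_ne_zero),
      hom_expand' hn hPd 1 x hx, hom_expand' hn hQd 1 x hx, one_pow, eval_cp_true, eval_cp_true]

/-- The maps `P(z ^ n) / Q(z ^ n)` for which every marked value is off the unit circle or has its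
image off the unit circle are hyperbolic, for all large `n`. -/
theorem hyp_of_cond {P Q : Polynomial ℂ} (hc : IsCoprime P Q) {D : ℕ}
    (hD : D = max P.natDegree Q.natDegree) (hD1 : 0 < D) {η : ℝ} (hη : 0 < η) :
    ∃ n₀ : ℕ, ∀ n : ℕ, n₀ ≤ n →
      (∀ i : Bool, Cond P Q η n ((cp D P i).eval 0) ((cp D Q i).eval 0)) →
      (∀ y : ℂ, (wro P Q).eval y = 0 → Cond P Q η n (P.eval y) (Q.eval y)) →
      Hyp (Polynomial.expand ℂ n P) (Polynomial.expand ℂ n Q) := by
  obtain ⟨μ, hμ, hi, hu⟩ := exists_mu hc hD hD1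
  obtain ⟨L, hL0, hL⟩ := lip_all D P Q
  set r := Real.exp (-(η / 2)) with hr
  have hr0 : 0 < r := Real.exp_pos _
  have hr1 : r < 1 := by rw [hr, Real.exp_lt_one_iff]; linarith
  set ε : ℝ := r * (1 - r) * μ / 4 with hεdef
  have hε0 : 0 < ε := by
    have : 0 < 1 - r := by linarith
    positivity
  have hε : 4 * ε ≤ Real.exp (-(η / 2)) * (1 - Real.exp (-(η / 2))) * μ := by
    rw [hεdef, ← hr]; linarith
  have ht := tendsto_t hr0 hr1
  have hev : ∀ K c : ℝ, 0 < c → ∀ᶠ n : ℕ in atTop, K * ((n : ℝ) ^ 2 * r ^ (n - 1)) ≤ c := by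
    intro K c hc
    have h1 := ht.const_mul K
    rw [mul_zero] at h1
    exact (h1.eventually_lt_const hc).mono fun n hn => hn.le
  have hall := (hev L ε hε0).and ((hev L (μ / 2) (by positivity)).and
    ((hev (8 * L / μ) 1 one_pos).and ((hev (L * (3 * (8 * L / μ))) ε hε0).and
    ((hev (2 / μ * (2 * L)) (1 / 2) (by norm_num)).and
    ((hev (2 / μ * (2 * L) * (3 * (8 * L / μ))) (1 / 2) (by norm_num)).and
    (eventually_ge_atTop 1))))))
  obtain ⟨n₀, hn₀⟩ := eventually_atTop.1 hall
  refine ⟨n₀, fun n hn hcen hcrit => ?_⟩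
  obtain ⟨c1, c2, c3, c4, c5, c6, hn1⟩ := hn₀ n hn
  have hn0 : 0 < n := hn1
  have hQ0 : Q ≠ 0 := by
    rintro rfl
    have h1 := hi false
    rw [cp_false, cp_false] at h1
    have h2 : IsUnit P := isCoprime_zero_right.1 hc
    have h3 : P.natDegree = 0 := Polynomial.natDegree_eq_zero_of_isUnit h2
    rw [h3] at hD
    simp at hD
    omega
  have hcop : IsCoprime (Polynomial.expand ℂ n P) (Polynomial.expand ℂ n Q) := hc.map _
  have hQe : Polynomial.expand ℂ n Q ≠ 0 := (Polynomial.expand_ne_zero hn0).2 hQ0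
  obtain ⟨f, hf, -⟩ := exists_isRat hcop hQe
  refine ⟨hcop, f, hf.cont, hf.eval, ?_⟩
  have hfψ := map_ch hD hD1 hn0 hf
  have hstep : ∀ i, StepOK P Q D r n i := fun i =>
    step_ok hη hμ hr hε hε0 hL0 hL (hi i) hu hn1 rfl c1 c2 c3 c4 c5 c6 (hcen i)
  choose κ h hm hl hor using hstep
  have hconj : ∀ i, ∃ τ : ℕ, 0 < τ ∧ ∀ x : ℂ, ‖x‖ ≤ r → f^[τ] (ch i x) = ch (κ i) (h i x) := by
    intro i
    rcases hor i with h1 | h1
    · refine ⟨1, one_pos, fun x hx => ?_⟩
      rw [Function.iterate_one, hfψ, h1 x hx]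
    · refine ⟨2, two_pos, fun x hx => ?_⟩
      obtain ⟨h2, h3⟩ := h1 x hx
      have h4 := hfψ false ((cp D P i).eval (x ^ n) / (cp D Q i).eval (x ^ n))
      rw [cp_false, cp_false, h3, ch_false] at h4
      rw [Function.iterate_succ_apply, Function.iterate_one, hfψ, pr_ne h2]
      exact h4
  choose τ hτ0 hτ using hconj
  have hS : ∀ i x, ‖x‖ ≤ r → Sinks f (ch i x) := fun i x hx =>
    two_charts' hf.cont hr0 hτ0 continuous_ch isOpenMap_ch hτ hm hl hx
  -- a point whose value is `p / q` with the condition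
  have hval : ∀ p q : ℂ, (p ≠ 0 ∨ q ≠ 0) → Cond P Q η n p q → Sinks f (pr p q) := by
    have hgood : ∀ p q : ℂ, (p ≠ 0 ∨ q ≠ 0) → Good η p q → Sinks f (pr p q) := by
      intro p q hpq hg
      have hexp : Real.exp (-η) ≤ r := by rw [hr, Real.exp_le_exp]; linarith
      rcases hg with hg | hg
      · have hq : q ≠ 0 := by
          rintro rfl
          rw [norm_zero, mul_zero] at hg
          exact hpq.elim (fun h => h (norm_le_zero_iff.1 hg)) (fun h => h rfl)
        have hq' : 0 < ‖q‖ := norm_pos_iff.2 hq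
        have := hS false (p / q) (by
          rw [norm_div, div_le_iff₀ hq']
          exact hg.trans (mul_le_mul_of_nonneg_right hexp hq'.le))
        rw [ch_false] at this
        rw [pr_ne hq]
        exact this
      · have hp : p ≠ 0 := by
          rintro rfl
          rw [norm_zero, mul_zero] at hg
          exact hpq.elim (fun h => h rfl) (fun h => h (norm_le_zero_iff.1 hg))
        have hp' : 0 < ‖p‖ := norm_pos_iff.2 hp
        have := hS true (q / p) (by
          rw [norm_div, div_le_iff₀ hp']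
          exact hg.trans (mul_le_mul_of_nonneg_right hexp hp'.le))
        simp only [ch_true] at this
        rwa [← pr_ne hp, sinv_pr (Or.inr hp)] at this
    intro p q hpq hcd
    rcases hcd with hg | ⟨heq, hg⟩
    · exact hgood p q hpq hg
    · have hq : q ≠ 0 := by
        rintro rfl
        rw [norm_zero, norm_eq_zero] at heq
        exact hpq.elim (fun h => h heq) (fun h => h rfl)
      have h1 := hgood _ _ (coprime_eval hc ((p / q) ^ n)) hg
      apply sinks_of_image hf.cont
      have h4 := hfψ false (p / q)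
      rw [cp_false, cp_false, ch_false] at h4
      rw [pr_ne hq]
      simp only at h4
      rw [h4]
      exact h1
  intro c hnot
  induction c using OnePoint.rec with
  | infty =>
    have e1 : ch true 0 = ∞ := by simp [ch, sinv_zero]
    rw [← e1]
    exact hS true 0 (by simp [hr0.le])
  | coe z =>
    by_cases hz : z = 0
    · subst hz
      have := hS false 0 (by simp [hr0.le])
      rwa [ch_false] at this
    have hfz : f (z : OnePoint ℂ) = pr (P.eval (z ^ n)) (Q.eval (z ^ n)) := by
      have h4 := hfψ false z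
      rw [cp_false, cp_false, ch_false] at h4
      exact h4
    by_cases hq : Q.eval (z ^ n) = 0
    · apply sinks_of_image hf.cont
      rw [hfz, hq, pr_zero]
      have e1 : ch true 0 = ∞ := by simp [ch, sinv_zero]
      rw [← e1]
      exact hS true 0 (by simp [hr0.le])
    by_cases hW : (wro P Q).eval (z ^ n) = 0
    · apply sinks_of_image hf.cont
      rw [hfz]
      exact hval _ _ (Or.inr hq) (hcrit _ hW)
    · exfalso
      apply hnot
      set P' := Polynomial.expand ℂ n P with hP'
      set Q' := Polynomial.expand ℂ n Q with hQ'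
      have hQ'z : Q'.eval z ≠ 0 := by rwa [hQ', Polynomial.expand_eval]
      have hder := (P'.hasStrictDerivAt z).fun_div (Q'.hasStrictDerivAt z) hQ'z
      have hne : (P'.derivative.eval z * Q'.eval z - P'.eval z * Q'.derivative.eval z) /
          (Q'.eval z) ^ 2 ≠ 0 := by
        apply div_ne_zero _ (pow_ne_zero _ hQ'z)
        have e1 : P'.derivative.eval z * Q'.eval z - P'.eval z * Q'.derivative.eval z =
            (n * z ^ (n - 1)) * (wro P Q).eval (z ^ n) := by
          rw [hP', hQ', Polynomial.derivative_expand,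
            Polynomial.derivative_expand, wro]
          simp only [Polynomial.eval_mul, Polynomial.expand_eval,
            Polynomial.eval_sub, Polynomial.eval_pow, Polynomial.eval_X, Polynomial.eval_natCast]
          ring
        rw [e1]
        have hnc : (n : ℂ) ≠ 0 := by exact_mod_cast hn0.ne'
        exact mul_ne_zero (mul_ne_zero hnc (pow_ne_zero _ hz)) hW
      obtain ⟨U, hU, hinj⟩ := injOn_of_deriv hder hne
      have hUQ : {x : ℂ | Q'.eval x ≠ 0} ∈ 𝓝 z :=
        (isOpen_ne_fun Q'.continuous continuous_const).mem_nhds hQ'z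
      refine ⟨(fun x : ℂ => (x : OnePoint ℂ)) '' (U ∩ {x : ℂ | Q'.eval x ≠ 0}), ?_, ?_⟩
      · exact (OnePoint.isOpenEmbedding_coe (X := ℂ)).isOpenMap.image_mem_nhds
          (inter_mem hU hUQ)
      · rintro _ ⟨x, ⟨hx, hxQ⟩, rfl⟩ _ ⟨y, ⟨hy, hyQ⟩, rfl⟩ hxy
        simp only at hxy
        rw [hf.eval x hxQ, hf.eval y hyQ, OnePoint.coe_eq_coe] at hxy
        rw [hinj hx hy hxy]

end Pool.Agent.H462R2.AP
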