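import Pool.Agent.H462R2.AE2

/-!
# Coarse density of hyperbolicity to all orders
-/

set_option autoImplicit false
open Complex Metric Set Filter Topology
open N62a1eb23

namespace Pool.Agent.H462R2.CD

open Pool.Agent.H712R2 Pool.Agent.H713R2 Pool.Agent.H713R2.AR
open Pool.Agent.H749R2.Hyp (t_le_two not_mem_of_gt fixed_of_contr log_schwarz one_add_div_pow_le
  differentiable_f deriv_f)
open Pool.Agent.H462R2.AD (hyp)

/-- `z ↦ z ^ n + c`. -/
def F (n : ℕ) (c : ℂ) : ℂ → ℂ := fun z => z ^ n + c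

theorem F_diff (n : ℕ) (c : ℂ) : Differentiable ℂ (F n c) := by
  unfold F; fun_prop

theorem F_deriv (n : ℕ) (c z : ℂ) : deriv (F n c) z = n * z ^ (n - 1) :=
  ((hasDerivAt_pow n z).add_const c).deriv

theorem pow_le_two {n : ℕ} (hn : 2 ≤ n) {c : ℂ} (hc : c ∈ multibrotSet n) (k : ℕ) :
    ‖P n k c‖ ^ (n - 1) ≤ 2 := by
  by_contra h
  push Not at h
  rcases le_or_gt ‖c‖ ‖P n k c‖ with h1 | h1
  · exact not_mem_of_gt hn (c := c) (z := P n k c) (k := k) rfl h1 h hc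
  · have h2 := t_le_two hn hc
    have h3 : ‖P n k c‖ ^ (n - 1) ≤ ‖c‖ ^ (n - 1) := pow_le_pow_left₀ (norm_nonneg _) h1.le _
    linarith

theorem pow15 {n : ℕ} (hn : 4 ≤ n) {x : ℝ} (hx0 : 0 ≤ x) (hx : x ^ (n - 1) ≤ 2) :
    (x + 1 / n) ^ (n - 1) ≤ 15 := by
  have hn' : (4:ℝ) ≤ n := by exact_mod_cast hn
  have hn0 : (0:ℝ) < n := by linarith
  have h4 : 1 / (n:ℝ) ≤ 1 / 4 := one_div_le_one_div_of_le (by norm_num) hn'
  rcases le_or_gt (1 / 2) x with h | h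
  · have h1 : x + 1 / n ≤ x * (1 + 2 / n) := by
      have : 1 / (n:ℝ) ≤ x * (2 / n) := by
        calc 1 / (n:ℝ) = 1 / 2 * (2 / n) := by ring
          _ ≤ x * (2 / n) := by gcongr
      linarith
    have h2 := one_add_div_pow_le (n := n) (θ := 2) (by omega) (by norm_num) (Nat.sub_le n 1)
    have h3 : Real.exp 2 ≤ 7.4 := by
      have h6 : Real.exp 2 = (Real.exp 1) ^ 2 := by rw [← Real.exp_nat_mul]; norm_num
      have he : Real.exp 1 < 2.7182818286 := Real.exp_one_lt_d9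
      rw [h6]
      calc (Real.exp 1) ^ 2 ≤ 2.7182818286 ^ 2 := by gcongr
        _ ≤ 7.4 := by norm_num
    calc (x + 1 / n) ^ (n - 1) ≤ (x * (1 + 2 / n)) ^ (n - 1) := by gcongr
      _ = x ^ (n - 1) * (1 + 2 / (n:ℝ)) ^ (n - 1) := mul_pow _ _ _
      _ ≤ 2 * 7.4 := by gcongr; exact h2.trans h3
      _ ≤ 15 := by norm_num
  · have h1 : x + 1 / n ≤ 1 := by linarith
    have : (x + 1 / n) ^ (n - 1) ≤ 1 := pow_le_one₀ (by positivity) h1
    linarith

/-- One step along the critical orbit. -/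
theorem step {n : ℕ} (hn : 4 ≤ n) {c w z : ℂ} {ρ : ℝ} (hw : ‖w‖ ^ (n - 1) ≤ 2)
    (hz : ‖z - w‖ ≤ ρ) (hρ : ρ ≤ 1 / n) :
    ‖F n c z - F n c w‖ ≤ 15 * n * ρ ∧ ‖deriv (F n c) z‖ ≤ 15 * n := by
  have hn0 : (0:ℝ) < n := by exact_mod_cast (by omega : 0 < n)
  have hz1 : ‖z‖ ≤ ‖w‖ + 1 / n := by
    have := norm_sub_norm_le z w
    linarith
  have hw1 : ‖w‖ ≤ ‖w‖ + 1 / n := by
    have : 0 ≤ 1 / (n:ℝ) := by positivity
    linarith
  have h15 := pow15 hn (norm_nonneg w) hw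
  constructor
  · have h1 : F n c z - F n c w = z ^ n - w ^ n := by unfold F; ring
    rw [h1]
    refine (Pool.Agent.H762R2.Rt.pow_lip hz1 hw1 n).trans ?_
    calc (n:ℝ) * (‖w‖ + 1 / n) ^ (n - 1) * ‖z - w‖ ≤ n * 15 * ρ := by gcongr
      _ = _ := by ring
  · rw [F_deriv, norm_mul, norm_pow, Complex.norm_natCast]
    calc (n:ℝ) * ‖z‖ ^ (n - 1) ≤ n * (‖w‖ + 1 / n) ^ (n - 1) := by gcongr
      _ ≤ n * 15 := by gcongr
      _ = _ := by ring

/-- A small disc about the critical value follows the critical orbit for `k` steps. -/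
theorem follow {n : ℕ} (hn : 4 ≤ n) {c : ℂ} (hc : c ∈ multibrotSet n) {k : ℕ} {ε : ℝ}
    (hε : (15 * (n:ℝ)) ^ k * ε ≤ 1 / n) (hε0 : 0 ≤ ε) {z : ℂ} (hz : ‖z - c‖ ≤ ε) :
    ∀ j ≤ k, ‖(F n c)^[j] z - P n (j + 1) c‖ ≤ (15 * n) ^ j * ε ∧
      ‖deriv (F n c)^[j] z‖ ≤ (15 * n) ^ j := by
  have hn1 : (1:ℝ) ≤ 15 * n := by
    have : (4:ℝ) ≤ n := by exact_mod_cast hn
    linarith
  intro j
  induction j with
  | zero =>
    intro _
    rw [Function.iterate_zero, zero_add, P_one (by omega), pow_zero, one_mul]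
    exact ⟨hz, by simp⟩
  | succ j ih =>
    intro hj
    obtain ⟨h1, h2⟩ := ih (by omega)
    have h3 : (15 * (n:ℝ)) ^ j * ε ≤ 1 / n := by
      refine le_trans ?_ hε
      gcongr
      omega
    obtain ⟨h4, h5⟩ := step hn (c := c) (pow_le_two (by omega) hc (j + 1)) h1 h3
    constructor
    · rw [Function.iterate_succ_apply', P_succ]
      calc ‖F n c ((F n c)^[j] z) - (P n (j + 1) c ^ n + c)‖ ≤ 15 * n * ((15 * n) ^ j * ε) := h4
        _ = _ := by ring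
    · rw [Function.iterate_succ', deriv_comp _ (F_diff n c _) (((F_diff n c).iterate j) z),
        norm_mul, pow_succ, mul_comm ((15 * (n:ℝ)) ^ j)]
      gcongr

end Pool.Agent.H462R2.CD
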