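import Pool.Agent.H462R2.CD1

/-!
# Coarse density of hyperbolicity to all orders: the estimates
-/

set_option autoImplicit false
open Complex Metric Set Filter Topology
open N62a1eb23

namespace Pool.Agent.H462R2.CD

open Pool.Agent.H712R2 Pool.Agent.H713R2 Pool.Agent.H713R2.AR
open Pool.Agent.H749R2.Hyp (t_le_two not_mem_of_gt fixed_of_contr log_schwarz one_add_div_pow_le
  differentiable_f deriv_f)
open Pool.Agent.H462R2.AD (hyp)

/-- The threshold: `m ^ (n - 1) = n ^ (-(k + 3))`. -/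
noncomputable def thr (n k : ℕ) : ℝ := Real.exp (-((k + 3 : ℕ) * Real.log n / (n - 1 : ℕ)))

theorem thr_pos (n k : ℕ) : 0 < thr n k := Real.exp_pos _

theorem thr_pow {n : ℕ} (hn : 2 ≤ n) (k : ℕ) : thr n k ^ (n - 1) = 1 / (n:ℝ) ^ (k + 3) := by
  have hn0 : (0:ℝ) < n := by exact_mod_cast (by omega : 0 < n)
  have hn1 : ((n - 1 : ℕ) : ℝ) ≠ 0 := by
    have : 0 < n - 1 := by omega
    positivity
  unfold thr
  rw [← Real.exp_nat_mul]
  have h1 : ((n - 1 : ℕ) : ℝ) * -((k + 3 : ℕ) * Real.log n / (n - 1 : ℕ)) =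
      -((k + 3 : ℕ) * Real.log n) := by
    field_simp
  rw [h1, Real.exp_neg, ← Real.log_pow, Real.exp_log (by positivity), one_div]

theorem log_le {n : ℕ} (hn : 100 ≤ n) : Real.log n ^ 2 ≤ (n - 1) / 2 := by
  have hn' : (100:ℝ) ≤ n := by exact_mod_cast hn
  have hn0 : (0:ℝ) < n := by linarith
  set s := Real.sqrt n with hs
  have hs2 : s ^ 2 = n := Real.sq_sqrt hn0.le
  have hs10 : 10 ≤ s := by
    rw [hs]; apply Real.le_sqrt_of_sq_le; linarith
  have h1 : Real.log n = 2 * Real.log s := by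
    rw [← hs2, Real.log_pow]; norm_num
  have h2 : Real.log (s / 16) ≤ s / 16 - 1 := Real.log_le_sub_one_of_pos (by positivity)
  rw [Real.log_div (by positivity) (by norm_num)] at h2
  have h3 : Real.log 16 = 4 * Real.log 2 := by
    rw [show (16:ℝ) = 2 ^ 4 by norm_num, Real.log_pow]; norm_num
  have h4 := Real.log_two_lt_d9
  have h5 : Real.log n ≤ 0.48 * s := by linarith
  have h6 : 0 ≤ Real.log n := Real.log_natCast_nonneg n
  nlinarith

theorem add_three_le {n k : ℕ} (hn : 100 ^ (k + 1) ≤ n) : ((k + 3 : ℕ) : ℝ) ≤ Real.log n := by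
  have h1 : Real.log ((100:ℝ) ^ (k + 1)) ≤ Real.log n :=
    Real.log_le_log (by positivity) (by exact_mod_cast hn)
  rw [Real.log_pow] at h1
  have h2 : Real.log 64 ≤ Real.log 100 := Real.log_le_log (by norm_num) (by norm_num)
  have h3 : Real.log 64 = 6 * Real.log 2 := by
    rw [show (64:ℝ) = 2 ^ 6 by norm_num, Real.log_pow]; norm_num
  have h4 := Real.log_two_gt_d9
  have h5 : (4:ℝ) ≤ Real.log 100 := by linarith
  have h6 : ((k + 1 : ℕ) : ℝ) * 4 ≤ ((k + 1 : ℕ) : ℝ) * Real.log 100 := by gcongr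
  push_cast at h1 h6 ⊢
  have h7 : (0:ℝ) ≤ k := by positivity
  linarith

theorem hundred_le {n k : ℕ} (hn : 100 ^ (k + 1) ≤ n) : 100 ≤ n ∧ 2 * 15 ^ k + 12 ≤ n := by
  have h1 : 15 ^ k ≤ 100 ^ k := Nat.pow_le_pow_left (by norm_num) k
  have h2 : 1 ≤ 100 ^ k := Nat.one_le_pow _ _ (by norm_num)
  rw [pow_succ] at hn
  omega

theorem thr_half {n k : ℕ} (hn : 100 ^ (k + 1) ≤ n) : 1 / 2 ≤ thr n k := by
  have h100 := (hundred_le hn).1
  have hn1 : (0:ℝ) < ((n - 1 : ℕ) : ℝ) := by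
    have : 0 < n - 1 := by omega
    positivity
  have hl : 0 ≤ Real.log n := Real.log_natCast_nonneg n
  have h4 : ((k + 3 : ℕ) : ℝ) * Real.log n / (n - 1 : ℕ) ≤ 1 / 2 := by
    rw [div_le_iff₀ hn1, Nat.cast_sub (by omega)]
    have h5 := log_le h100
    have h6 := add_three_le hn
    push_cast at h6 ⊢
    nlinarith
  unfold thr
  have h6 := Real.add_one_le_exp (-(((k + 3 : ℕ) : ℝ) * Real.log n / (n - 1 : ℕ)))
  linarith

/-- If the critical orbit comes close to the critical point after `k + 1` steps then there is an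
attracting cycle. -/
theorem criterion' {n k : ℕ} (hkn : 100 ^ (k + 1) ≤ n) {c : ℂ} (hc : c ∈ multibrotSet n)
    (hP : ‖P n (k + 1) c‖ < thr n k) :
    ∃ z, IsAttractingCycle (fun z => z ^ n + c) (k + 1) z := by
  have hhalf := thr_half hkn
  have hn := (hundred_le hkn).2
  have hn' : (2 * 15 ^ k + 12 : ℝ) ≤ n := by exact_mod_cast hn
  have h15 : (1:ℝ) ≤ 15 ^ k := one_le_pow₀ (by norm_num)
  have hn12 : (12:ℝ) ≤ n := by linarith
  have hn0 : (0:ℝ) < n := by linarith
  have hn4 : 4 ≤ n := by omega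
  set ε : ℝ := 1 / (n:ℝ) ^ (k + 2) with hε
  have hε0 : 0 < ε := by positivity
  have hkε : (15 * (n:ℝ)) ^ k * ε = 15 ^ k / n ^ 2 := by
    rw [hε, mul_pow, pow_add]
    field_simp
  have hsmall : (15:ℝ) ^ k / n ^ 2 ≤ 1 / (2 * n) := by
    rw [div_le_div_iff₀ (by positivity) (by positivity)]
    nlinarith
  have hfol : ∀ z ∈ closedBall c ε, ∀ j ≤ k, ‖(F n c)^[j] z - P n (j + 1) c‖ ≤ (15 * n) ^ j * ε ∧
      ‖deriv (F n c)^[j] z‖ ≤ (15 * n) ^ j := by
    intro z hz
    rw [mem_closedBall, dist_eq_norm] at hz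
    apply follow hn4 hc _ hε0.le hz
    rw [hkε]
    refine hsmall.trans ?_
    apply one_div_le_one_div_of_le hn0
    linarith
  have hy : ∀ z ∈ closedBall c ε, ‖(F n c)^[k] z‖ ^ (n - 1) ≤ 3 / (n:ℝ) ^ (k + 3) ∧
      ‖(F n c)^[k] z‖ ≤ 2 := by
    intro z hz
    have h1 := (hfol z hz k le_rfl).1
    rw [hkε] at h1
    have h2 := norm_sub_norm_le ((F n c)^[k] z) (P n (k + 1) c)
    have h3 : ‖(F n c)^[k] z‖ ≤ thr n k * (1 + 1 / n) := by
      have h4 : 1 / (2 * (n:ℝ)) ≤ thr n k * (1 / n) := by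
        calc 1 / (2 * (n:ℝ)) = 1 / 2 * (1 / n) := by field_simp
          _ ≤ thr n k * (1 / n) := by gcongr
      linarith
    constructor
    · have h5 := one_add_div_pow_le (n := n) (θ := 1) (by omega) zero_le_one (Nat.sub_le n 1)
      have he : Real.exp 1 < 2.7182818286 := Real.exp_one_lt_d9
      calc ‖(F n c)^[k] z‖ ^ (n - 1) ≤ (thr n k * (1 + 1 / n)) ^ (n - 1) := by gcongr
        _ = thr n k ^ (n - 1) * (1 + 1 / (n:ℝ)) ^ (n - 1) := mul_pow _ _ _
        _ ≤ 1 / (n:ℝ) ^ (k + 3) * 3 := by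
            rw [thr_pow (by omega)]
            gcongr
            linarith
        _ = _ := by ring
    · have h5 : thr n k ≤ 1 := by
        unfold thr
        rw [Real.exp_le_one_iff]
        have hl : 0 ≤ Real.log n := Real.log_natCast_nonneg n
        have : 0 ≤ ((k + 3 : ℕ) : ℝ) * Real.log n / (n - 1 : ℕ) := by positivity
        linarith
      have h6 : 1 / (n:ℝ) ≤ 1 := by
        rw [div_le_one hn0]; linarith
      calc ‖(F n c)^[k] z‖ ≤ thr n k * (1 + 1 / n) := h3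
        _ ≤ 1 * (1 + 1) := by gcongr
        _ = 2 := by norm_num
  have hmaps : MapsTo (F n c)^[k + 1] (closedBall c ε) (closedBall c ε) := by
    intro z hz
    obtain ⟨h1, h2⟩ := hy z hz
    rw [mem_closedBall, dist_eq_norm, Function.iterate_succ_apply']
    have h3 : F n c ((F n c)^[k] z) - c = ((F n c)^[k] z) ^ n := by
      conv_lhs => rw [F]
      ring
    rw [h3, norm_pow]
    calc ‖(F n c)^[k] z‖ ^ n = ‖(F n c)^[k] z‖ ^ (n - 1) * ‖(F n c)^[k] z‖ := by
          rw [← pow_succ]; congr 1; omega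
      _ ≤ 3 / (n:ℝ) ^ (k + 3) * 2 := by gcongr
      _ = (6 / n) * ε := by rw [hε, pow_succ _ (k + 2)]; field_simp; norm_num
      _ ≤ 1 * ε := by
          gcongr
          rw [div_le_one hn0]; linarith
      _ = ε := one_mul _
  have hder : ∀ z ∈ closedBall c ε, ‖deriv (F n c)^[k + 1] z‖ ≤ 1 / 2 := by
    intro z hz
    obtain ⟨h1, h2⟩ := hy z hz
    have h3 := (hfol z hz k le_rfl).2
    rw [Function.iterate_succ', deriv_comp _ (F_diff n c _) (((F_diff n c).iterate k) z), norm_mul,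
      F_deriv, norm_mul, norm_pow, Complex.norm_natCast]
    calc (n:ℝ) * ‖(F n c)^[k] z‖ ^ (n - 1) * ‖deriv (F n c)^[k] z‖
        ≤ n * (3 / (n:ℝ) ^ (k + 3)) * (15 * n) ^ k := by gcongr
      _ = 3 * (15 ^ k / n ^ 2) := by
          rw [mul_pow, pow_add]
          field_simp
      _ ≤ 3 * (1 / (2 * n)) := by gcongr
      _ ≤ 1 / 2 := by
          rw [mul_one_div, div_le_div_iff₀ (by positivity) (by norm_num)]
          linarith
  obtain ⟨z, -, hz1, hz2⟩ := fixed_of_contr hε0.le (by norm_num) (by norm_num : (1:ℝ) / 2 < 1)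
    ((F_diff n c).iterate (k + 1)) hmaps hder
  exact ⟨z, by omega, hz1, ((F_diff n c).iterate (k + 1)) z, hz2⟩

theorem criterion {n k : ℕ} (hkn : 100 ^ (k + 1) ≤ n) {c : ℂ} (hc : c ∈ multibrotSet n)
    (hP : ‖P n (k + 1) c‖ < thr n k) : c ∈ hyp n :=
  ⟨k + 1, criterion' hkn hc hP⟩

theorem criterion_pow {n k : ℕ} (hkn : 100 ^ (k + 1) ≤ n) {c : ℂ} (hc : c ∈ multibrotSet n)
    (h : ‖P n (k + 1) c‖ ^ (n - 1) < 1 / (n:ℝ) ^ (k + 3)) :
    ∃ z, IsAttractingCycle (fun z => z ^ n + c) (k + 1) z := by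
  have hn2 : 2 ≤ n := by have := (hundred_le hkn).1; omega
  apply criterion' hkn hc
  by_contra hcon
  rw [not_lt] at hcon
  rw [← thr_pow hn2] at h
  exact absurd (pow_le_pow_left₀ (thr_pos n k).le hcon (n - 1)) (not_le.2 h)

/-- Discs without attracting cycles are small where the parameter derivative is large. -/
theorem radius {n k : ℕ} (hkn : 100 ^ (k + 1) ≤ n) {c : ℂ} (hc : c ∈ multibrotSet n) {r : ℝ}
    (hr : 0 < r) (hno : ∀ c' ∈ ball c r, c' ∉ hyp n) :
    ‖deriv (P n (k + 1)) c‖ * r < 5 * (k + 4) * Real.log n / n := by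
  have hcrit : ∀ c ∈ multibrotSet n, ‖P n (k + 1) c‖ < thr n k → c ∈ hyp n :=
    fun c hc h => criterion hkn hc h
  have hn : 16 ≤ n := by have := (hundred_le hkn).1; omega
  have hn2 : 2 ≤ n := by omega
  have hn' : (16:ℝ) ≤ n := by exact_mod_cast hn
  have hn0 : (0:ℝ) < n := by linarith
  have hsub := ball_subset hn2 hr hc (fun c' hc' hh => hno c' hc' hh)
  have h1 := log_schwarz (h := P n (k + 1)) (c := c) (m := thr n k) hr (thr_pos n k)
    (differentiable_P n (k + 1)).differentiableOn (by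
      intro z hz
      by_contra hcon
      rw [not_le] at hcon
      exact hno z hz (hcrit z (hsub hz) hcon))
  have hlow : thr n k ≤ ‖P n (k + 1) c‖ := by
    by_contra hcon
    rw [not_le] at hcon
    exact hno c (mem_ball_self hr) (hcrit c hc hcon)
  have hpos : 0 < ‖P n (k + 1) c‖ := (thr_pos n k).trans_le hlow
  have hn1 : (0:ℝ) < ((n - 1 : ℕ) : ℝ) := by
    have : 0 < n - 1 := by omega
    positivity
  have hcast : ((n - 1 : ℕ) : ℝ) = n - 1 := by
    rw [Nat.cast_sub (by omega)]; simp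
  have hl2 : 0.6931471803 < Real.log 2 := Real.log_two_gt_d9
  have hln : Real.log 2 ≤ Real.log n := Real.log_le_log (by norm_num) (by linarith)
  have hlogP : Real.log ‖P n (k + 1) c‖ ≤ Real.log n / ((n - 1 : ℕ) : ℝ) := by
    rw [le_div_iff₀ hn1]
    have h3 : Real.log (‖P n (k + 1) c‖ ^ (n - 1)) ≤ Real.log 2 :=
      Real.log_le_log (by positivity) (pow_le_two hn2 hc (k + 1))
    rw [Real.log_pow] at h3
    linarith
  have hlogthr : Real.log (thr n k) = -((k + 3 : ℕ) * Real.log n / (n - 1 : ℕ)) := by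
    unfold thr; rw [Real.log_exp]
  have hlog : Real.log (‖P n (k + 1) c‖ / thr n k) ≤ (k + 4) * (Real.log n / ((n - 1 : ℕ) : ℝ)) := by
    rw [Real.log_div hpos.ne' (thr_pos n k).ne', hlogthr]
    have h4 : ((k + 3 : ℕ) : ℝ) * Real.log n / (n - 1 : ℕ) =
        (k + 3) * (Real.log n / ((n - 1 : ℕ) : ℝ)) := by
      push_cast; ring
    rw [h4]
    linarith
  have hP2 : ‖P n (k + 1) c‖ ≤ 2 := (mem_multibrot_iff hn2 c).mp hc (k + 1)
  have hx : Real.log n / ((n - 1 : ℕ) : ℝ) ≤ 16 / 15 * (Real.log n / n) := by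
    rw [div_le_iff₀ hn1, hcast]
    have h5 : Real.log n = Real.log n / n * n := by field_simp
    have h6 : 0 < Real.log n / n := by
      have : 0 < Real.log n := by linarith
      positivity
    have h7 : (n:ℝ) ≤ 16 / 15 * (n - 1) := by linarith
    calc Real.log n = Real.log n / n * n := h5
      _ ≤ Real.log n / n * (16 / 15 * (n - 1)) := by gcongr
      _ = _ := by ring
  have h6 : 0 < Real.log n / n := by
    have : 0 < Real.log n := by linarith
    positivity
  have hk : (0:ℝ) ≤ k := by positivity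
  calc ‖deriv (P n (k + 1)) c‖ * r
      ≤ 2 * ‖P n (k + 1) c‖ * Real.log (‖P n (k + 1) c‖ / thr n k) := h1
    _ ≤ 2 * ‖P n (k + 1) c‖ * ((k + 4) * (Real.log n / ((n - 1 : ℕ) : ℝ))) := by gcongr
    _ ≤ 2 * 2 * ((k + 4) * (16 / 15 * (Real.log n / n))) := by gcongr
    _ = (64 / 15) * ((k + 4) * (Real.log n / n)) := by ring
    _ < 5 * ((k + 4) * (Real.log n / n)) := by
        have : 0 < ((k:ℝ) + 4) * (Real.log n / n) := by positivity
        linarith
    _ = _ := by ring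

end Pool.Agent.H462R2.CD
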