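import Pool.Agent.H301R2.SSE.Forms

set_option autoImplicit false

namespace Pool.Agent.H462R2.PiE

open Pool.Agent.H301R2.SSE Pool.Agent.H340R2

/-- the exponential of `b * log n` is `n ^ b` -/
theorem exp_mul_log (n : ℕ) (hn : 2 ≤ n) (b : ℝ) :
    Complex.exp (((b : ℝ) : ℂ) * ((Real.log n : ℝ) : ℂ)) = (((n : ℝ) ^ b : ℝ) : ℂ) := by
  have hpos : (0 : ℝ) < n := by positivity
  rw [Real.rpow_def_of_pos hpos, Complex.ofReal_exp]
  push_cast
  rw [mul_comm]

theorem alg_ofReal {x : ℝ} (h : IsAlgebraic ℚ x) : IsAlgebraic ℚ (x : ℂ) :=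
  h.algebraMap (A := ℂ)

theorem alg_ofReal_iff {x : ℝ} : IsAlgebraic ℚ (x : ℂ) ↔ IsAlgebraic ℚ x :=
  isAlgebraic_algebraMap_iff (A := ℂ) (S := ℝ) (R := ℚ) (a := x) (by
    exact Complex.ofReal_injective)

/-- integral relation between logarithms gives a multiplicative relation -/
theorem prod_eq_one {r : ℕ} (n : Fin r → ℕ) (hn : ∀ i, 2 ≤ n i) (k : Fin r → ℤ)
    (h : ∑ i, (k i : ℝ) * Real.log (n i) = 0) : ∏ i, (n i : ℚ) ^ (k i) = 1 := by
  have hpos : ∀ i, (0 : ℝ) < n i := fun i => by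
    have := hn i
    positivity
  have h1 : Real.log (∏ i, (n i : ℝ) ^ (k i)) = 0 := by
    rw [Real.log_prod (fun i _ => (zpow_pos (hpos i) _).ne')]
    simp only [Real.log_zpow]
    exact h
  have h2 : (0 : ℝ) < ∏ i, (n i : ℝ) ^ (k i) := Finset.prod_pos (fun i _ => zpow_pos (hpos i) _)
  have h3 : (∏ i, (n i : ℝ) ^ (k i)) = 1 := by
    have := Real.exp_log h2
    rw [h1, Real.exp_zero] at this
    exact this.symm
  have h4 : (((∏ i, (n i : ℚ) ^ (k i)) : ℚ) : ℝ) = 1 := by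
    push_cast
    exact h3
  exact_mod_cast h4

/-- multiplicative independence of positive integers -/
def Indep {r : ℕ} (n : Fin r → ℕ) : Prop :=
  ∀ k : Fin r → ℤ, ∏ i, (n i : ℚ) ^ (k i) = 1 → k = 0

theorem linInd {r : ℕ} (n : Fin r → ℕ) (hn : ∀ i, 2 ≤ n i) (hi : Indep n) :
    LinearIndependent ℚ (fun i => ((Real.log (n i) : ℝ) : ℂ)) := by
  have h0 : LinearIndependent ℤ (fun i => Real.log (n i)) := by
    rw [Fintype.linearIndependent_iff]
    intro k hk
    have := hi k (prod_eq_one n hn k (by simpa [zsmul_eq_mul] using hk))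
    intro i
    rw [this]; rfl
  have h1 : LinearIndependent ℚ (fun i => Real.log (n i)) :=
    (LinearIndependent.iff_fractionRing ℤ ℚ).mp h0
  have h2 := h1.map' (Complex.ofRealCLM.toLinearMap.restrictScalars ℚ) (by
    rw [LinearMap.ker_eq_bot]
    exact Complex.ofReal_injective)
  exact h2

theorem baker_log {r : ℕ} (n : Fin r → ℕ) (hn : ∀ i, 2 ≤ n i) (hi : Indep n) (c₀ : ℂ)
    (hc₀ : IsAlgebraic ℚ c₀) (c : Fin r → ℂ) (hc : ∀ i, IsAlgebraic ℚ (c i))
    (h : c₀ + ∑ i, c i * ((Real.log (n i) : ℝ) : ℂ) = 0) : c₀ = 0 ∧ ∀ i, c i = 0 := by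
  refine Pool.Agent.H297R2.baker_inhom (fun i => ((Real.log (n i) : ℝ) : ℂ)) ?_ (linInd n hn hi)
    c₀ hc₀ c hc h
  intro i
  have hpos : (0 : ℝ) < n i := by
    have := hn i
    positivity
  rw [← Complex.ofReal_exp, Real.exp_log hpos]
  exact_mod_cast isAlgebraic_nat (n i)

theorem log_mem (n : ℕ) (hn : 2 ≤ n) : ((Real.log n : ℝ) : ℂ) ∈ Lt := by
  apply Lt_log
  have hpos : (0 : ℝ) < n := by positivity
  rw [← Complex.ofReal_exp, Real.exp_log hpos]
  exact_mod_cast isAlgebraic_nat n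

theorem pow_mem (n : ℕ) (hn : 2 ≤ n) (b : ℝ) (h : IsAlgebraic ℚ ((n : ℝ) ^ b)) :
    ((b : ℝ) : ℂ) * ((Real.log n : ℝ) : ℂ) ∈ Lt := by
  apply Lt_log
  rw [exp_mul_log n hn b]
  exact alg_ofReal h

theorem pi_mem : ((Real.pi : ℝ) : ℂ) ∈ Lt := by
  have h1 : (Real.pi : ℂ) * Complex.I ∈ Lt := by
    apply Lt_log
    rw [Complex.exp_pi_mul_I]
    exact isAlgebraic_one.neg
  have h2 := Lt_mul (a := -Complex.I) LW.isAlgebraic_I.neg h1
  have : -Complex.I * ((Real.pi : ℂ) * Complex.I) = (Real.pi : ℂ) := by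
    have := Complex.I_mul_I
    linear_combination (-(Real.pi : ℂ)) * this
  rwa [this] at h2

/-- the pair `(1, b)` is independent over the algebraic numbers for transcendental `b` -/
theorem one_indep (b : ℝ) (hb : Transcendental ℚ b) (a c : ℂ) (ha : IsAlgebraic ℚ a)
    (hc : IsAlgebraic ℚ c) (h : a * 1 + c * ((b : ℝ) : ℂ) = 0) : a = 0 ∧ c = 0 := by
  by_cases hc0 : c = 0
  · subst hc0
    refine ⟨?_, rfl⟩
    simpa using h
  · exfalso
    apply hb
    rw [← alg_ofReal_iff]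
    have : ((b : ℝ) : ℂ) = -a / c := by
      field_simp
      linear_combination h
    rw [this]
    exact (ha.neg).mul hc.inv

/-- if `b ∈ Lt` is transcendental then at most one multiplicative class of `n` has `n ^ b`
algebraic -/
theorem two_of_mem (b : ℝ) (hb : Transcendental ℚ b) (hbm : ((b : ℝ) : ℂ) ∈ Lt) (n : Fin 2 → ℕ)
    (hn : ∀ i, 2 ≤ n i) (hi : Indep n) (h : ∀ i, IsAlgebraic ℚ ((n i : ℝ) ^ b)) : False := by
  refine strong_six ![1, ((b : ℝ) : ℂ)]
    ![1, ((Real.log (n 0) : ℝ) : ℂ), ((Real.log (n 1) : ℝ) : ℂ)] ?_ ?_ ?_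
  · intro a c ha hc hac
    exact one_indep b hb a c ha hc hac
  · intro c hc hsum
    rw [Fin.sum_univ_three] at hsum
    have := baker_log n hn hi (c 0) (hc 0) ![c 1, c 2] (by
      intro i
      fin_cases i
      · exact hc 1
      · exact hc 2) (by
      rw [Fin.sum_univ_two]
      simp only [Matrix.cons_val_zero, Matrix.cons_val_one, Matrix.cons_val] at hsum ⊢
      linear_combination hsum)
    intro j
    fin_cases j
    · exact this.1
    · exact this.2 0
    · exact this.2 1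
  · intro i j
    fin_cases i <;> fin_cases j
    · simpa using Lt_one
    · simpa using log_mem (n 0) (hn 0)
    · simpa using log_mem (n 1) (hn 1)
    · simpa using hbm
    · simpa using pow_mem (n 0) (hn 0) b (h 0)
    · simpa using pow_mem (n 1) (hn 1) b (h 1)

/-- if `y b ∈ Lt`, `y ∈ Lt` where `y` is not a combination of logarithms of `n 0, n 1` ... -/
theorem two_of_y (b : ℝ) (hb : Transcendental ℚ b) (y : ℂ) (hy : y ∈ Lt)
    (hby : ((b : ℝ) : ℂ) * y ∈ Lt) (n : Fin 2 → ℕ)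
    (hn : ∀ i, 2 ≤ n i) (hi : Indep n) (h : ∀ i, IsAlgebraic ℚ ((n i : ℝ) ^ b))
    (hyi : ∀ c₀ c₁ c₂ : ℂ, IsAlgebraic ℚ c₀ → IsAlgebraic ℚ c₁ → IsAlgebraic ℚ c₂ →
      c₀ * y + c₁ * ((Real.log (n 0) : ℝ) : ℂ) + c₂ * ((Real.log (n 1) : ℝ) : ℂ) = 0 → c₀ = 0) :
    False := by
  refine strong_six ![1, ((b : ℝ) : ℂ)]
    ![y, ((Real.log (n 0) : ℝ) : ℂ), ((Real.log (n 1) : ℝ) : ℂ)] ?_ ?_ ?_
  · intro a c ha hc hac
    exact one_indep b hb a c ha hc hac
  · intro c hc hsum
    rw [Fin.sum_univ_three] at hsum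
    simp only [Matrix.cons_val_zero, Matrix.cons_val_one, Matrix.cons_val] at hsum
    have h0 : c 0 = 0 := hyi (c 0) (c 1) (c 2) (hc 0) (hc 1) (hc 2) hsum
    have := baker_log n hn hi 0 isAlgebraic_zero ![c 1, c 2] (by
      intro i
      fin_cases i
      · exact hc 1
      · exact hc 2) (by
      rw [Fin.sum_univ_two]
      simp only [Matrix.cons_val_zero, Matrix.cons_val_one]
      rw [h0] at hsum
      linear_combination hsum)
    intro j
    fin_cases j
    · exact h0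
    · exact this.2 0
    · exact this.2 1
  · intro i j
    fin_cases i <;> fin_cases j
    · simpa using hy
    · simpa using log_mem (n 0) (hn 0)
    · simpa using log_mem (n 1) (hn 1)
    · simpa using hby
    · simpa using pow_mem (n 0) (hn 0) b (h 0)
    · simpa using pow_mem (n 1) (hn 1) b (h 1)

/-- six exponentials: three multiplicatively independent integers -/
theorem three (b : ℝ) (hb : Transcendental ℚ b) (n : Fin 3 → ℕ)
    (hn : ∀ i, 2 ≤ n i) (hi : Indep n) (h : ∀ i, IsAlgebraic ℚ ((n i : ℝ) ^ b)) : False := by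
  refine strong_six ![1, ((b : ℝ) : ℂ)] (fun i => ((Real.log (n i) : ℝ) : ℂ)) ?_ ?_ ?_
  · intro a c ha hc hac
    exact one_indep b hb a c ha hc hac
  · intro c hc hsum
    exact (baker_log n hn hi 0 isAlgebraic_zero c hc (by simpa using hsum)).2
  · intro i j
    fin_cases i
    · simpa using log_mem (n j) (hn j)
    · simpa using pow_mem (n j) (hn j) b (h j)

end Pool.Agent.H462R2.PiE
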