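import Pool.Agent.H462R2.PiE

set_option autoImplicit false

namespace Pool.Agent.H462R2.PiE

open Pool.Agent.H301R2.SSE Pool.Agent.H340R2

theorem lin3 (a b : ℝ) (h : LinearIndependent ℚ ![(a : ℂ), (b : ℂ)]) :
    LinearIndependent ℚ ![(Real.pi : ℂ) * Complex.I, (a : ℂ), (b : ℂ)] := by
  rw [Fintype.linearIndependent_iff] at h ⊢
  intro g hg
  rw [Fin.sum_univ_three] at hg
  simp only [Matrix.cons_val_zero, Matrix.cons_val_one, Matrix.cons_val, Rat.smul_def] at hg
  have him := congrArg Complex.im hg
  have hre := congrArg Complex.re hg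
  simp at him hre
  have hg0 : g 0 = 0 := him
  have := h ![g 1, g 2] (by
    rw [Fin.sum_univ_two]
    simp only [Matrix.cons_val_zero, Matrix.cons_val_one, Rat.smul_def]
    apply Complex.ext
    · simpa using hre
    · simp)
  intro i
  fin_cases i
  · exact hg0
  · exact this 0
  · exact this 1

/-- dichotomy for `e` -/
theorem dich (n : Fin 2 → ℕ) (hn : ∀ i, 2 ≤ n i) (hi : Indep n)
    (h : ∀ i, IsAlgebraic ℚ ((n i : ℝ) ^ Real.exp 1)) (β : ℂ) (hβ : IsAlgebraic ℚ β) :
    Transcendental ℚ ((Real.exp 1 : ℂ) + β * (Real.pi : ℂ)) ∧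
    Transcendental ℚ ((Real.exp 1 : ℂ) * ((Real.pi : ℂ) + β)) ∧
    (β ≠ 0 → Transcendental ℚ (Complex.exp (β * (Real.exp 1 : ℂ)))) := by
  have hb : Transcendental ℚ (Real.exp 1) := LW.transcendental_exp_one
  have key : ((Real.exp 1 : ℝ) : ℂ) ∉ Lt := fun hm => two_of_mem (Real.exp 1) hb hm n hn hi h
  refine ⟨?_, ?_, ?_⟩
  · intro halg
    apply key
    have h1 : ((Real.exp 1 : ℝ) : ℂ) = ((Real.exp 1 : ℂ) + β * (Real.pi : ℂ)) - β * (Real.pi : ℂ) := by
      ring
    rw [h1]
    exact Lt.sub_mem (Lt_alg halg) (Lt_mul hβ pi_mem)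
  · intro halg
    refine two_of_y (Real.exp 1) hb ((Real.pi : ℂ) + β) (Lt.add_mem pi_mem (Lt_alg hβ))
      (Lt_alg halg) n hn hi h ?_
    intro c₀ c₁ c₂ h0 h1 h2 hsum
    -- linear independence of `π i, log n 0, log n 1`
    have hlin := linInd n hn hi
    have hω : LinearIndependent ℚ ![(Real.pi : ℂ) * Complex.I, ((Real.log (n 0) : ℝ) : ℂ),
        ((Real.log (n 1) : ℝ) : ℂ)] := by
      apply lin3
      convert hlin using 1
      ext i
      fin_cases i <;> rfl
    have hfin := Pool.Agent.H297R2.baker_inhom (ι := Fin 3)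
      ![(Real.pi : ℂ) * Complex.I, ((Real.log (n 0) : ℝ) : ℂ), ((Real.log (n 1) : ℝ) : ℂ)]
      (by
        have hpos : ∀ i, (0 : ℝ) < n i := fun i => by
          have := hn i
          positivity
        intro i
        fin_cases i
        · show IsAlgebraic ℚ (Complex.exp ((Real.pi : ℂ) * Complex.I))
          rw [Complex.exp_pi_mul_I]
          exact isAlgebraic_one.neg
        · show IsAlgebraic ℚ (Complex.exp ((Real.log (n 0) : ℝ) : ℂ))
          rw [← Complex.ofReal_exp, Real.exp_log (hpos 0)]
          exact_mod_cast isAlgebraic_natCast (n 0)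
        · show IsAlgebraic ℚ (Complex.exp ((Real.log (n 1) : ℝ) : ℂ))
          rw [← Complex.ofReal_exp, Real.exp_log (hpos 1)]
          exact_mod_cast isAlgebraic_natCast (n 1)) hω (c₀ * β) (h0.mul hβ)
      ![-Complex.I * c₀, c₁, c₂] (by
        intro i
        fin_cases i
        · exact (LW.isAlgebraic_I.neg).mul h0
        · exact h1
        · exact h2) (by
        rw [Fin.sum_univ_three]
        simp only [Matrix.cons_val_zero, Matrix.cons_val_one, Matrix.cons_val]
        have hII := Complex.I_mul_I
        linear_combination hsum - c₀ * (Real.pi : ℂ) * hII)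
    have h3 := hfin.2 0
    simp only [Matrix.cons_val_zero] at h3
    rcases mul_eq_zero.mp h3 with h4 | h4
    · exact absurd h4 (neg_ne_zero.mpr Complex.I_ne_zero)
    · exact h4
  · intro hβ0 halg
    apply key
    have h1 : β * (Real.exp 1 : ℂ) ∈ Lt := Lt_log halg
    have h2 := Lt_mul hβ.inv h1
    have h3 : β⁻¹ * (β * (Real.exp 1 : ℂ)) = ((Real.exp 1 : ℝ) : ℂ) := by
      field_simp
    rwa [h3] at h2

/-! ### counting -/

theorem val_two (m n : ℕ) (hm : 2 ≤ m) (hn : 2 ≤ n) (h : ¬ Indep ![m, n]) (p q : ℕ) [hp : Fact p.Prime]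
    [hq : Fact q.Prime] :
    (padicValNat p m : ℤ) * padicValNat q n = padicValNat q m * padicValNat p n := by
  unfold Indep at h
  push Not at h
  obtain ⟨k, hk, hk0⟩ := h
  rw [Fin.prod_univ_two] at hk
  simp only [Matrix.cons_val_zero, Matrix.cons_val_one] at hk
  have hm0 : (m : ℚ) ≠ 0 := by positivity
  have hn0 : (n : ℚ) ≠ 0 := by positivity
  have key : ∀ r : ℕ, Fact r.Prime → k 0 * (padicValNat r m : ℤ) + k 1 * padicValNat r n = 0 := by
    intro r hr
    have h1 := congrArg (padicValRat r) hk
    rw [padicValRat.mul (zpow_ne_zero _ hm0) (zpow_ne_zero _ hn0), padicValRat.zpow,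
      padicValRat.zpow, padicValRat.one, padicValRat.of_nat, padicValRat.of_nat] at h1
    exact h1
  have e1 := key p hp
  have e2 := key q hq
  by_cases h0 : k 0 = 0
  · have h1 : k 1 ≠ 0 := by
      intro h1
      apply hk0
      ext i
      fin_cases i
      · exact h0
      · exact h1
    have : k 1 * ((padicValNat p m : ℤ) * padicValNat q n - padicValNat q m * padicValNat p n) = 0 := by
      linear_combination (padicValNat p m : ℤ) * e2 - (padicValNat q m : ℤ) * e1
    have := (mul_eq_zero.mp this).resolve_left h1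
    linarith
  · have : k 0 * ((padicValNat p m : ℤ) * padicValNat q n - padicValNat q m * padicValNat p n) = 0 := by
      linear_combination (padicValNat q n : ℤ) * e1 - (padicValNat p n : ℤ) * e2
    have := (mul_eq_zero.mp this).resolve_left h0
    linarith

theorem val_three (l m n : ℕ) (hl : 2 ≤ l) (hm : 2 ≤ m) (hn : 2 ≤ n) (h : ¬ Indep ![l, m, n])
    (p q r : ℕ) [hp : Fact p.Prime] [hq : Fact q.Prime] [hr : Fact r.Prime]
    (hD : (padicValNat p l : ℤ) * padicValNat q m ≠ padicValNat q l * padicValNat p m) :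
    (padicValNat r n : ℤ) *
      ((padicValNat p l : ℤ) * padicValNat q m - padicValNat q l * padicValNat p m)
    = padicValNat p n * ((padicValNat r l : ℤ) * padicValNat q m - padicValNat q l * padicValNat r m)
      - padicValNat q n *
        ((padicValNat r l : ℤ) * padicValNat p m - padicValNat p l * padicValNat r m) := by
  unfold Indep at h
  push Not at h
  obtain ⟨k, hk, hk0⟩ := h
  rw [Fin.prod_univ_three] at hk
  simp only [Matrix.cons_val_zero, Matrix.cons_val_one, Matrix.cons_val] at hk
  have hl0 : (l : ℚ) ≠ 0 := by positivity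
  have hm0 : (m : ℚ) ≠ 0 := by positivity
  have hn0 : (n : ℚ) ≠ 0 := by positivity
  have key : ∀ r : ℕ, Fact r.Prime → k 0 * (padicValNat r l : ℤ) + k 1 * padicValNat r m
      + k 2 * padicValNat r n = 0 := by
    intro r hr
    have h1 := congrArg (padicValRat r) hk
    rw [padicValRat.mul (mul_ne_zero (zpow_ne_zero _ hl0) (zpow_ne_zero _ hm0))
      (zpow_ne_zero _ hn0), padicValRat.mul (zpow_ne_zero _ hl0) (zpow_ne_zero _ hm0),
      padicValRat.zpow, padicValRat.zpow, padicValRat.zpow, padicValRat.one, padicValRat.of_nat,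
      padicValRat.of_nat, padicValRat.of_nat] at h1
    exact h1
  have e1 := key p hp
  have e2 := key q hq
  have e3 := key r hr
  have h2 : k 2 ≠ 0 := by
    intro h2
    rw [h2] at e1 e2
    have h01 : k 0 * ((padicValNat p l : ℤ) * padicValNat q m - padicValNat q l * padicValNat p m) = 0 := by
      linear_combination (padicValNat q m : ℤ) * e1 - (padicValNat p m : ℤ) * e2
    have h11 : k 1 * ((padicValNat p l : ℤ) * padicValNat q m - padicValNat q l * padicValNat p m) = 0 := by
      linear_combination (padicValNat p l : ℤ) * e2 - (padicValNat q l : ℤ) * e1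
    have hD' : (padicValNat p l : ℤ) * padicValNat q m - padicValNat q l * padicValNat p m ≠ 0 :=
      sub_ne_zero.mpr hD
    have h0 := (mul_eq_zero.mp h01).resolve_right hD'
    have h1 := (mul_eq_zero.mp h11).resolve_right hD'
    apply hk0
    ext i
    fin_cases i
    · exact h0
    · exact h1
    · exact h2
  apply mul_left_cancel₀ h2
  linear_combination
    ((padicValNat p l : ℤ) * padicValNat q m - padicValNat q l * padicValNat p m) * e3
    - ((padicValNat r l : ℤ) * padicValNat q m - padicValNat q l * padicValNat r m) * e1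
    + ((padicValNat r l : ℤ) * padicValNat p m - padicValNat p l * padicValNat r m) * e2

theorem eq_of_val {m n : ℕ} (hm : m ≠ 0) (hn : n ≠ 0)
    (h : ∀ p : ℕ, Fact p.Prime → (padicValNat p m : ℤ) = padicValNat p n) : m = n := by
  apply Nat.eq_of_factorization_eq hm hn
  intro p
  by_cases hp : p.Prime
  · rw [Nat.factorization_def _ hp, Nat.factorization_def _ hp]
    exact_mod_cast h p ⟨hp⟩
  · rw [Nat.factorization_eq_zero_of_not_prime _ hp, Nat.factorization_eq_zero_of_not_prime _ hp]

theorem val_le {p n N : ℕ} [hp : Fact p.Prime] (_hn : 2 ≤ n) (hN : n ≤ N) :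
    padicValNat p n ≤ Nat.log 2 N := by
  calc padicValNat p n ≤ Nat.log p n := padicValNat_le_nat_log n
    _ ≤ Nat.log 2 n := Nat.log_anti_left (by norm_num) hp.out.two_le
    _ ≤ Nat.log 2 N := Nat.log_mono_right hN

/-- a set of integers `≥ 2` any two of which are multiplicatively dependent -/
theorem card_one (S : Finset ℕ) (N : ℕ) (hS : ∀ n ∈ S, 2 ≤ n ∧ n ≤ N)
    (hdep : ∀ m ∈ S, ∀ n ∈ S, ¬ Indep ![m, n]) : S.card ≤ Nat.log 2 N + 1 := by
  classical
  rcases S.eq_empty_or_nonempty with rfl | ⟨n₁, hn₁⟩
  · simp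
  · have h2 := (hS n₁ hn₁).1
    obtain ⟨p, hp, hpd⟩ := Nat.exists_prime_and_dvd (n := n₁) (by omega)
    haveI : Fact p.Prime := ⟨hp⟩
    have hv : padicValNat p n₁ ≠ 0 := by
      have := (one_le_padicValNat_of_dvd (p := p) (by omega : n₁ ≠ 0) hpd)
      omega
    have hinj : Set.InjOn (fun n => padicValNat p n) (S : Set ℕ) := by
      intro m hm n hn hmn
      have hmn' : padicValNat p m = padicValNat p n := hmn
      refine eq_of_val (by have := (hS m hm).1; omega) (by have := (hS n hn).1; omega) ?_
      intro q hq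
      have e1 := val_two m n₁ (hS m hm).1 h2 (hdep m hm n₁ hn₁) p q
      have e2 := val_two n n₁ (hS n hn).1 h2 (hdep n hn n₁ hn₁) p q
      rw [hmn'] at e1
      have hv' : (padicValNat p n₁ : ℤ) ≠ 0 := by exact_mod_cast hv
      apply mul_right_cancel₀ hv'
      rw [← e1, ← e2]
    have := Finset.card_le_card_of_injOn (s := S) (t := Finset.range (Nat.log 2 N + 1))
      (fun n => padicValNat p n) (by
        intro n hn
        have := val_le (p := p) (hS n hn).1 (hS n hn).2
        simp only [Finset.coe_range, Set.mem_Iio]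
        omega) hinj
    simpa using this

theorem card_two (S : Finset ℕ) (N : ℕ) (hS : ∀ n ∈ S, 2 ≤ n ∧ n ≤ N)
    (hdep : ∀ l ∈ S, ∀ m ∈ S, ∀ n ∈ S, ¬ Indep ![l, m, n]) :
    S.card ≤ (Nat.log 2 N + 1) ^ 2 := by
  classical
  by_cases hall : ∀ m ∈ S, ∀ n ∈ S, ∀ p q : ℕ, Fact p.Prime → Fact q.Prime →
      (padicValNat p m : ℤ) * padicValNat q n = padicValNat q m * padicValNat p n
  · have : S.card ≤ Nat.log 2 N + 1 := by
      rcases S.eq_empty_or_nonempty with rfl | ⟨n₁, hn₁⟩
      · simp
      · have h2 := (hS n₁ hn₁).1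
        obtain ⟨p, hp, hpd⟩ := Nat.exists_prime_and_dvd (n := n₁) (by omega)
        haveI : Fact p.Prime := ⟨hp⟩
        have hv : padicValNat p n₁ ≠ 0 := by
          have := (one_le_padicValNat_of_dvd (p := p) (by omega : n₁ ≠ 0) hpd)
          omega
        have hinj : Set.InjOn (fun n => padicValNat p n) (S : Set ℕ) := by
          intro m hm n hn hmn
          have hmn' : padicValNat p m = padicValNat p n := hmn
          refine eq_of_val (by have := (hS m hm).1; omega) (by have := (hS n hn).1; omega) ?_
          intro q hq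
          have e1 := hall m hm n₁ hn₁ p q ⟨hp⟩ hq
          have e2 := hall n hn n₁ hn₁ p q ⟨hp⟩ hq
          rw [hmn'] at e1
          have hv' : (padicValNat p n₁ : ℤ) ≠ 0 := by exact_mod_cast hv
          apply mul_right_cancel₀ hv'
          rw [← e1, ← e2]
        have := Finset.card_le_card_of_injOn (s := S) (t := Finset.range (Nat.log 2 N + 1))
          (fun n => padicValNat p n) (by
            intro n hn
            have := val_le (p := p) (hS n hn).1 (hS n hn).2
            simp only [Finset.coe_range, Set.mem_Iio]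
            omega) hinj
        simpa using this
    calc S.card ≤ Nat.log 2 N + 1 := this
      _ ≤ (Nat.log 2 N + 1) ^ 2 := Nat.le_self_pow (by norm_num) _
  · push Not at hall
    obtain ⟨l, hl, m, hm, p, q, hp, hq, hD⟩ := hall
    have hinj : Set.InjOn (fun n => (padicValNat p n, padicValNat q n)) (S : Set ℕ) := by
      intro n hn n' hn' hnn
      have h1 : padicValNat p n = padicValNat p n' := (Prod.ext_iff.mp hnn).1
      have h2 : padicValNat q n = padicValNat q n' := (Prod.ext_iff.mp hnn).2
      refine eq_of_val (by have := (hS n hn).1; omega) (by have := (hS n' hn').1; omega) ?_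
      intro r hr
      have e1 := val_three l m n (hS l hl).1 (hS m hm).1 (hS n hn).1 (hdep l hl m hm n hn) p q r hD
      have e2 := val_three l m n' (hS l hl).1 (hS m hm).1 (hS n' hn').1
        (hdep l hl m hm n' hn') p q r hD
      rw [← h1, ← h2, ← e1] at e2
      exact (mul_right_cancel₀ (sub_ne_zero.mpr hD) e2).symm
    have := Finset.card_le_card_of_injOn (s := S)
      (t := Finset.range (Nat.log 2 N + 1) ×ˢ Finset.range (Nat.log 2 N + 1))
      (fun n => (padicValNat p n, padicValNat q n)) (by
        intro n hn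
        have h1 := val_le (p := p) (hS n hn).1 (hS n hn).2
        have h2 := val_le (p := q) (hS n hn).1 (hS n hn).2
        simp only [Finset.coe_product, Finset.coe_range, Set.mem_prod, Set.mem_Iio]
        omega) hinj
    rw [Finset.card_product, Finset.card_range] at this
    rw [sq]
    exact this

open Classical in
theorem count (N : ℕ) :
    ((Finset.Icc 2 N).filter (fun n : ℕ => IsAlgebraic ℚ ((n : ℝ) ^ Real.pi) ∨
      IsAlgebraic ℚ ((n : ℝ) ^ Real.exp 1))).card ≤ (Nat.log 2 N + 2) ^ 2 := by
  rw [Finset.filter_or]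
  refine (Finset.card_union_le _ _).trans ?_
  have h1 := card_one ((Finset.Icc 2 N).filter (fun n : ℕ => IsAlgebraic ℚ ((n : ℝ) ^ Real.pi))) N
    (by
      intro n hn
      exact Finset.mem_Icc.mp (Finset.mem_filter.mp hn).1) (by
      intro m hm n hn hi
      rw [Finset.mem_filter, Finset.mem_Icc] at hm hn
      refine two_of_mem Real.pi LW.transcendental_pi pi_mem ![m, n] ?_ hi ?_
      · intro i
        fin_cases i
        · exact hm.1.1
        · exact hn.1.1
      · intro i
        fin_cases i
        · exact hm.2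
        · exact hn.2)
  have h2 := card_two ((Finset.Icc 2 N).filter (fun n : ℕ => IsAlgebraic ℚ ((n : ℝ) ^ Real.exp 1))) N
    (by
      intro n hn
      exact Finset.mem_Icc.mp (Finset.mem_filter.mp hn).1) (by
      intro l hl m hm n hn hi
      rw [Finset.mem_filter, Finset.mem_Icc] at hl hm hn
      refine three (Real.exp 1) LW.transcendental_exp_one ![l, m, n] ?_ hi ?_
      · intro i
        fin_cases i
        · exact hl.1.1
        · exact hm.1.1
        · exact hn.1.1
      · intro i
        fin_cases i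
        · exact hl.2
        · exact hm.2
        · exact hn.2)
  calc _ ≤ (Nat.log 2 N + 1) + (Nat.log 2 N + 1) ^ 2 := Nat.add_le_add h1 h2
    _ ≤ (Nat.log 2 N + 2) ^ 2 := by nlinarith

end Pool.Agent.H462R2.PiE
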